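import Pool.Agent.H58.FG.MDefs
import Pool.Agent.H13.FG.Stm
import Pool.Agent.FM.Stm

/-!
# MP_4c8b8e_co, project FIRE: metric block, statements
-/

set_option autoImplicit false

namespace Pool.Agent.H58.FG

open Classical Pool.Agent.H3.FF CV TV Pool.Agent.FM Pool.Agent.H13.FG

open Pool.Agent.H58.FF (Pt nbs dst nrm)

/-! ### the graph over the lattice -/

/-- FIRE-M1: the graph lies over the lattice -/
def SOv : Prop := ∀ (K H L : ℕ) [NeZero K], Par K H L → Ov (TL K H) (G K H L) bp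

/-- FIRE-M2: the fibres are small -/
def SFib : Prop := ∀ (K H L : ℕ) [NeZero K], Par K H L → ∀ f : TV K H,
  {u : GV K H L | bp u = f}.ncard ≤ 13

/-- FIRE-M3: every edge of the lattice lies in exactly two triangles -/
def STri : Prop := ∀ (K H L : ℕ) [NeZero K], Par K H L → Tri (TL K H)

/-- FIRE-M4: the lattice is connected, degrees, number of coarse vertices -/
def SDeg : Prop := ∀ (K H L : ℕ) [NeZero K], Par K H L → (TL K H).Preconnected ∧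
  (∀ z, ((TL K H).neighborSet z).ncard ≤ K + 6) ∧ (Zc K H).ncard ≤ K + 2 ∧ (Zc K H).Nonempty

/-- FIRE-M5: steps in fibres and over edges -/
def SEdge : Prop := ∀ (K H L : ℕ) [NeZero K], Par K H L →
  (∀ u : GV K H L, ∃ w : (G K H L).Walk (Sum.inl (Sum.inl (bp u))) u, w.length ≤ 4 ∧
    ∀ z ∈ w.support, bp z = bp u) ∧
  (∀ f g : TV K H, Ad f g → ∃ w : (G K H L).Walk (Sum.inl (Sum.inl f)) (Sum.inl (Sum.inl g)),
    w.length ≤ 4 ∧ (Un L f g → w.length = 1) ∧ ∀ z ∈ w.support, bp z = f ∨ bp z = g)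

/-! ### following walks -/

/-- FIRE-M6: streets in the flat lattice -/
def SLat : Prop := ∀ L : ℕ, 1 ≤ L → ∀ p q : Pt, ∃ (m : ℕ) (x : ℕ → Pt), x 0 = p ∧ x m = q ∧
  (∀ i < m, x (i + 1) ∈ nbs (x i)) ∧ (∀ i ≤ m, dst (x i) p ≤ dst q p + 4 * L) ∧
  (m : ℤ) + 3 * ((Finset.range m).filter (fun i => ¬ Str L (x i) (x (i + 1)))).card ≤
    dst q p + 10 * L

/-- FIRE-M7: charts that respect the streets -/
def SChart : Prop := ∀ (K H L : ℕ) [NeZero K], Par K H L → ∀ (f : TV K H) (R : ℕ), Far R f →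
  ∃ (p0 : Pt) (C : Chart K H p0 R), C.φ p0 = f ∧ ChS L C

/-- FIRE-M8: points outside a neighbourhood of the coarse vertices are far -/
def SFarZ : Prop := ∀ (K H L : ℕ) [NeZero K], Par K H L → ∀ (f : TV K H) (R : ℕ),
  f ∉ nbh (TL K H) (Zc K H) (2 * R) → Far R f

/-- FIRE-M9: short walks can be followed cheaply -/
def SShort : Prop := SLat → SChart → SEdge → ∀ (K H L : ℕ) [NeZero K], Par K H L →
  ∀ (f g : TV K H) (n : ℕ), Far (n + 4 * L + 2) f → (∃ w : (TL K H).Walk f g, w.length ≤ n) →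
    ∃ w : (G K H L).Walk (Sum.inl (Sum.inl f)) (Sum.inl (Sum.inl g)), w.length ≤ n + 10 * L ∧
      ∀ z ∈ w.support, bp z ∈ nbh (TL K H) {f} (n + 4 * L)

/-- FIRE-M10: following walks -/
def SFollow : Prop := ∀ (K L M : ℕ) [NeZero K], 0 < M → ∃ R0 D C0 : ℕ, ∀ H, Par K H L →
  Fol (TL K H) (G K H L) bp {z | z ∉ nbh (TL K H) (Zc K H) R0} M D C0

/-- FIRE-M10: following walks, from the rows before -/
def SFollowOf : Prop := (∀ (K H L : ℕ) [NeZero K], Par K H L →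
  ∀ (f g : TV K H) (n : ℕ), Far (n + 4 * L + 2) f → (∃ w : (TL K H).Walk f g, w.length ≤ n) →
    ∃ w : (G K H L).Walk (Sum.inl (Sum.inl f)) (Sum.inl (Sum.inl g)), w.length ≤ n + 10 * L ∧
      ∀ z ∈ w.support, bp z ∈ nbh (TL K H) {f} (n + 4 * L)) → SFarZ → SEdge → SFollow

/-! ### cuts of neighbourhoods -/

/-- FIRE-M11: sliding a ball to a neighbour costs at most four edges -/
def SSlide : Prop := ∀ (K H L : ℕ) [NeZero K], Par K H L → ∀ (r : ℕ) (f f' : TV K H),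
  Far (r + 3) f → Ad f f' → ∀ A : Finset (TV K H), (∀ g, Nr r f g → g ∈ A) →
    cut (A ∪ Finset.univ.filter (fun g => Nr r f' g)) ≤ cut A + 4

/-- FIRE-M12: the cut of a ball -/
def SBallCut : Prop := SSlide → ∀ (K H L : ℕ) [NeZero K], Par K H L → ∀ (r : ℕ) (f : TV K H),
  Far (r + 4) f → cut (Finset.univ.filter (fun g => Nr r f g)) ≤ 24 * r + 6

/-- FIRE-M13: the cut of a neighbourhood of a connected set -/
def SNghCut : Prop := ∀ (K r : ℕ) [NeZero K], ∃ C : ℕ, ∀ H L, Par K H L →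
  ∀ d : Set (TV K H), Cn (TL K H) d →
    FM.cut (TL K H) (nbh (TL K H) d r) (nbh (TL K H) d r)ᶜ ≤
      4 * d.ncard + 24 * r + 6 + C * {f | f ∈ d ∧ ¬ Far (r + 4) f}.ncard

/-- FIRE-M13, from the rows before -/
def SNghCutOf : Prop := SSlide → (∀ (K H L : ℕ) [NeZero K], Par K H L → ∀ (r : ℕ) (f : TV K H),
  Far (r + 4) f → cut (Finset.univ.filter (fun g => Nr r f g)) ≤ 24 * r + 6) → SBall → SDeg →
    SNghCut

/-- FIRE-M14: few points are near the coarse vertices -/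
def SNotFar : Prop := ∀ (K R : ℕ) [NeZero K], ∃ C : ℕ, ∀ H L, Par K H L →
  {f : TV K H | ¬ Far R f}.ncard ≤ C

/-- FIRE-M15: the cut of the neighbourhood of the large clusters and the coarse vertices -/
def SUCut : Prop := ∀ (K r : ℕ) [NeZero K], ∃ C : ℕ, ∀ H L, Par K H L →
  ∀ (bl : Set (TV K H)) (m0 : ℕ),
    FM.cut (TL K H) (nbh (TL K H) (Fl bl m0 r).U r) (nbh (TL K H) (Fl bl m0 r).U r)ᶜ ≤
      4 * bl.ncard + (24 * r + 6) * {d | (Fl bl m0 r).big d}.ncard + C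

/-! ### scales -/

/-- FIRE-M16: averaging over the radius -/
def SRngAvg : Prop := ∀ (K H L : ℕ) [NeZero K], Par K H L → ∀ (bl : Set (TV K H))
  (m0 b R1 R2 : ℕ), ∑ r ∈ Finset.Ico R1 R2, (rng bl m0 r b).ncard ≤ (m0 + 2 * b) * bl.ncard

/-- FIRE-M17: choice of the size of the large clusters -/
def SPig : Prop := ∀ (K H L : ℕ) [NeZero K], Par K H L → ∀ (bl : Set (TV K H)) (N Q m : ℕ),
  0 < N → 0 < Q → 0 < m → ∃ i < N, ∀ r,
    N * Q * (m * Q ^ i) * {d | (Fl bl (m * Q ^ i) r).big d}.ncard ≤ (N + Q) * bl.ncard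

/-- FIRE-M18: the number of components of the large clusters -/
def SNum : Prop := ∀ (K H L : ℕ) [NeZero K], Par K H L → ∀ (bl : Set (TV K H)) (m0 r : ℕ),
  ∃ f : TV K H → Fin ({d | (Fl bl m0 r).big d}.ncard + K + 2), ∀ x y, x ∈ (Fl bl m0 r).U →
    y ∈ (Fl bl m0 r).U → f x = f y → FM.Jn (TL K H) (Fl bl m0 r).U x y

/-- FIRE-M19: choice of the scale -/
def SScale : Prop := ∀ (K : ℕ) [NeZero K] (e A D Ar : ℕ), 1 ≤ e → ∃ Rm C : ℕ, ∀ (H L : ℕ),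
  Par K H L → ∀ bl : Set (TV K H), ∃ m0 r q : ℕ, Ar * (m0 + D + 3) ≤ r ∧ m0 + D + 3 ≤ r ∧
    r ≤ Rm ∧ e ≤ m0 ∧
    (∃ f : TV K H → Fin q, ∀ x y, x ∈ (Fl bl m0 r).U → y ∈ (Fl bl m0 r).U → f x = f y →
      FM.Jn (TL K H) (Fl bl m0 r).U x y) ∧
    e * q ≤ bl.ncard + C ∧
    e * (FM.cut (TL K H) (nbh (TL K H) (Fl bl m0 r).U r) (nbh (TL K H) (Fl bl m0 r).U r)ᶜ +
      A * (rng bl m0 r (m0 + D + 3)).ncard) ≤ 4 * (e + 1) * bl.ncard + C

/-- FIRE-M19, from the rows before -/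
def SScaleOf : Prop := SUCut → SRngAvg → SPig → SNum → SScale

/-! ### fill structures -/

/-- FIRE-M20: lower bound for balls -/
def SBallLow : Prop := ∀ (K H L : ℕ) [NeZero K], Par K H L → ∀ (u : TV K H) (r : ℕ), 2 * r ≤ H →
  (r + 1) ^ 2 ≤ 2 * (nbh (TL K H) {u} r).ncard

/-- FIRE-M21: the assumptions on fill structures hold -/
def SFOk : Prop := ∀ (K : ℕ) [NeZero K], 4 ∣ K → ∃ Cm : ℕ, 1 ≤ Cm ∧ ∀ m0 r : ℕ,
  Cm * (m0 + 1) ≤ r → ∃ H0 : ℕ, ∀ H L, H0 ≤ H → Par K H L → ∀ bl : Set (TV K H),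
    (Fl bl m0 r).Ok (Cm * (m0 + 1) ^ 2)

/-- FIRE-M21, from the rows before -/
def SFOkOf : Prop := SIso0 → SDeg → SBallLow → SFOk

/-- FIRE-M22: the size of `X` -/
def SXCard : Prop := ∀ (K : ℕ) [NeZero K] (Rm F0 : ℕ), ∃ C : ℕ, ∀ H L, Par K H L →
  ∀ (bl : Set (TV K H)) (m0 r : ℕ), r ≤ Rm → (Fl bl m0 r).Ok F0 →
    (Fl bl m0 r).X.ncard ≤ C * (bl.ncard + 1)

/-- FIRE-M23: the dust near the border of `X` is in the ring -/
def SRing : Prop := ∀ (K H L : ℕ) [NeZero K], Par K H L → ∀ (bl : Set (TV K H))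
  (m0 r F0 D : ℕ), (Fl bl m0 r).Ok F0 → m0 + D + 3 ≤ r →
    FM.dst (Fl bl m0 r) D (bdX (TL K H) (Fl bl m0 r).X) ⊆ rng bl m0 r (m0 + D + 3) ∧
    {z | (∃ d, (Fl bl m0 r).att d ∧ z ∈ d) ∧ z ∉ nbh (TL K H) (Fl bl m0 r).U r} ⊆
      rng bl m0 r (m0 + D + 3)

end Pool.Agent.H58.FG
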