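import Pool.Agent.H58.FG.TStm

/-!
# Project FIRE (MP_4c8b8e_co), row T25: the numbers
-/

set_option autoImplicit false

namespace Pool.Agent.H58.FG

/-- FIRE-T25: the numbers -/
theorem sarith : SArith := by
  intro e C3 he hC3 en M Δ C0 C J H P b cX cN rg dbd dr q A t1 lam l nw cU hM hen h1 h2 h3 h4 h5
    h6 h7 h8 h9 h10 h11 h12 h13 h14
  refine ⟨l + 3 + (cX - cU + 3) / 4 + q + 2 * J + 2,
    (l + 3 + (cX - cU + 3) / 4 + q + 2 * J + 2) +
      (l + 3 + (cX - cU + 3) / 4 + q + 2 * J + 2) / M + 1 + (C0 + 1) * (2 * J + 3), ?_, ?_, ?_⟩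
  · omega
  · set n := l + 3 + (cX - cU + 3) / 4 + q + 2 * J + 2
    have h : n ≤ M * (n / M + 1) := (Nat.lt_mul_div_succ n hM).le
    have h' : M * (n + n / M + 1 + (C0 + 1) * (2 * J + 3)) =
        M * n + M * (n / M + 1) + M * (C0 + 1) * (2 * J + 3) := by ring
    rw [h']
    have h'' : (M + 1) * n = M * n + n := by ring
    rw [h'']
    omega
  · -- real versions
    have hMr : (1 : ℝ) ≤ M := by exact_mod_cast hM
    have henr : (1 : ℝ) ≤ en := by exact_mod_cast hen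
    have hbP : (b : ℝ) ≤ P := by exact_mod_cast h4
    have hb0 : (0 : ℝ) ≤ b := Nat.cast_nonneg b
    have hH0 : (0 : ℝ) ≤ H := Nat.cast_nonneg H
    have hC0' : (0 : ℝ) ≤ C := Nat.cast_nonneg C
    have hJ0 : (0 : ℝ) ≤ J := Nat.cast_nonneg J
    have hrg0 : (0 : ℝ) ≤ rg := Nat.cast_nonneg rg
    have hbH : (b : ℝ) ≤ C3 * H := hbP.trans h3
    have e1 : (b : ℝ) / en ≤ e * H / 16 := by
      rw [div_le_iff₀ (by linarith)]
      have := mul_le_mul_of_nonneg_right h1 hH0
      nlinarith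
    have e2 : (b : ℝ) / M ≤ e * H / 40 := by
      rw [div_le_iff₀ (by linarith)]
      have := mul_le_mul_of_nonneg_right h2 hH0
      nlinarith
    have e3 : (cN : ℝ) + A * rg ≤ 4 * b + 4 * ((b : ℝ) / en) + C := by
      have h5r : (en : ℝ) * (cN + A * rg) ≤ 4 * (en + 1) * b + C := by exact_mod_cast h5
      have h6' : (en : ℝ) * (4 * b + 4 * ((b : ℝ) / en) + C) = 4 * (en + 1) * b + en * C := by
        have h7' : (en : ℝ) * ((b : ℝ) / en) = b := mul_div_cancel₀ _ (by linarith)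
        linear_combination 4 * h7'
      have h8' : (en : ℝ) * (cN + A * rg) ≤ en * (4 * b + 4 * ((b : ℝ) / en) + C) := by
        rw [h6']
        nlinarith
      exact le_of_mul_le_mul_left h8' (by linarith)
    have e4 : (q : ℝ) ≤ (b : ℝ) / en + C := by
      have h7r : (en : ℝ) * q ≤ b + C := by exact_mod_cast h7
      have h7' : (en : ℝ) * ((b : ℝ) / en) = b := mul_div_cancel₀ _ (by linarith)
      have h8' : (en : ℝ) * q ≤ en * ((b : ℝ) / en + C) := by
        rw [mul_add, h7']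
        nlinarith
      exact le_of_mul_le_mul_left h8' (by linarith)
    have e5 : (cX : ℝ) ≤ cN + Δ * rg := by exact_mod_cast h6
    have e6 : ((Δ : ℝ) + 4 * (6 * Δ + 12)) * rg ≤ A * rg := by
      have h9r : (Δ : ℝ) + 4 * (6 * Δ + 12) ≤ A := by exact_mod_cast h9
      exact mul_le_mul_of_nonneg_right h9r hrg0
    have e7 : (6 * (Δ : ℝ) + 12) * dbd ≤ (6 * Δ + 12) * rg := by
      have h8r : (dbd : ℝ) ≤ rg := by exact_mod_cast h8
      have hΔ : (0 : ℝ) ≤ 6 * Δ + 12 := by positivity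
      exact mul_le_mul_of_nonneg_left h8r hΔ
    have e8 : (l : ℝ) ≤ nw := by exact_mod_cast h11
    have e9 : (cU : ℝ) ≤ cX := by exact_mod_cast h10
    set n := l + 3 + (cX - cU + 3) / 4 + q + 2 * J + 2 with hn
    have e10 : (n : ℝ) ≤ l + 5 + ((cX : ℝ) - cU + 3) / 4 + q + 2 * J := by
      have h10' : (((cX - cU + 3) / 4 : ℕ) : ℝ) ≤ ((cX : ℝ) - cU + 3) / 4 := by
        have := @Nat.cast_div_le ℝ _ _ _ (cX - cU + 3) 4
        rw [Nat.cast_add, Nat.cast_sub h10] at this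
        exact_mod_cast this
      rw [hn]
      push_cast
      linarith
    have e11 : ((n / M : ℕ) : ℝ) ≤ (n : ℝ) / M := Nat.cast_div_le
    have e12 : (n : ℝ) / M ≤ 3 * ((b : ℝ) / M) + (5 / 4 * C + 23 / 4 + 2 * J) := by
      have h12' : (b : ℝ) / en ≤ b := div_le_self hb0 henr
      have h13' : (n : ℝ) ≤ 3 * b + (5 / 4 * C + 23 / 4 + 2 * J) := by
        have ht1 : (0 : ℝ) ≤ t1 := Nat.cast_nonneg t1
        have hlam : (0 : ℝ) ≤ lam := Nat.cast_nonneg lam
        have heH : 0 ≤ e * H := mul_nonneg he.le hH0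
        have hrr : (0 : ℝ) ≤ (6 * (Δ : ℝ) + 12) * rg := by positivity
        linarith
      rw [div_le_iff₀ (by linarith)]
      have h14' : (3 * ((b : ℝ) / M) + (5 / 4 * C + 23 / 4 + 2 * J)) * M =
          3 * b + (5 / 4 * C + 23 / 4 + 2 * J) * M := by
        have h7' : (b : ℝ) / M * M = b := div_mul_cancel₀ _ (by linarith)
        linear_combination 3 * h7'
      rw [h14']
      nlinarith
    have hfin : (t1 : ℝ) + ((n : ℝ) + ((n / M : ℕ) : ℝ) + 1 + (C0 + 1) * (2 * J + 3)) +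
        (6 * Δ + 12) * (dbd + dr) + J + 2 + lam ≤ P := by
      have heH : 0 ≤ e * H := mul_nonneg he.le hH0
      have h15 : (6 * (Δ : ℝ) + 12) * (dbd + dr) = (6 * Δ + 12) * dbd + (6 * Δ + 12) * dr := by
        ring
      rw [h15]
      linarith
    exact_mod_cast hfin

end Pool.Agent.H58.FG
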