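import Pool.Agent.H58.FG.MStm
import Pool.Agent.H13.FG.Basic

/-!
# MP_4c8b8e_co, project FIRE: metric block, the cut of a ball
-/

set_option autoImplicit false

namespace Pool.Agent.H58.FG

open Classical Pool.Agent.H3.FF CV TV Pool.Agent.FM Pool.Agent.H13.FG

open Pool.Agent.H58.FF (Pt nbs dst nrm)

section

variable {K H L : ℕ} [NeZero K]

/-- a point far from the coarse vertices has at most six neighbours -/
private theorem m12_deg (g : Par K H L) {f : TV K H} (hf : Far 1 f) :
    (Finset.univ.filter fun f' : TV K H => Ad f f').card ≤ 6 := by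
  obtain ⟨p0, C, hC⟩ := chart_ex g f 1 hf
  have hsub : (Finset.univ.filter fun f' : TV K H => Ad f f') ⊆ (nbs p0).image C.φ := by
    intro f' hf'
    have h : Ad f f' := (Finset.mem_filter.1 hf').2
    rw [← hC] at h
    obtain ⟨q, hq, hq'⟩ := C.lift p0
      (by have := Pool.Agent.H3.FF.dst_self p0; push_cast; omega) f' h
    exact Finset.mem_image.2 ⟨q, hq, hq'⟩
  refine (Finset.card_le_card hsub).trans (Finset.card_image_le.trans ?_)
  rw [Pool.Agent.H58.FF.card_nbs]

/-- the first step of a walk -/
private theorem m12_first {r : ℕ} {f g : TV K H} (h : Nr (r + 1) f g) :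
    Nr r f g ∨ ∃ f', Ad f f' ∧ Nr r f' g := by
  obtain ⟨w, h1, h2, h3⟩ := h
  have h4 : Nr r (w 1) g := ⟨fun i => w (i + 1), fun i hi => h1 (i + 1) (by omega), rfl, h3⟩
  have h5 := h1 0 (by omega)
  rw [h2] at h5
  rcases h5 with h5 | h5
  · left
    rw [h5]
    exact h4
  · exact Or.inr ⟨w 1, h5, h4⟩

/-- adding the balls of some neighbours -/
private theorem m12_add (hS : SSlide) (g : Par K H L) {r : ℕ} {f : TV K H} (hf : Far (r + 3) f)
    (N : Finset (TV K H)) (hN : ∀ f' ∈ N, Ad f f') :
    cut (Finset.univ.filter (fun g => Nr r f g) ∪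
      N.biUnion fun f' => Finset.univ.filter (fun g => Nr r f' g)) ≤
      cut (Finset.univ.filter (fun g => Nr r f g)) + 4 * N.card := by
  induction N using Finset.induction_on with
  | empty => simp
  | insert a N ha ih =>
    have h1 := ih fun f' h => hN f' (Finset.mem_insert_of_mem h)
    have h2 := hS K H L g r f a hf (hN a (Finset.mem_insert_self a N))
      (Finset.univ.filter (fun g => Nr r f g) ∪
        N.biUnion fun f' => Finset.univ.filter (fun g => Nr r f' g))
      (fun g hg => Finset.mem_union_left _ (Finset.mem_filter.2 ⟨Finset.mem_univ g, hg⟩))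
    have h3 : Finset.univ.filter (fun g => Nr r f g) ∪
        (insert a N).biUnion (fun f' => Finset.univ.filter (fun g => Nr r f' g)) =
        Finset.univ.filter (fun g => Nr r f g) ∪
        (N.biUnion fun f' => Finset.univ.filter (fun g => Nr r f' g)) ∪
        Finset.univ.filter (fun g => Nr r a g) := by
      rw [Finset.biUnion_insert, Finset.union_comm (Finset.univ.filter (fun g => Nr r a g)),
        Finset.union_assoc]
    rw [h3, Finset.card_insert_of_notMem ha]
    omega

end

/-- the cut of a ball -/
theorem sballCut : SBallCut := by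
  intro hS K H L _ g r
  induction r with
  | zero =>
    intro f hf
    have h1 : Finset.univ.filter (fun g => Nr 0 f g) = {f} := by
      ext a
      rw [Finset.mem_filter, Finset.mem_singleton]
      constructor
      · rintro ⟨-, h⟩
        exact (nr_zero h).symm
      · rintro rfl
        exact ⟨Finset.mem_univ _, nr_refl 0 _⟩
    rw [h1]
    have h2 : cut ({f} : Finset (TV K H)) ≤ (Finset.univ.filter fun f' : TV K H => Ad f f').card := by
      unfold Pool.Agent.H13.FG.cut
      refine Finset.card_le_card_of_injOn Prod.snd ?_ ?_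
      · rintro ⟨a, b⟩ h
        obtain ⟨h3, h4⟩ := Finset.mem_filter.1 h
        have h5 := Finset.mem_singleton.1 (Finset.mem_product.1 h3).1
        refine Finset.mem_filter.2 ⟨Finset.mem_univ _, ?_⟩
        have h6 : a = f := h5
        rw [← h6]
        exact h4
      · rintro ⟨a, b⟩ h ⟨a', b'⟩ h' hb
        have h5 := Finset.mem_singleton.1 (Finset.mem_product.1 (Finset.mem_filter.1 h).1).1
        have h5' := Finset.mem_singleton.1 (Finset.mem_product.1 (Finset.mem_filter.1 h').1).1
        exact Prod.ext (h5.trans h5'.symm) hb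
    have h3 := m12_deg g (f := f) (fun c => by have := hf c; omega)
    omega
  | succ r ih =>
    intro f hf
    have hf4 : Far (r + 4) f := fun c => by have := hf c; omega
    have hf3 : Far (r + 3) f := fun c => by have := hf c; omega
    have hf1 : Far 1 f := fun c => by have := hf c; omega
    have h1 : Finset.univ.filter (fun g => Nr (r + 1) f g) =
        Finset.univ.filter (fun g => Nr r f g) ∪
        (Finset.univ.filter fun f' : TV K H => Ad f f').biUnion
          (fun f' => Finset.univ.filter (fun g => Nr r f' g)) := by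
      ext a
      rw [Finset.mem_union, Finset.mem_filter, Finset.mem_filter, Finset.mem_biUnion]
      constructor
      · rintro ⟨-, h⟩
        rcases m12_first h with h | ⟨f', h2, h3⟩
        · exact Or.inl ⟨Finset.mem_univ _, h⟩
        · exact Or.inr ⟨f', Finset.mem_filter.2 ⟨Finset.mem_univ _, h2⟩,
            Finset.mem_filter.2 ⟨Finset.mem_univ _, h3⟩⟩
      · rintro (⟨-, h⟩ | ⟨f', h2, h3⟩)
        · exact ⟨Finset.mem_univ _, nr_mono (Nat.le_succ r) h⟩
        · have h4 : Nr 1 f f' := nr_one (Or.inr (Finset.mem_filter.1 h2).2)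
          have h5 := nr_trans h4 (Finset.mem_filter.1 h3).2
          rw [Nat.add_comm] at h5
          exact ⟨Finset.mem_univ _, h5⟩
    have h2 := m12_add hS g hf3 (Finset.univ.filter fun f' : TV K H => Ad f f')
      (fun f' h => (Finset.mem_filter.1 h).2)
    have h3 := m12_deg g hf1
    have h4 := ih f hf4
    rw [h1]
    omega

end Pool.Agent.H58.FG
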