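import Pool.Agent.H58.FG.MStm

/-!
# MP_4c8b8e_co, project FIRE, row FIRE-M20: lower bound for balls
-/

set_option autoImplicit false

namespace Pool.Agent.H58.FG

open Classical Pool.Agent.H3.FF CV TV Pool.Agent.FM Pool.Agent.H13.FG

section

variable {K H : ℕ} [NeZero K]

/-- a point of the interval `[0, H]` at distance `a` from `x`, always on the same side -/
def shf (H r x a : ℕ) : ℕ := if x + r ≤ H then x + a else x - a

theorem shf_le {r x a : ℕ} (hx : x ≤ H) (ha : a ≤ r) : shf H r x a ≤ H := by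
  unfold shf
  split_ifs <;> omega

theorem shf_inj {r x a b : ℕ} (hr : 2 * r ≤ H) (ha : a ≤ r) (hb : b ≤ r)
    (h : shf H r x a = shf H r x b) : a = b := by
  unfold shf at h
  split_ifs at h <;> omega

theorem shf_zero {r x : ℕ} : shf H r x 0 = x := by
  unfold shf
  split_ifs <;> omega

theorem shf_succ {r x a : ℕ} (hr : 2 * r ≤ H) (ha : a + 1 ≤ r) :
    (shf H r x (a + 1) = shf H r x a + 1) ∨ (shf H r x a = shf H r x (a + 1) + 1) := by
  unfold shf
  split_ifs <;> omega

theorem walk_x (h : SSq) (hK : 4 ≤ K) (hH : 1 ≤ H) {r x y : ℕ} (hr : 2 * r ≤ H) (i : ZMod K)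
    (hx : x ≤ H) (hy : y ≤ H) (a : ℕ) (ha : a ≤ r) :
    ∃ w : (TL K H).Walk (sq i x y) (sq i (shf H r x a) y), w.length ≤ a := by
  obtain ⟨_, h1, _, _, _, _, _, _, h2, _⟩ := h K H hK hH
  induction a with
  | zero => rw [shf_zero]; exact ⟨SimpleGraph.Walk.nil, le_refl _⟩
  | succ a ih =>
    obtain ⟨w, hw⟩ := ih (by omega)
    have hA : (TL K H).Adj (sq i (shf H r x a) y) (sq i (shf H r x (a + 1)) y) := by
      have l1 := shf_le (H := H) (r := r) (a := a) hx (by omega)
      have l2 := shf_le (H := H) (r := r) (a := a + 1) hx ha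
      rcases shf_succ (x := x) hr ha with h3 | h3
      · rw [h3]; exact h1 i _ _ (by omega) hy
      · rw [h3]; exact (h2 _ _ (h1 i _ _ (by omega) hy)).1
    refine ⟨w.append (SimpleGraph.Walk.cons hA SimpleGraph.Walk.nil), ?_⟩
    rw [SimpleGraph.Walk.length_append]
    simp only [SimpleGraph.Walk.length_cons, SimpleGraph.Walk.length_nil]
    omega

theorem walk_y (h : SSq) (hK : 4 ≤ K) (hH : 1 ≤ H) {r x y : ℕ} (hr : 2 * r ≤ H) (i : ZMod K)
    (hx : x ≤ H) (hy : y ≤ H) (a : ℕ) (ha : a ≤ r) :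
    ∃ w : (TL K H).Walk (sq i x y) (sq i x (shf H r y a)), w.length ≤ a := by
  obtain ⟨_, _, h1, _, _, _, _, _, h2, _⟩ := h K H hK hH
  induction a with
  | zero => rw [shf_zero]; exact ⟨SimpleGraph.Walk.nil, le_refl _⟩
  | succ a ih =>
    obtain ⟨w, hw⟩ := ih (by omega)
    have hA : (TL K H).Adj (sq i x (shf H r y a)) (sq i x (shf H r y (a + 1))) := by
      have l1 := shf_le (H := H) (r := r) (a := a) hy (by omega)
      have l2 := shf_le (H := H) (r := r) (a := a + 1) hy ha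
      rcases shf_succ (x := y) hr ha with h3 | h3
      · rw [h3]; exact h1 i _ _ hx (by omega)
      · rw [h3]; exact (h2 _ _ (h1 i _ _ hx (by omega))).1
    refine ⟨w.append (SimpleGraph.Walk.cons hA SimpleGraph.Walk.nil), ?_⟩
    rw [SimpleGraph.Walk.length_append]
    simp only [SimpleGraph.Walk.length_cons, SimpleGraph.Walk.length_nil]
    omega

/-- the pairs with sum at most `r` -/
def tri2 (r : ℕ) : Finset ((_ : ℕ) × ℕ) := (Finset.range (r + 1)).sigma (fun a => Finset.range (r - a + 1))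

theorem card_tri2 (r : ℕ) : (r + 1) ^ 2 ≤ 2 * (tri2 r).card := by
  unfold tri2
  rw [Finset.card_sigma]
  simp only [Finset.card_range]
  have h1 : ∑ a ∈ Finset.range (r + 1), (r - a + 1) = ∑ a ∈ Finset.range (r + 1), (a + 1) := by
    rw [← Finset.sum_range_reflect (fun a => a + 1) (r + 1)]
    apply Finset.sum_congr rfl
    intro a ha
    simp only [Finset.mem_range] at ha
    omega
  rw [h1]
  have h2 : ∀ r : ℕ, (r + 1) ^ 2 ≤ 2 * ∑ a ∈ Finset.range (r + 1), (a + 1) := by
    intro r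
    induction r with
    | zero => simp
    | succ r ih =>
      rw [Finset.sum_range_succ, mul_add]
      nlinarith
  exact h2 r

theorem sballLow (h : Pool.Agent.H13.FG.SSq) : SBallLow := by
  intro K H L _ hp u r hr
  have hK : 4 ≤ K := hp.hK
  have hH : 1 ≤ H := hp.pos
  have hh := h K H hK hH
  obtain ⟨h0, _, _, _, _, _, h6, _⟩ := hh
  obtain ⟨i, x, y, hx, hy, rfl⟩ := h0 u
  have hinj : Set.InjOn (fun p : (_ : ℕ) × ℕ => (sq i (shf H r x p.1) (shf H r y p.2) : TV K H))
      (tri2 r : Set ((_ : ℕ) × ℕ)) := by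
    rintro ⟨a, b⟩ hab ⟨a', b'⟩ hab' he
    simp only [tri2, Finset.coe_sigma, Finset.coe_range, Set.mem_sigma_iff, Set.mem_Iio] at hab hab'
    dsimp only at he
    obtain ⟨e1, e2⟩ := h6 i _ _ _ _ (shf_le hx (by omega)) (shf_le hy (by omega))
      (shf_le hx (by omega)) (shf_le hy (by omega)) he
    have e3 := shf_inj hr (by omega) (by omega) e1
    have e4 := shf_inj hr (by omega) (by omega) e2
    subst e3
    subst e4
    rfl
  have hsub : (fun p : (_ : ℕ) × ℕ => (sq i (shf H r x p.1) (shf H r y p.2) : TV K H)) ''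
      (tri2 r : Set ((_ : ℕ) × ℕ)) ⊆ nbh (TL K H) {sq i x y} r := by
    rintro _ ⟨⟨a, b⟩, hab, rfl⟩
    simp only [tri2, Finset.coe_sigma, Finset.coe_range, Set.mem_sigma_iff, Set.mem_Iio] at hab
    obtain ⟨w1, hw1⟩ := walk_x h hK hH hr i hx hy a (by omega)
    obtain ⟨w2, hw2⟩ := walk_y h hK hH hr i (shf_le (r := r) (a := a) hx (by omega)) hy b (by omega)
    refine ⟨_, rfl, w1.append w2, ?_⟩
    rw [SimpleGraph.Walk.length_append]
    omega
  calc (r + 1) ^ 2 ≤ 2 * (tri2 r).card := card_tri2 r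
    _ = 2 * ((fun p : (_ : ℕ) × ℕ => (sq i (shf H r x p.1) (shf H r y p.2) : TV K H)) ''
      (tri2 r : Set ((_ : ℕ) × ℕ))).ncard := by
        rw [hinj.ncard_image, Set.ncard_coe_finset]
    _ ≤ 2 * (nbh (TL K H) {sq i x y} r).ncard :=
        Nat.mul_le_mul_left _ (Set.ncard_le_ncard hsub (Set.toFinite _))

end

end Pool.Agent.H58.FG
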