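import Pool.Agent.H58.FG.MStm
import Pool.Agent.H3.FF.Rhomb

/-!
# MP_4c8b8e_co, project FIRE: metric block, charts that respect the streets
-/

set_option autoImplicit false

namespace Pool.Agent.H58.FG

open Classical Pool.Agent.H3.FF CV TV Pool.Agent.FM Pool.Agent.H13.FG

open Pool.Agent.H58.FF (Pt nbs dst nrm)

section

variable {K H L : ℕ} [NeZero K]

theorem stp_symm' {f g : TV K H} {c d : CV K} (h : Stp f g c d) : Stp g f d c :=
  ⟨h.2.1, h.1, fun e h1 h2 => (h.2.2 e h2 h1).symm⟩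

theorem un_symm' {f g : TV K H} (h : Un L f g) : Un L g f := by
  rcases h with ⟨h1, h2, h3⟩ | ⟨b, i, k, ⟨s1, s2, hk, c, d, hc, hd, hck, hdk, s⟩, h2⟩
  · exact Or.inl ⟨h1.symm, h3, h2⟩
  · refine Or.inr ⟨b, i, k, ⟨s2, s1, hk, d, c, hd, hc, hdk, hck, stp_symm' s⟩, ?_⟩
    rwa [← s.2.2 k hck.symm hdk.symm]

theorem str_symm {p q : Pt} (h : Str L p q) : Str L q p := by
  rcases h with ⟨h1, h2⟩ | ⟨h1, h2⟩ | ⟨h1, h2⟩
  · exact Or.inl ⟨h1.symm, h1 ▸ h2⟩
  · exact Or.inr (Or.inl ⟨h1.symm, h1 ▸ h2⟩)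
  · exact Or.inr (Or.inr ⟨h1.symm, h1 ▸ h2⟩)

theorem rh_un1 (r : Rh K) {p q : Pt} (hp : Rh.Reg H p) (hq : Rh.Reg H q) (h : 0 ≤ p.2)
    (h' : 0 ≤ q.2) {c d k : CV K} (hc : fc r.b r.i c) (hd : fc r.b r.i d) (hk : fc r.b r.i k)
    (hck : c ≠ k) (hdk : d ≠ k) (hs : Stp (r.pnt H p hp) (r.pnt H q hq) c d)
    (hL : (L : ℤ) ∣ r.co H p k) : Un L (r.pnt H p hp) (r.pnt H q hq) := by
  refine Or.inr ⟨r.b, r.i, k, ⟨r.pnt_sp H hp h, r.pnt_sp H hq h', hk, c, d, hc, hd, hck, hdk,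
    hs⟩, ?_⟩
  rw [← r.pnt_co H hp] at hL
  exact_mod_cast hL

theorem rh_un2 (r : Rh K) {p q : Pt} (hp : Rh.Reg H p) (hq : Rh.Reg H q) (h : p.2 ≤ 0)
    (h' : q.2 ≤ 0) {c d k : CV K} (hc : fc r.b' r.i' c) (hd : fc r.b' r.i' d)
    (hk : fc r.b' r.i' k) (hck : c ≠ k) (hdk : d ≠ k)
    (hs : Stp (r.pnt H p hp) (r.pnt H q hq) c d) (hL : (L : ℤ) ∣ r.co H p k) :
    Un L (r.pnt H p hp) (r.pnt H q hq) := by
  refine Or.inr ⟨r.b', r.i', k, ⟨r.pnt_sp' H hp h, r.pnt_sp' H hq h', hk, c, d, hc, hd, hck,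
    hdk, hs⟩, ?_⟩
  rw [← r.pnt_co H hp] at hL
  exact_mod_cast hL

/-- steps on streets, three directions -/
theorem rh_un3 (g : Par K H L) (r : Rh K) {p q : Pt} (hp : Rh.Reg H p) (hq : Rh.Reg H q)
    (h : q = (p.1 + 1, p.2) ∨ q = (p.1, p.2 + 1) ∨ q = (p.1 - 1, p.2 + 1)) (hs : Str L p q) :
    Un L (r.pnt H p hp) (r.pnt H q hq) := by
  have hH : (L : ℤ) ∣ (H : ℤ) := by exact_mod_cast g.lh
  unfold Str at hs
  rcases h with rfl | rfl | rfl
  · have hL : (L : ℤ) ∣ p.2 := by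
      rcases hs with h | h | h
      · exact h.2
      · exact absurd h.1 (by dsimp only; omega)
      · exact absurd h.1 (by dsimp only; omega)
    rcases le_total 0 p.2 with h | h
    · refine rh_un1 r hp hq h h r.hu r.hv r.hk r.uk r.vk (r.step_uv H hp hq) ?_
      rw [r.co_k, max_eq_left h]
      exact hL
    · refine rh_un2 r hp hq h h r.hu' r.hv' r.hk' r.uk' r.vk' (r.step_uv H hp hq) ?_
      rw [r.co_k', max_eq_left (by omega)]
      exact (dvd_neg).2 hL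
  · have hL : (L : ℤ) ∣ p.1 := by
      rcases hs with h | h | h
      · exact absurd h.1 (by dsimp only; omega)
      · exact h.2
      · exact absurd h.1 (by dsimp only; omega)
    by_cases h : 0 ≤ p.2
    · refine rh_un1 r hp hq h (by dsimp only; omega) r.hu r.hk r.hv r.uv r.vk.symm
        (r.step_uk H hp hq h) ?_
      rw [r.co_v, min_eq_right h, add_zero]
      exact hL
    · refine rh_un2 r hp hq (by omega) (by dsimp only; omega) r.hk' r.hv' r.hu' r.uk'.symm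
        r.uv.symm (r.step_kv' H hp hq (by omega)) ?_
      rw [r.co_u, max_eq_right (by omega), sub_zero]
      exact dvd_sub hH hL
  · have hL : (L : ℤ) ∣ p.1 + p.2 := by
      rcases hs with h | h | h
      · exact absurd h.1 (by dsimp only; omega)
      · exact absurd h.1 (by dsimp only; omega)
      · exact h.2
    by_cases h : 0 ≤ p.2
    · refine rh_un1 r hp hq h (by dsimp only; omega) r.hv r.hk r.hu r.uv.symm r.uk.symm
        (r.step_vk H hp hq h) ?_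
      rw [r.co_u, max_eq_left h, sub_sub]
      exact dvd_sub hH hL
    · refine rh_un2 r hp hq (by omega) (by dsimp only; omega) r.hk' r.hu' r.hv' r.vk'.symm
        r.uv (r.step_ku' H hp hq (by omega)) ?_
      rw [r.co_v, min_eq_left (by omega)]
      exact hL

theorem rh_un (g : Par K H L) (r : Rh K) {p q : Pt} (hp : Rh.Reg H p) (hq : Rh.Reg H q)
    (h : q ∈ nbs p) (hs : Str L p q) : Un L (r.pnt H p hp) (r.pnt H q hq) := by
  obtain ⟨p1, p2⟩ := p
  simp only [nbs, Finset.mem_insert, Finset.mem_singleton] at h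
  rcases h with rfl | rfl | rfl | rfl | rfl | rfl
  · exact rh_un3 g r hp hq (Or.inl rfl) hs
  · exact rh_un3 g r hp hq (Or.inr (Or.inl rfl)) hs
  · exact rh_un3 g r hp hq (Or.inr (Or.inr rfl)) hs
  · exact un_symm' (rh_un3 g r hq hp (Or.inl (by simp)) (str_symm hs))
  · exact un_symm' (rh_un3 g r hq hp (Or.inr (Or.inl (by simp))) (str_symm hs))
  · exact un_symm' (rh_un3 g r hq hp (Or.inr (Or.inr (by simp))) (str_symm hs))

theorem chs_rhomb (g : Par K H L) (r : Rh K) (p0 : Pt) (R : ℕ)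
    (hR : ∀ p, dst p p0 ≤ R → Rh.Reg H p) (f : TV K H) : ChS L (r.chart g p0 R hR f) := by
  intro p q hp hq h hs
  have e1 : (r.chart g p0 R hR f).φ p = r.pnt H p (hR p hp) := by
    show (if hp : Rh.Reg H p then r.pnt H p hp else f) = _
    rw [dif_pos (hR p hp)]
  have e2 : (r.chart g p0 R hR f).φ q = r.pnt H q (hR q hq) := by
    show (if hp : Rh.Reg H q then r.pnt H q hp else f) = _
    rw [dif_pos (hR q hq)]
  rw [e1, e2]
  exact rh_un g r _ _ h hs

/-- charts exist at a distance from the boundary of a rhombus -/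
theorem schart' (g : Par K H L) (f : TV K H) (R : ℕ) {b : Bool} {i : ZMod K}
    {k : CV K} (hs : Sp b i f.1) (hk : fc b i k) (hf : ∀ e, fc b i e → e ≠ k → R ≤ f.1 e) :
    ∃ (p0 : Pt) (C : Chart K H p0 R), C.φ p0 = f ∧ ChS L C := by
  obtain ⟨r, rfl, rfl, rfl⟩ := rh_ex g.hK g.ev hk
  have hsum := sum_H g f hs r.hu r.hv r.hk r.uv r.uk r.vk
  have h1 := hf _ r.hu r.uk
  have h2 := hf _ r.hv r.vk
  have hR : ∀ p, dst p ((f.1 r.v : ℤ), (f.1 r.k : ℤ)) ≤ R → Rh.Reg H p := by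
    intro p hp
    rw [Pool.Agent.H58.FF.ar_dst] at hp
    dsimp only at hp
    unfold Rh.Reg
    omega
  refine ⟨((f.1 r.v : ℤ), (f.1 r.k : ℤ)), r.chart g _ R hR f, ?_, chs_rhomb g r _ R hR f⟩
  have hp0 : Rh.Reg H ((f.1 r.v : ℤ), (f.1 r.k : ℤ)) := by
    unfold Rh.Reg
    dsimp only
    omega
  show (if hp : Rh.Reg H ((f.1 r.v : ℤ), (f.1 r.k : ℤ)) then r.pnt H _ hp else f) = f
  rw [dif_pos hp0]
  apply tv_ext
  intro e
  rw [r.pnt_co]
  by_cases h5 : fc r.b r.i e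
  · rcases fc_three r.hu r.hv r.hk r.uv r.uk r.vk h5 with rfl | rfl | rfl
    · rw [Rh.co_u]
      dsimp only
      omega
    · rw [Rh.co_v]
      dsimp only
      omega
    · rw [Rh.co_k]
      dsimp only
      omega
  · rw [hs e h5, r.co_sp H (by dsimp only; omega) e h5]
    rfl

end

/-- FIRE-M7 -/
theorem schart : SChart := by
  intro K H L _ g f R hf
  obtain ⟨b, i, hs⟩ := f.2.2
  obtain ⟨k, hk, hmin⟩ := min_coord f.1 b i
  refine schart' g f R hs hk fun e he hek => ?_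
  obtain ⟨d, hd, hed, hkd⟩ := fc_third g.hK he hk hek
  have h1 := sum_H g f hs he hk hd hek hed hkd
  have h2 := hf d
  have h3 := hmin e he
  omega

end Pool.Agent.H58.FG
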