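import Pool.Agent.H58.FG.TStm

/-!
# MP_4c8b8e_co, project FIRE: the family of the unreached chambers
-/

set_option autoImplicit false

namespace Pool.Agent.H58.FG

open Classical Pool.Agent.H3.FF CV TV Pool.Agent.FM Pool.Agent.H13.FG

theorem jn_refl {V : Type} (T : SimpleGraph V) (A : Set V) {a : V} (h : a ∈ A) : FM.Jn T A a a :=
  ⟨SimpleGraph.Walk.nil, by
    intro z hz
    rw [SimpleGraph.Walk.support_nil, List.mem_singleton] at hz
    rw [hz]; exact h⟩

theorem jn_symm {V : Type} (T : SimpleGraph V) (A : Set V) {a b : V} (h : FM.Jn T A a b) :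
    FM.Jn T A b a := by
  obtain ⟨w, hw⟩ := h
  refine ⟨w.reverse, ?_⟩
  intro z hz
  rw [SimpleGraph.Walk.support_reverse, List.mem_reverse] at hz
  exact hw z hz

theorem jn_trans {V : Type} (T : SimpleGraph V) (A : Set V) {a b c : V} (h : FM.Jn T A a b)
    (h' : FM.Jn T A b c) : FM.Jn T A a c := by
  obtain ⟨w, hw⟩ := h
  obtain ⟨w', hw'⟩ := h'
  refine ⟨w.append w', ?_⟩
  intro z hz
  rw [SimpleGraph.Walk.mem_support_append_iff] at hz
  rcases hz with hz | hz
  · exact hw z hz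
  · exact hw' z hz

theorem jn_right {V : Type} (T : SimpleGraph V) (A : Set V) {a b : V} (h : FM.Jn T A a b) :
    b ∈ A := by
  obtain ⟨w, hw⟩ := h
  exact hw b w.end_mem_support

theorem jn_adj {V : Type} (T : SimpleGraph V) (A : Set V) {a b : V} (ha : a ∈ A) (hb : b ∈ A)
    (h : T.Adj a b) : FM.Jn T A a b := by
  refine ⟨h.toWalk, ?_⟩
  intro z hz
  simp only [SimpleGraph.Walk.support_cons, SimpleGraph.Walk.support_nil, List.mem_cons,
    List.not_mem_nil, or_false] at hz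
  rcases hz with hz | hz
  · rw [hz]; exact ha
  · rw [hz]; exact hb

theorem schm : SChm := by
  intro K H _ X C hCX hCc
  set A : Set (TV K H) := {f | f ∉ X ∧ f ∉ C} with hA
  let cm : TV K H → Finset (TV K H) := fun f => Finset.univ.filter fun g => FM.Jn (TL K H) A f g
  have hcm : ∀ f g, g ∈ cm f ↔ FM.Jn (TL K H) A f g := by
    intro f g
    simp [cm]
  have hcmA : ∀ f g, g ∈ cm f → g ∈ A := fun f g h => jn_right _ _ ((hcm f g).1 h)
  have hcmE : ∀ f g, FM.Jn (TL K H) A f g → cm f = cm g := by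
    intro f g h
    ext z
    rw [hcm, hcm]
    exact ⟨fun h' => jn_trans _ _ (jn_symm _ _ h) h', fun h' => jn_trans _ _ h h'⟩
  let B : Finset (Finset (TV K H)) := (Finset.univ.filter fun f => f ∈ A).image cm
  have hB : ∀ S, S ∈ B ↔ ∃ a, a ∈ A ∧ cm a = S := by
    intro S
    simp [B]
  have hun : ∀ f, f ∈ un B ↔ f ∉ X ∧ f ∉ C := by
    intro f
    unfold un
    rw [Finset.mem_biUnion]
    constructor
    · rintro ⟨S, hS, hf⟩
      obtain ⟨a, _, rfl⟩ := (hB S).1 hS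
      exact hcmA a f hf
    · intro hf
      exact ⟨cm f, (hB _).2 ⟨f, hf, rfl⟩, (hcm f f).2 (jn_refl _ _ hf)⟩
  have hout : ∀ f g, f ∈ A → g ∉ A → Ad f g → g ∈ X := by
    intro f g hf hg hfg
    by_contra hgX
    have hgC : g ∈ C := by
      by_contra hgC
      exact hg ⟨hgX, hgC⟩
    exact hf.2 (hCc g hgC f hf.1 (TV.Ad.symm hfg))
  refine ⟨B, ?_, hun, ?_, ?_, ?_⟩
  · intro S hS T hT f hf g hg hfg
    obtain ⟨a, _, rfl⟩ := (hB S).1 hS
    obtain ⟨b, _, rfl⟩ := (hB T).1 hT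
    have h1 := (hcm a f).1 hf
    have h2 := (hcm b g).1 hg
    have h3 : FM.Jn (TL K H) A f g := by
      rcases hfg with h | h
      · rw [← h]; exact jn_refl _ _ (jn_right _ _ h1)
      · exact jn_adj _ _ (jn_right _ _ h1) (jn_right _ _ h2) h
    exact hcmE a b (jn_trans _ _ (jn_trans _ _ h1 h3) (jn_symm _ _ h2))
  · unfold Pool.Agent.H13.FG.cut Pool.Agent.FM.cut
    have e : {e : TV K H × TV K H // e.1 ∈ X ∧ e.2 ∈ (X ∪ C)ᶜ ∧ (TL K H).Adj e.1 e.2} ≃
        {p : TV K H × TV K H // p ∈ ((un B ×ˢ (un B)ᶜ).filter (fun p => Ad p.1 p.2))} := by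
      refine Equiv.subtypeEquiv (Equiv.prodComm _ _) ?_
      rintro ⟨g, f⟩
      simp only [Equiv.prodComm_apply, Prod.swap_prod_mk, Finset.mem_filter, Finset.mem_product,
        Finset.mem_compl, hun, Set.mem_compl_iff, Set.mem_union, not_or, TL]
      constructor
      · rintro ⟨hg, hf, hfg⟩
        exact ⟨⟨hf, fun h => h.1 hg⟩, TV.Ad.symm hfg⟩
      · rintro ⟨⟨hf, hg⟩, hfg⟩
        exact ⟨hout f g hf hg hfg, hf, TV.Ad.symm hfg⟩
    rw [Nat.card_congr e, Nat.card_eq_fintype_card, Fintype.card_coe]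
  · intro S hS f hf g hg
    obtain ⟨a, _, rfl⟩ := (hB S).1 hS
    obtain ⟨w, hw⟩ := jn_trans _ _ (jn_symm _ _ ((hcm a f).1 hf)) ((hcm a g).1 hg)
    exact ⟨w, fun z hz => (hw z hz).2⟩
  · intro S hS f hf g hg hfg
    obtain ⟨a, _, rfl⟩ := (hB S).1 hS
    have h1 := (hcm a f).1 hf
    have hfA := jn_right _ _ h1
    apply hout f g hfA ?_ hfg
    intro hgA
    exact hg ((hcm a g).2 (jn_trans _ _ h1 (jn_adj _ _ hfA hgA hfg)))

end Pool.Agent.H58.FG
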