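import Pool.Agent.H58.FG.MStm

/-!
# MP_4c8b8e_co, project FIRE: the lattice is connected, degrees, number of coarse vertices
(FIRE-M4)
-/

set_option autoImplicit false

namespace Pool.Agent.H58.FG

open Classical Pool.Agent.H3.FF CV TV Pool.Agent.FM Pool.Agent.H13.FG

open Pool.Agent.H58.FF (Pt nbs dst nrm card_nbs)

section

variable {K H L : ℕ} [NeZero K]

private theorem m4_eq_tri (g : Par K H L) (f : TV K H) {b : Bool} {i : ZMod K} (h : Sp b i f.1) :
    ∃ hh, f = tri g b i (f.1 (A i)) (f.1 (A (i + 1))) hh := by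
  have hne : (P b : CV K) ≠ A i := by cases b <;> simp [P]
  have hne' : (P b : CV K) ≠ A (i + 1) := by cases b <;> simp [P]
  have hne2 : (A i : CV K) ≠ A (i + 1) := fun h => succ_ne g.hK i (by injection h)
  have h1 := sum_H g f h (fc_A b i) (fc_A' b i) (fc_P b i) hne2 hne.symm hne'.symm
  refine ⟨by omega, ?_⟩
  exact tv_det g h (tri_sp g b i _ _ _) (fc_A b i) (fc_A' b i) hne2 (tri_A g b i _ _ _).symm
    (tri_A' g b i _ _ _).symm

private theorem m4_ad1 (g : Par K H L) (b : Bool) (i : ZMod K) (p q : ℕ) (h : p + 1 + q ≤ H)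
    (h' : p + q ≤ H) : Ad (tri g b i (p + 1) q h) (tri g b i p q h') := by
  have hne : (P b : CV K) ≠ A i := by cases b <;> simp [P]
  have hne' : (P b : CV K) ≠ A (i + 1) := by cases b <;> simp [P]
  have hne2 : (A i : CV K) ≠ A (i + 1) := fun h => succ_ne g.hK i (by injection h)
  refine ⟨b, i, A (i + 1), tri_sp g b i _ _ _, tri_sp g b i _ _ _, fc_A' b i, A i, P b,
    fc_A b i, fc_P b i, hne2, hne', ?_, ?_, ?_⟩
  · rw [tri_A, tri_A]
  · rw [tri_P, tri_P]
    omega
  · intro e h1 h2
    by_cases h3 : e = A (i + 1)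
    · rw [h3, tri_A', tri_A']
    · have h4 : ¬ fc b i e := by
        rintro (h5 | h5 | h5)
        · exact h2 h5
        · exact h1 h5
        · exact h3 h5
      rw [tri_sp g b i _ _ _ e h4, tri_sp g b i _ _ _ e h4]

private theorem m4_ad2 (g : Par K H L) (b : Bool) (i : ZMod K) (p q : ℕ) (h : p + (q + 1) ≤ H)
    (h' : p + q ≤ H) : Ad (tri g b i p (q + 1) h) (tri g b i p q h') := by
  have hne : (P b : CV K) ≠ A i := by cases b <;> simp [P]
  have hne' : (P b : CV K) ≠ A (i + 1) := by cases b <;> simp [P]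
  have hne2 : (A i : CV K) ≠ A (i + 1) := fun h => succ_ne g.hK i (by injection h)
  refine ⟨b, i, A i, tri_sp g b i _ _ _, tri_sp g b i _ _ _, fc_A b i, A (i + 1), P b,
    fc_A' b i, fc_P b i, hne2.symm, hne, ?_, ?_, ?_⟩
  · rw [tri_A', tri_A']
  · rw [tri_P, tri_P]
    omega
  · intro e h1 h2
    by_cases h3 : e = A i
    · rw [h3, tri_A, tri_A]
    · have h4 : ¬ fc b i e := by
        rintro (h5 | h5 | h5)
        · exact h2 h5
        · exact h3 h5
        · exact h1 h5
      rw [tri_sp g b i _ _ _ e h4, tri_sp g b i _ _ _ e h4]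

private theorem m4_reach (g : Par K H L) (b : Bool) (i : ZMod K) :
    ∀ (p q : ℕ) (h : p + q ≤ H),
      (TL K H).Reachable (tri g b i p q h) (tri g b i 0 0 (Nat.zero_le _)) := by
  intro p
  induction p with
  | zero =>
    intro q
    induction q with
    | zero => intro h; exact SimpleGraph.Reachable.refl _
    | succ q ih =>
      intro h
      have h1 : (TL K H).Adj (tri g b i 0 (q + 1) h) (tri g b i 0 q (by omega)) :=
        m4_ad2 g b i 0 q h (by omega)
      exact h1.reachable.trans (ih (by omega))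
  | succ p ih =>
    intro q h
    have h1 : (TL K H).Adj (tri g b i (p + 1) q h) (tri g b i p q (by omega)) :=
      m4_ad1 g b i p q h (by omega)
    exact h1.reachable.trans (ih q (by omega))

private theorem m4_apex (g : Par K H L) (b : Bool) (i j : ZMod K) :
    tri g b i 0 0 (Nat.zero_le _) = tri g b j 0 0 (Nat.zero_le _) := by
  have key : ∀ (i : ZMod K) (e : CV K), (tri g b i 0 0 (Nat.zero_le _)).1 e =
      if e = P b then H else 0 := by
    intro i e
    have hne : (P b : CV K) ≠ A i := by cases b <;> simp [P]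
    have hne' : (P b : CV K) ≠ A (i + 1) := by cases b <;> simp [P]
    show (if e = A i then 0 else if e = A (i + 1) then 0 else if e = P b then H - 0 - 0 else 0) = _
    by_cases h1 : e = A i
    · rw [if_pos h1, if_neg (fun h => hne (h.symm.trans h1))]
    · by_cases h2 : e = A (i + 1)
      · rw [if_neg h1, if_pos h2, if_neg (fun h => hne' (h.symm.trans h2))]
      · rw [if_neg h1, if_neg h2]
        rfl
  apply Subtype.ext
  funext e
  rw [key i e, key j e]

private theorem m4_rim (g : Par K H L) (i : ZMod K) :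
    tri g false i H 0 (by omega) = tri g true i H 0 (by omega) := by
  apply Subtype.ext
  funext e
  have key : ∀ (b : Bool), (tri g b i H 0 (by omega)).1 e = if e = A i then H else 0 := by
    intro b
    show (if e = A i then H else if e = A (i + 1) then 0 else if e = P b then H - H - 0 else 0) = _
    by_cases h1 : e = A i
    · rw [if_pos h1, if_pos h1]
    · rw [if_neg h1, if_neg h1, Nat.sub_self]
      split_ifs <;> rfl
  rw [key, key]

private theorem m4_conn (g : Par K H L) : (TL K H).Preconnected := by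
  have h0 : ∀ f : TV K H, (TL K H).Reachable f (tri g true 0 0 0 (Nat.zero_le _)) := by
    intro f
    obtain ⟨b, i, hs⟩ := f.2.2
    obtain ⟨hh, hf⟩ := m4_eq_tri g f hs
    have h1 := m4_reach g b i _ _ hh
    rw [← hf] at h1
    refine h1.trans ?_
    cases b
    · have h2 := m4_reach g false i H 0 (by omega)
      have h3 := m4_reach g true i H 0 (by omega)
      rw [m4_rim] at h2
      rw [m4_apex g true 0 i]
      exact h2.symm.trans h3
    · rw [m4_apex g true 0 i]
  intro f f'
  exact (h0 f).trans (h0 f').symm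

private theorem m4_card : (Finset.univ : Finset (CV K)).card = K + 2 := by
  rw [Finset.card_univ, Fintype.card_congr (CV.equiv (K := K)), Fintype.card_sum,
    Fintype.card_bool, ZMod.card, add_comm]

private theorem m4_det {f f' : TV K H} {c : CV K} (h : f.1 c = H) (h' : f'.1 c = H) :
    f = f' := by
  have key : ∀ f : TV K H, f.1 c = H → ∀ e, e ≠ c → f.1 e = 0 := by
    intro f hf e he
    have h1 := f.2.1
    rw [← Finset.add_sum_erase _ _ (Finset.mem_univ c), hf] at h1
    have h2 : ∑ x ∈ Finset.univ.erase c, f.1 x = 0 := by omega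
    exact (Finset.sum_eq_zero_iff.1 h2) e (Finset.mem_erase.2 ⟨he, Finset.mem_univ e⟩)
  apply Subtype.ext
  funext e
  by_cases he : e = c
  · rw [he, h, h']
  · rw [key f h e he, key f' h' e he]

private theorem m4_zc : (Zc K H).ncard ≤ K + 2 := by
  have h1 : Zc K H = {x | ∃ c ∈ (Finset.univ : Finset (CV K)), x ∈ {f : TV K H | f.1 c = H}} := by
    ext x
    simp only [Zc, Set.mem_setOf_eq, Finset.mem_univ, true_and]
  rw [h1]
  refine (ncard_bUnion_le Finset.univ (fun c => {f : TV K H | f.1 c = H}) 1 ?_).trans ?_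
  · intro c _
    rw [Set.ncard_le_one_iff (Set.toFinite _)]
    intro a b ha hb
    exact m4_det ha hb
  · rw [m4_card, mul_one]

private theorem m4_deg (g : Par K H L) (z : TV K H) :
    ((TL K H).neighborSet z).ncard ≤ K + 6 := by
  have h0 : (TL K H).neighborSet z = {z' | Ad z z'} := rfl
  rw [h0]
  obtain ⟨b, i, hs⟩ := z.2.2
  obtain ⟨k, hk, hmin⟩ := min_coord z.1 b i
  by_cases hcase : ∀ e, fc b i e → e ≠ k → 1 ≤ z.1 e
  · obtain ⟨p0, C, hC⟩ := chart_ex' g z 1 hs hk hcase
    have hsub : {z' | Ad z z'} ⊆ C.φ '' (nbs p0 : Set Pt) := by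
      intro f' hf'
      obtain ⟨q, hq, h2⟩ := C.lift p0 (by have := dst_self p0; push_cast; omega) f'
        (by rw [hC]; exact hf')
      exact ⟨q, hq, h2⟩
    have h6 := (Set.ncard_le_ncard hsub (Set.toFinite _)).trans
      (Set.ncard_image_le (Set.toFinite _))
    rw [Set.ncard_coe_finset, card_nbs] at h6
    omega
  · push Not at hcase
    obtain ⟨e, he, hek, he0⟩ := hcase
    have hmin0 := hmin e he
    obtain ⟨d, hd, hed, hkd⟩ := fc_third g.hK he hk hek
    have h1 := sum_H g z hs he hk hd hek hed hkd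
    have h4 : z.1 d = H := by omega
    have hsub : {z' | Ad z z'} ⊆
        {x | ∃ c ∈ (Finset.univ : Finset (CV K)), x ∈ {f : TV K H | Stp z f d c}} := by
      intro f hf
      obtain ⟨c, c', hst⟩ := TV.Ad.stp hf
      have hcd : c = d := by
        by_contra hne
        have h5 : z.1 c = f.1 c + 1 := hst.1
        have h6 := z.2.1
        rw [← Finset.add_sum_erase _ _ (Finset.mem_univ d), h4] at h6
        have h7 : ∑ x ∈ Finset.univ.erase d, z.1 x = 0 := by omega
        have h8 := (Finset.sum_eq_zero_iff.1 h7) c (Finset.mem_erase.2 ⟨hne, Finset.mem_univ c⟩)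
        omega
      subst hcd
      exact ⟨c', Finset.mem_univ _, hst⟩
    have h5 := (Set.ncard_le_ncard hsub (Set.toFinite _)).trans
      (ncard_bUnion_le Finset.univ (fun c => {f : TV K H | Stp z f d c}) 1 (by
        intro c _
        rw [Set.ncard_le_one_iff (Set.toFinite _)]
        intro a b ha hb
        exact Rh.stp_eq H ha hb))
    rw [m4_card] at h5
    omega

/-- FIRE-M4: the lattice is connected, degrees, number of coarse vertices -/
theorem sdeg : SDeg := by
  intro K H L _ g
  exact ⟨m4_conn g, m4_deg g, m4_zc, tri g true 0 0 0 (Nat.zero_le _), P true, by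
    rw [tri_P]
    omega⟩

end

end Pool.Agent.H58.FG
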