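import Pool.Agent.H58.FG.TStm

/-!
# MP_4c8b8e_co, project FIRE: dust near a set
-/

set_option autoImplicit false

namespace Pool.Agent.H58.FG

open Classical Pool.Agent.H3.FF CV TV Pool.Agent.FM Pool.Agent.H13.FG

/-- a walk gives a nearness with pauses, read backwards -/
theorem dst_nr {K H : ℕ} [NeZero K] {a b : TV K H} (w : (TL K H).Walk a b) (n : ℕ)
    (h : w.length ≤ n) : Nr n b a := by
  refine ⟨w.reverse.getVert, ?_, by simp, ?_⟩
  · intro i _
    by_cases hi : i < w.reverse.length
    · exact Or.inr (w.reverse.adj_getVert_succ hi)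
    · push Not at hi
      left
      rw [w.reverse.getVert_of_length_le hi, w.reverse.getVert_of_length_le (by omega)]
  · exact w.reverse.getVert_of_length_le (by simpa using h)

/-- components with a common point agree -/
theorem dst_sub {V : Type} {T : SimpleGraph V} {A c c' : Set V} (h : Co T A c)
    (h' : Co T A c') {y : V} (hy : y ∈ c) (hy' : y ∈ c') : c ⊆ c' := by
  intro z hz
  obtain ⟨w, hw⟩ := h.1.2 y hy z hz
  have key : ∀ {a b : V} (w : T.Walk a b), a ∈ c' → (∀ z ∈ w.support, z ∈ A) → b ∈ c' := by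
    intro a b w
    induction w with
    | nil => intro ha _; exact ha
    | cons hadj p ih =>
      intro ha hs
      exact ih (h'.2.2 _ ha _ (hs _ (by simp)) hadj) (fun z hz => hs z (by simp [hz]))
  exact key w hy' (fun z hz => h.2.1 (hw z hz))

theorem sdst : SDst := by
  intro K H _ bl m0 r D A Z hZ
  set Z' := Z.filter (fun z => z ∈ nb D A) with hZ'
  set f : TV K H → Set (TV K H) := fun y => {z | ∃ d, (Fl bl m0 r).dus d ∧ z ∈ d ∧ y ∈ d}
    with hf
  have h1 : ∀ y, (f y).ncard ≤ m0 := by
    intro y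
    by_cases h : ∃ d, (Fl bl m0 r).dus d ∧ y ∈ d
    · obtain ⟨d, hd, hy⟩ := h
      have h2 : f y ⊆ d := by
        rintro z ⟨d', hd', hz, hy'⟩
        exact dst_sub hd'.1 hd.1 hy' hy hz
      exact (Set.ncard_le_ncard h2 (Set.toFinite d)).trans hd.2
    · have h2 : f y = ∅ := by
        ext z
        simp only [Set.mem_empty_iff_false, iff_false]
        rintro ⟨d, hd, _, hy⟩
        exact h ⟨d, hd, hy⟩
      rw [h2]
      simp
  have h2 : FM.dst (Fl bl m0 r) D A ⊆ ((Z'.biUnion fun y => (f y).toFinset : Finset _) : Set _) := by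
    rintro z ⟨d, hd, hz, y, hy, a, ha, w, hw⟩
    simp only [Finset.coe_biUnion, Set.coe_toFinset, Set.mem_iUnion]
    refine ⟨y, ?_, d, hd, hz, hy⟩
    rw [hZ']
    simp only [Finset.coe_filter, Set.mem_ofPred_eq]
    exact ⟨hZ y (hd.1.2.1 hy), a, ha, dst_nr w D hw⟩
  calc (FM.dst (Fl bl m0 r) D A).ncard
      ≤ (((Z'.biUnion fun y => (f y).toFinset : Finset _) : Set (TV K H))).ncard :=
        Set.ncard_le_ncard h2 (Set.toFinite _)
    _ = (Z'.biUnion fun y => (f y).toFinset).card := Set.ncard_coe_finset _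
    _ ≤ Z'.card * m0 := Finset.card_biUnion_le_card_mul _ _ _ (fun y _ => by
        rw [← Set.ncard_eq_toFinset_card']
        exact h1 y)
    _ = m0 * dust Z D A := by rw [mul_comm]; rfl

end Pool.Agent.H58.FG
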