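import Pool.Agent.H58.FG.MStm
import Pool.Agent.H3.FF.Pull

/-!
# MP_4c8b8e_co, project FIRE: steps of the graph over fibres and edges (FIRE-M5)
-/

set_option autoImplicit false

namespace Pool.Agent.H58.FG

open Classical Pool.Agent.H3.FF CV TV Pool.Agent.FM Pool.Agent.H13.FG

section

variable {K H L : ℕ} [NeZero K]

/-- from the lattice point of a hub to the hub -/
theorem m5_hub (x : DV K H L) :
    ∃ w : (G K H L).Walk (Sum.inl (Sum.inl (hp x))) (Sum.inl x), w.length ≤ 2 ∧
      ∀ z ∈ w.support, bp z = hp x := by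
  rcases x with f | τ
  · show ∃ w : (G K H L).Walk (Sum.inl (Sum.inl f)) (Sum.inl (Sum.inl f)), w.length ≤ 2 ∧
      ∀ z ∈ w.support, bp z = f
    refine ⟨SimpleGraph.Walk.nil, by simp, ?_⟩
    intro z hz
    rw [SimpleGraph.Walk.support_nil, List.mem_singleton] at hz
    rw [hz]
    rfl
  · show ∃ w : (G K H L).Walk (Sum.inl (Sum.inl τ.f)) (Sum.inl (Sum.inr τ)), w.length ≤ 2 ∧
      ∀ z ∈ w.support, bp z = τ.f
    have hr : Rim (Sum.inr τ : DV K H L) τ.f := ⟨τ.2.1, Or.inl rfl, Or.inl rfl⟩
    let e : Spk K H L := ⟨(Sum.inr τ, τ.f), hr⟩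
    have h1 : (G K H L).Adj (Sum.inl (Sum.inl τ.f)) (Sum.inr e) := (adj_spoke' e).symm
    have h2 : (G K H L).Adj (Sum.inr e) (Sum.inl (Sum.inr τ)) := adj_spoke e
    refine ⟨SimpleGraph.Walk.cons h1 (SimpleGraph.Walk.cons h2 SimpleGraph.Walk.nil), by simp, ?_⟩
    intro z hz
    rw [SimpleGraph.Walk.support_cons, SimpleGraph.Walk.support_cons,
      SimpleGraph.Walk.support_nil] at hz
    simp only [List.mem_cons, List.not_mem_nil, or_false] at hz
    rcases hz with h | h | h
    · rw [h]
      rfl
    · rw [h]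
      rfl
    · rw [h]
      rfl

/-- over an edge from a point of class two -/
theorem m5_two (g : Par K H L) {f f' : TV K H} (hf : cls f = 2) (h : Ad f f') :
    ∃ w : (G K H L).Walk (Sum.inl (Sum.inl f)) (Sum.inl (Sum.inl f')),
      w.length ≤ 4 ∧ ∀ z ∈ w.support, bp z = f ∨ bp z = f' := by
  obtain ⟨x, hx, hr⟩ := rim_ex (L := L) g hf h
  obtain ⟨w, h1, h2⟩ := m5_hub x
  subst hx
  let e : Spk K H L := ⟨(x, f'), hr⟩
  have h3 : (G K H L).Adj (Sum.inl x) (Sum.inr e) := (adj_spoke e).symm
  have h4 : (G K H L).Adj (Sum.inr e) (Sum.inl (Sum.inl f')) := adj_spoke' e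
  refine ⟨w.append (SimpleGraph.Walk.cons h3 (SimpleGraph.Walk.cons h4 SimpleGraph.Walk.nil)),
    ?_, ?_⟩
  · rw [SimpleGraph.Walk.length_append]
    simp only [SimpleGraph.Walk.length_cons, SimpleGraph.Walk.length_nil]
    omega
  · intro z hz
    rw [SimpleGraph.Walk.mem_support_append_iff] at hz
    rcases hz with hz | hz
    · exact Or.inl (h2 z hz)
    · rw [SimpleGraph.Walk.support_cons, SimpleGraph.Walk.support_cons,
        SimpleGraph.Walk.support_nil] at hz
      simp only [List.mem_cons, List.not_mem_nil, or_false] at hz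
      rcases hz with hz | hz | hz
      · left
        rw [hz]
        rfl
      · left
        rw [hz]
        rfl
      · right
        rw [hz]
        rfl

end

/-- FIRE-M5 -/
theorem sedge : SEdge := by
  intro K H L _ g
  refine ⟨?_, ?_⟩
  · rintro (x | e)
    · obtain ⟨w, h1, h2⟩ := m5_hub x
      exact ⟨w, h1.trans (by norm_num), h2⟩
    · show ∃ w : (G K H L).Walk (Sum.inl (Sum.inl (hp e.1.1))) (Sum.inr e), w.length ≤ 4 ∧
        ∀ z ∈ w.support, bp z = hp e.1.1
      obtain ⟨w, h1, h2⟩ := m5_hub e.1.1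
      have h3 : (G K H L).Adj (Sum.inl e.1.1) (Sum.inr e) := (adj_spoke e).symm
      refine ⟨w.append (SimpleGraph.Walk.cons h3 SimpleGraph.Walk.nil), ?_, ?_⟩
      · rw [SimpleGraph.Walk.length_append]
        simp only [SimpleGraph.Walk.length_cons, SimpleGraph.Walk.length_nil]
        omega
      · intro z hz
        rw [SimpleGraph.Walk.mem_support_append_iff] at hz
        rcases hz with hz | hz
        · exact h2 z hz
        · rw [SimpleGraph.Walk.support_cons, SimpleGraph.Walk.support_nil] at hz
          simp only [List.mem_cons, List.not_mem_nil, or_false] at hz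
          rcases hz with hz | hz
          · rw [hz]
            rfl
          · rw [hz]
            rfl
  · intro f f' h
    by_cases hu : Un L f f'
    · have h1 : (G K H L).Adj (Sum.inl (Sum.inl f)) (Sum.inl (Sum.inl f')) := hu
      refine ⟨SimpleGraph.Walk.cons h1 SimpleGraph.Walk.nil, by simp, fun _ => by simp, ?_⟩
      intro z hz
      rw [SimpleGraph.Walk.support_cons, SimpleGraph.Walk.support_nil] at hz
      simp only [List.mem_cons, List.not_mem_nil, or_false] at hz
      rcases hz with hz | hz
      · left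
        rw [hz]
        rfl
      · right
        rw [hz]
        rfl
    · by_cases hf : cls f = 2
      · obtain ⟨w, h1, h2⟩ := m5_two g hf h
        exact ⟨w, h1, fun hu' => absurd hu' hu, h2⟩
      · have hf' : cls f' = 2 := by
          by_contra hc
          exact hu (Or.inl ⟨h, hf, hc⟩)
        obtain ⟨w, h1, h2⟩ := m5_two g hf' (TV.Ad.symm h)
        refine ⟨w.reverse, ?_, fun hu' => absurd hu' hu, ?_⟩
        · rw [SimpleGraph.Walk.length_reverse]
          exact h1
        · intro z hz
          rw [SimpleGraph.Walk.support_reverse, List.mem_reverse] at hz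
          exact (h2 z hz).symm

end Pool.Agent.H58.FG
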