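import Pool.Agent.H58.FG.TStm

/-!
# MP_4c8b8e_co, project FIRE, row FIRE-T22: the first entry of a walk into a set
-/

set_option autoImplicit false

namespace Pool.Agent.H58.FG

open Classical Pool.Agent.H3.FF CV TV Pool.Agent.FM Pool.Agent.H13.FG

section

variable {K H : ℕ} [NeZero K]

/-- the walk of the graph along the first `i` steps -/
theorem ent_walk (w : ℕ → TV K H) (n : ℕ) (hw : Wk w n) : ∀ i, i ≤ n →
    ∃ ρ : (TL K H).Walk (w 0) (w i), ρ.length ≤ i ∧ ∀ z ∈ ρ.support, ∃ j ≤ i, w j = z := by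
  intro i
  induction i with
  | zero =>
    intro _
    refine ⟨SimpleGraph.Walk.nil, le_rfl, fun z hz => ?_⟩
    rw [SimpleGraph.Walk.support_nil, List.mem_singleton] at hz
    exact ⟨0, le_rfl, hz.symm⟩
  | succ i ih =>
    intro hi
    obtain ⟨ρ, h1, h2⟩ := ih (by omega)
    rcases hw i (by omega) with h | h
    · refine ⟨ρ.copy rfl h, ?_, fun z hz => ?_⟩
      · rw [SimpleGraph.Walk.length_copy]
        omega
      · rw [SimpleGraph.Walk.support_copy] at hz
        obtain ⟨j, hj, hz⟩ := h2 z hz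
        exact ⟨j, by omega, hz⟩
    · have h' : (TL K H).Adj (w i) (w (i + 1)) := h
      refine ⟨ρ.concat h', ?_, fun z hz => ?_⟩
      · rw [SimpleGraph.Walk.length_concat]
        omega
      · rw [SimpleGraph.Walk.support_concat, List.mem_append,
          List.mem_singleton] at hz
        rcases hz with hz | hz
        · obtain ⟨j, hj, hz⟩ := h2 z hz
          exact ⟨j, by omega, hz⟩
        · exact ⟨i + 1, le_rfl, hz.symm⟩

end

/-- **FIRE-T22** -/
theorem sent : SEnt := by
  intro K H _ S w n hw h0 hn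
  have hex : ∃ i, w i ∈ S := ⟨n, hn⟩
  obtain ⟨i, hi⟩ : ∃ i, i = Nat.find hex := ⟨_, rfl⟩
  have hiS : w i ∈ S := by rw [hi]; exact Nat.find_spec hex
  have hin : i ≤ n := by rw [hi]; exact Nat.find_min' hex hn
  have hmin : ∀ j < i, w j ∉ S := fun j hj => by
    rw [hi] at hj
    exact Nat.find_min hex hj
  have hi0 : i ≠ 0 := by
    intro h
    rw [h] at hiS
    exact h0 hiS
  obtain ⟨m, rfl⟩ : ∃ m, i = m + 1 := ⟨i - 1, by omega⟩
  obtain ⟨ρ, h1, h2⟩ := ent_walk w n hw (m + 1) hin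
  refine ⟨w (m + 1), ρ, hiS, h1.trans hin, fun z hz => ?_, w m, hmin m (by omega), ?_⟩
  · obtain ⟨j, hj, hz⟩ := h2 z hz
    exact ⟨j, hj.trans hin, hz⟩
  · rcases hw m (by omega) with h | h
    · exact absurd (h ▸ hiS) (hmin m (by omega))
    · exact h

end Pool.Agent.H58.FG
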