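import Pool.Agent.H58.FG.MStm

/-!
# MP_4c8b8e_co, project FIRE: metric block, row M21, the assumptions on fill structures
-/

set_option autoImplicit false

namespace Pool.Agent.H58.FG

open Classical Pool.Agent.H3.FF CV TV Pool.Agent.FM Pool.Agent.H13.FG

section

variable {V : Type} {T : SimpleGraph V}

/-- the component of a point -/
private theorem fok_comp (d : Set V) {z : V} (hz : z ∉ d) : Co T dᶜ {x | FM.Jn T dᶜ z x} := by
  refine ⟨⟨⟨z, SimpleGraph.Walk.nil, ?_⟩, ?_⟩, ?_, ?_⟩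
  · intro y hy
    rw [SimpleGraph.Walk.support_nil, List.mem_singleton] at hy
    rw [hy]
    exact hz
  · rintro a ⟨wa, ha⟩ b ⟨wb, hb⟩
    refine ⟨wa.reverse.append wb, fun x hx => ?_⟩
    rw [SimpleGraph.Walk.mem_support_append_iff, SimpleGraph.Walk.support_reverse,
      List.mem_reverse] at hx
    rcases hx with hx | hx
    · exact ⟨wa.takeUntil x hx, fun y hy =>
        ha y (SimpleGraph.Walk.support_takeUntil_subset wa hx hy)⟩
    · exact ⟨wb.takeUntil x hx, fun y hy =>
        hb y (SimpleGraph.Walk.support_takeUntil_subset wb hx hy)⟩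
  · rintro x ⟨w, hw⟩
    exact hw x w.end_mem_support
  · rintro a ⟨w, hw⟩ b hb hab
    refine ⟨w.concat hab, fun x hx => ?_⟩
    rw [SimpleGraph.Walk.support_concat, List.mem_append, List.mem_singleton] at hx
    rcases hx with hx | hx
    · exact hw x hx
    · rw [hx]
      exact hb

/-- every point outside `d` is joined outside `d` to a neighbour of `d` -/
private theorem fok_join (d : Set V) {x g : V} (w : T.Walk x g) (hg : g ∈ d) (hx : x ∉ d) :
    ∃ z, z ∉ d ∧ (∃ a ∈ d, T.Adj a z) ∧ FM.Jn T dᶜ z x := by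
  induction w with
  | nil => exact absurd hg hx
  | @cons x y g h p ih =>
    by_cases hy : y ∈ d
    · refine ⟨x, hx, ⟨y, hy, h.symm⟩, SimpleGraph.Walk.nil, fun z hz => ?_⟩
      rw [SimpleGraph.Walk.support_nil, List.mem_singleton] at hz
      rw [hz]
      exact hx
    · obtain ⟨z, hz, ha, w, hw⟩ := ih hg hy
      refine ⟨z, hz, ha, w.concat h.symm, fun u hu => ?_⟩
      rw [SimpleGraph.Walk.support_concat, List.mem_append, List.mem_singleton] at hu
      rcases hu with hu | hu
      · exact hw u hu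
      · rw [hu]
        exact hx

end

section

variable {K H : ℕ} [NeZero K]

private theorem fok_card (A : Set (TV K H)) [DecidablePred (· ∈ A)] :
    (Finset.univ.filter (fun f => f ∈ A)).card = A.ncard := by
  rw [← Set.ncard_coe_finset]
  congr 1
  ext f
  simp

/-- the number of neighbours of a set -/
private theorem fok_nbr (hdeg : ∀ z, ((TL K H).neighborSet z).ncard ≤ K + 6)
    (d : Set (TV K H)) : (Finset.univ.filter (fun p : TV K H × TV K H =>
      p.2 ∈ d ∧ Ad p.1 p.2)).card ≤ d.ncard * (K + 6) := by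
  rw [← fok_card d]
  refine (Finset.card_le_card (t := (Finset.univ.filter (fun f => f ∈ d)).biUnion fun g =>
    (Finset.univ.filter fun f => f ∈ (TL K H).neighborSet g).image fun f => (f, g)) ?_).trans
    (Finset.card_biUnion_le_card_mul _ _ _ fun g _ => ?_)
  · rintro ⟨f, g⟩ h
    rw [Finset.mem_filter] at h
    rw [Finset.mem_biUnion]
    refine ⟨g, Finset.mem_filter.2 ⟨Finset.mem_univ _, h.2.1⟩, Finset.mem_image.2 ⟨f, ?_, rfl⟩⟩
    rw [Finset.mem_filter]
    refine ⟨Finset.mem_univ _, ?_⟩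
    show (TL K H).Adj g f
    exact (show (TL K H).Adj f g from h.2.2).symm
  · refine Finset.card_image_le.trans ?_
    rw [fok_card]
    exact hdeg g

/-- the cut of a component of the complement of `d` -/
private theorem fok_cut (hdeg : ∀ z, ((TL K H).neighborSet z).ncard ≤ K + 6)
    {d c : Set (TV K H)} (hc : Co (TL K H) dᶜ c) :
    cut (Finset.univ.filter (fun f => f ∈ c)) ≤ d.ncard * (K + 6) := by
  refine le_trans (Finset.card_le_card ?_) (fok_nbr hdeg d)
  rintro ⟨f, g⟩ h
  rw [Finset.mem_filter, Finset.mem_product, Finset.mem_compl, Finset.mem_filter,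
    Finset.mem_filter] at h
  rw [Finset.mem_filter]
  refine ⟨Finset.mem_univ _, ?_, h.2⟩
  by_contra hg
  exact h.1.2 ⟨Finset.mem_univ _, hc.2.2 f h.1.1.2 g hg h.2⟩

end

private theorem fok_iso {K x y : ℕ} (h : x ≤ y) :
    x ^ 2 + 4 * x + 4 * K ≤ y ^ 2 + 4 * y + 4 * K := by
  have := Nat.pow_le_pow_left h 2
  omega

private theorem fok_num {K m0 : ℕ} : ((K + 6) * m0) ^ 2 + 4 * ((K + 6) * m0) + 4 * K ≤
    ((5 + 4 * K) * (K + 6) ^ 2 + 2) * (m0 + 1) ^ 2 := by
  have h1 : (K + 6) * m0 ≤ (K + 6) * (m0 + 1) := Nat.mul_le_mul_left _ (Nat.le_succ m0)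
  have h2 := fok_iso (K := K) h1
  refine h2.trans ?_
  have h3 : 1 ≤ (K + 6) * (m0 + 1) := Nat.mul_pos (by omega) (by omega)
  have h4 : (K + 6) * (m0 + 1) ≤ ((K + 6) * (m0 + 1)) ^ 2 := by
    rw [pow_two]
    exact Nat.le_mul_of_pos_left _ h3
  have h5 : K ≤ K * ((K + 6) * (m0 + 1)) ^ 2 := Nat.le_mul_of_pos_right _ (pow_pos h3 2)
  calc ((K + 6) * (m0 + 1)) ^ 2 + 4 * ((K + 6) * (m0 + 1)) + 4 * K
      ≤ ((K + 6) * (m0 + 1)) ^ 2 + 4 * ((K + 6) * (m0 + 1)) ^ 2 +
          4 * (K * ((K + 6) * (m0 + 1)) ^ 2) := by omega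
    _ = ((5 + 4 * K) * (K + 6) ^ 2) * (m0 + 1) ^ 2 := by ring
    _ ≤ _ := Nat.mul_le_mul_right _ (Nat.le_add_right _ _)

/-- **FIRE-M21.** -/
theorem sfOk : SFOkOf := by
  intro hIso hDeg hBall K _ hK
  refine ⟨(5 + 4 * K) * (K + 6) ^ 2 + 2, by omega, fun m0 r hr => ?_⟩
  set Cm := (5 + 4 * K) * (K + 6) ^ 2 + 2 with hCm
  set F0 := Cm * (m0 + 1) ^ 2 with hF0
  set D1 := (K + 6) * m0 with hD1
  set I1 := D1 ^ 2 + 4 * D1 + 4 * K with hI1
  refine ⟨8 * F0 + 4 * (m0 + D1 * I1) + 3 * D1 + 2 * r + 8, fun H L hH hP bl => ?_⟩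
  obtain ⟨hcon, hdeg, -, u0, -⟩ := hDeg K H L hP
  have hI : I1 ≤ F0 := fok_num
  -- the number of points
  have hbig : (H / 2 + 1) ^ 2 ≤ 2 * Nat.card (TV K H) := by
    have h1 := hBall K H L hP u0 (H / 2) (by omega)
    have h2 := Set.ncard_le_card (nbh (TL K H) {u0} (H / 2))
    omega
  have hbig2 : H / 2 + 1 ≤ 2 * Nat.card (TV K H) := by
    refine le_trans ?_ hbig
    rw [pow_two]
    exact Nat.le_mul_of_pos_left _ (Nat.succ_pos _)
  refine ⟨hcon, ?_, ?_, ?_⟩
  · intro d hd hdm
    have hdm' : d.ncard ≤ m0 := hdm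
    by_contra hcon2
    push Not at hcon2
    obtain ⟨⟨g0, hg0⟩, -⟩ := hd
    have hD : d.ncard * (K + 6) ≤ D1 := by
      rw [hD1, mul_comm (K + 6)]
      exact Nat.mul_le_mul_right _ hdm'
    -- every component is small
    have hsmall : ∀ z, z ∉ d → (Finset.univ.filter (fun f : TV K H =>
        f ∈ {x | FM.Jn (TL K H) dᶜ z x})).card ≤ I1 := by
      intro z hz
      have hco := fok_comp (T := TL K H) d hz
      have h1 := fok_cut hdeg hco
      set S := Finset.univ.filter (fun f : TV K H => f ∈ {x | FM.Jn (TL K H) dᶜ z x}) with hS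
      have h2 : cut S ≤ D1 := h1.trans hD
      have h3 := fok_iso (K := K) h2
      rcases hIso K H hK S (by omega) with h | h
      · exact h.trans h3
      · exfalso
        have h4 := hcon2 _ hco
        have h5 : Sᶜ.card = ({x | FM.Jn (TL K H) dᶜ z x}ᶜ : Set (TV K H)).ncard := by
          rw [← fok_card, hS]
          congr 1
          ext f
          rw [Finset.mem_compl, Finset.mem_filter, Finset.mem_filter]
          simp
        rw [← h5] at h4
        have h6 : F0 < Sᶜ.card := h4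
        omega
    -- the number of all points
    have hcov : (Finset.univ : Finset (TV K H)) ⊆ (Finset.univ.filter fun f => f ∈ d) ∪
        ((Finset.univ.filter fun p : TV K H × TV K H => p.2 ∈ d ∧ Ad p.1 p.2).filter
          fun p => p.1 ∉ d).biUnion fun p =>
          Finset.univ.filter (fun f : TV K H => f ∈ {x | FM.Jn (TL K H) dᶜ p.1 x}) := by
      intro x _
      rw [Finset.mem_union, Finset.mem_biUnion]
      by_cases hx : x ∈ d
      · exact Or.inl (Finset.mem_filter.2 ⟨Finset.mem_univ _, hx⟩)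
      · right
        obtain ⟨w⟩ := hcon x g0
        obtain ⟨z, hz, ⟨a, ha, haz⟩, hj⟩ := fok_join d w hg0 hx
        refine ⟨(z, a), ?_, ?_⟩
        · rw [Finset.mem_filter, Finset.mem_filter]
          exact ⟨⟨Finset.mem_univ _, ha, haz.symm⟩, hz⟩
        · exact Finset.mem_filter.2 ⟨Finset.mem_univ _, hj⟩
    have h1 := (Finset.card_le_card hcov).trans (Finset.card_union_le _ _)
    rw [Finset.card_univ, fok_card] at h1
    have h2 := Finset.card_biUnion_le_card_mul
      ((Finset.univ.filter fun p : TV K H × TV K H => p.2 ∈ d ∧ Ad p.1 p.2).filter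
          fun p => p.1 ∉ d)
      (fun p => Finset.univ.filter (fun f : TV K H => f ∈ {x | FM.Jn (TL K H) dᶜ p.1 x})) I1
      (fun p hp => hsmall p.1 (Finset.mem_filter.1 hp).2)
    have h3 : ((Finset.univ.filter fun p : TV K H × TV K H => p.2 ∈ d ∧ Ad p.1 p.2).filter
          fun p => p.1 ∉ d).card ≤ D1 :=
      (Finset.card_filter_le _ _).trans ((fok_nbr hdeg d).trans hD)
    have h4 := Nat.mul_le_mul_right I1 h3
    rw [Nat.card_eq_fintype_card] at hbig2
    omega
  · show 2 * F0 < Nat.card (TV K H)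
    omega
  · intro u
    show F0 < (nbh (TL K H) {u} (r + 1)).ncard
    have h1 := hBall K H L hP u (r + 1) (by omega)
    have h2 : (Cm * (m0 + 1)) ^ 2 < (r + 1 + 1) ^ 2 :=
      Nat.pow_lt_pow_left (by omega) (by norm_num)
    have h3 : 2 * F0 ≤ (Cm * (m0 + 1)) ^ 2 := by
      rw [hF0, mul_pow, ← mul_assoc]
      refine Nat.mul_le_mul_right _ ?_
      rw [pow_two]
      exact Nat.mul_le_mul_right _ (by omega)
    omega

end Pool.Agent.H58.FG
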