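import Pool.Agent.H58.FG.MStm

/-!
# MP_4c8b8e_co, project FIRE: outside the neighbourhoods of the coarse vertices
-/

set_option autoImplicit false

namespace Pool.Agent.H58.FG

open Classical Pool.Agent.H3.FF CV TV Pool.Agent.FM

section

variable {K H L : ℕ} [NeZero K]

/-- one more at the coordinate `c`, one less at the coordinate `d` -/
theorem farz_step (g : Par K H L) (f : TV K H) {c d : CV K} (hcd : c ≠ d) (hd : 1 ≤ f.1 d)
    (hc : 1 ≤ f.1 c) : ∃ f' : TV K H, f'.1 c = f.1 c + 1 ∧ Ad f' f := by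
  obtain ⟨b, i, hs⟩ := f.2.2
  have fcc : fc b i c := by
    by_contra h
    have := hs c h
    omega
  have fcd : fc b i d := by
    by_contra h
    have := hs d h
    omega
  obtain ⟨k, hk, hck, hdk⟩ := fc_third g.hK fcc fcd hcd
  let u : CV K → ℕ := fun e => if e = c then f.1 c + 1 else if e = d then f.1 d - 1 else f.1 e
  have uc : u c = f.1 c + 1 := if_pos rfl
  have ud : u d = f.1 d - 1 := by
    show (if d = c then f.1 c + 1 else if d = d then f.1 d - 1 else f.1 d) = _
    rw [if_neg hcd.symm, if_pos rfl]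
  have ue : ∀ e, e ≠ c → e ≠ d → u e = f.1 e := fun e h1 h2 => by
    show (if e = c then f.1 c + 1 else if e = d then f.1 d - 1 else f.1 e) = _
    rw [if_neg h1, if_neg h2]
  have hsu : Sp b i u := fun e he => by
    rw [ue e (fun h => he (h ▸ fcc)) (fun h => he (h ▸ fcd)), hs e he]
  have hsum : ∑ e, u e = H := by
    have h1 : ∑ e, u e = u c + (u d + ∑ e ∈ (Finset.univ.erase c).erase d, u e) := by
      rw [Finset.add_sum_erase _ _ (Finset.mem_erase.2 ⟨hcd.symm, Finset.mem_univ d⟩),
        Finset.add_sum_erase _ _ (Finset.mem_univ c)]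
    have h2 : ∑ e, f.1 e = f.1 c + (f.1 d + ∑ e ∈ (Finset.univ.erase c).erase d, f.1 e) := by
      rw [Finset.add_sum_erase _ _ (Finset.mem_erase.2 ⟨hcd.symm, Finset.mem_univ d⟩),
        Finset.add_sum_erase _ _ (Finset.mem_univ c)]
    have h3 : ∑ e ∈ (Finset.univ.erase c).erase d, u e =
        ∑ e ∈ (Finset.univ.erase c).erase d, f.1 e := by
      refine Finset.sum_congr rfl fun e he => ?_
      rw [Finset.mem_erase, Finset.mem_erase] at he
      exact ue e he.2.1 he.1
    have h4 := f.2.1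
    rw [h2] at h4
    rw [h1, h3, uc, ud]
    omega
  refine ⟨⟨u, hsum, b, i, hsu⟩, uc, b, i, k, hsu, hs, hk, c, d, fcc, fcd, hck, hdk, ?_, ?_, ?_⟩
  · exact uc
  · show f.1 d = u d + 1
    rw [ud]
    omega
  · intro e h1 h2
    exact ue e h1 h2

theorem farz_walk (g : Par K H L) (c : CV K) : ∀ (n : ℕ) (f : TV K H), 1 ≤ f.1 c →
    f.1 c + n = H → f ∈ nbh (TL K H) (Zc K H) n := by
  intro n
  induction n with
  | zero =>
    intro f _ h
    exact ⟨f, ⟨c, by omega⟩, SimpleGraph.Walk.nil, le_refl 0⟩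
  | succ n ih =>
    intro f h1 h
    obtain ⟨d, hdc, hd⟩ : ∃ d, d ≠ c ∧ 1 ≤ f.1 d := by
      by_contra hcon
      push Not at hcon
      have h2 : ∑ e, f.1 e = f.1 c := by
        rw [Finset.sum_eq_single c (fun e _ he => by have := hcon e he; omega)
          (fun h => absurd (Finset.mem_univ c) h)]
      have h3 := f.2.1
      omega
    obtain ⟨f', h2, h3⟩ := farz_step g f hdc.symm hd h1
    obtain ⟨u, hu, w, hw⟩ := ih f' (by omega) (by omega)
    refine ⟨u, hu, w.concat h3, ?_⟩
    rw [SimpleGraph.Walk.length_concat]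
    omega

end

theorem sfarZ : SFarZ := by
  intro K H L _ g f R hf c
  by_contra hlt
  push Not at hlt
  apply hf
  have hH := g.pos
  have key : ∀ c' : CV K, 1 ≤ f.1 c' → H - f.1 c' ≤ 2 * R → f ∈ nbh (TL K H) (Zc K H) (2 * R) := by
    intro c' h1 h2
    have hle : f.1 c' ≤ H := by
      have h3 := Finset.single_le_sum (f := f.1) (fun e _ => Nat.zero_le _) (Finset.mem_univ c')
      rw [f.2.1] at h3
      exact h3
    obtain ⟨u, hu, w, hw⟩ := farz_walk g c' (H - f.1 c') f h1 (by omega)
    exact ⟨u, hu, w, hw.trans h2⟩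
  by_cases h0 : 1 ≤ f.1 c
  · exact key c h0 (by omega)
  · obtain ⟨c', hc'⟩ : ∃ c', 1 ≤ f.1 c' := by
      by_contra hcon
      push Not at hcon
      have h2 : ∑ e, f.1 e = 0 := Finset.sum_eq_zero fun e _ => by have := hcon e; omega
      have h3 := f.2.1
      omega
    exact key c' hc' (by omega)

end Pool.Agent.H58.FG
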