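import Pool.Agent.H58.FG.TopFin
import Pool.Agent.FM.PAll
import Pool.Agent.H58.FF.Iso
import Pool.Agent.H58.FF.Step
import Pool.Agent.H58.FF.Pend

/-!
# MP_4c8b8e_co, project FIRE: the final theorem from the area lemma
-/

set_option autoImplicit false

namespace Pool.Agent.H58.FG

/-- the final theorem from the area lemma -/
theorem final_of_area (hA : Pool.Agent.H58.FF.SArea) : Pool.Agent.H3.FF.FinalG5 :=
  Pool.Agent.FM.final_of_blocks hA sstepTop Pool.Agent.H13.FG.sgeo

/-- the final theorem from the start-up of the area lemma -/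
theorem final_of_start (hS : Pool.Agent.H58.FF.SStart) : Pool.Agent.H3.FF.FinalG5 :=
  final_of_area (Pool.Agent.H58.FF.sareaOf
    (Pool.Agent.H58.FF.sstep (Pool.Agent.H58.FF.sgrow Pool.Agent.H58.FF.siso)
      Pool.Agent.H58.FF.spend) hS)

end Pool.Agent.H58.FG
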