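import Pool.Agent.H58.FG.FinA
import Pool.Agent.H58.FF.StStart

/-!
# MP_4c8b8e_co, project FIRE: the final theorem
-/

set_option autoImplicit false

namespace Pool.Agent.H58.FG

/-- no constant works for girth five -/
theorem finalG5 : Pool.Agent.H3.FF.FinalG5 :=
  final_of_start Pool.Agent.H58.FF.sstart

end Pool.Agent.H58.FG
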