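import Pool.Agent.H58.FG.MStm

/-!
# MP_4c8b8e_co, project FIRE: FIRE-M10, all walks can be followed
-/

set_option autoImplicit false

namespace Pool.Agent.H58.FG

open Classical Pool.Agent.H3.FF CV TV Pool.Agent.FM Pool.Agent.H13.FG

section

variable {V W : Type}

/-- cutting a walk after `n` steps -/
private theorem m10_split {T : SimpleGraph V} : ∀ (n : ℕ) {x y : V} (w : T.Walk x y),
    n ≤ w.length → ∃ (z : V) (w1 : T.Walk x z) (w2 : T.Walk z y), w1.length = n ∧
      w1.length + w2.length = w.length ∧ (∀ a ∈ w1.support, a ∈ w.support) ∧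
      ∀ a ∈ w2.support, a ∈ w.support := by
  intro n
  induction n with
  | zero =>
    intro x y w _
    refine ⟨x, SimpleGraph.Walk.nil, w, rfl, by simp, ?_, fun a ha => ha⟩
    intro a ha
    rw [SimpleGraph.Walk.support_nil, List.mem_singleton] at ha
    rw [ha]
    exact w.start_mem_support
  | succ n ih =>
    intro x y w hw
    cases w with
    | nil => simp at hw
    | cons h p =>
      rw [SimpleGraph.Walk.length_cons] at hw
      obtain ⟨z, w1, w2, h1, h2, h3, h4⟩ := ih p (by omega)
      refine ⟨z, SimpleGraph.Walk.cons h w1, w2, ?_, ?_, ?_, ?_⟩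
      · rw [SimpleGraph.Walk.length_cons, h1]
      · rw [SimpleGraph.Walk.length_cons, SimpleGraph.Walk.length_cons]
        omega
      · intro a ha
        rw [SimpleGraph.Walk.support_cons, List.mem_cons] at ha ⊢
        rcases ha with ha | ha
        · exact Or.inl ha
        · exact Or.inr (h3 a ha)
      · intro a ha
        rw [SimpleGraph.Walk.support_cons, List.mem_cons]
        exact Or.inr (h4 a ha)

private theorem m10_nbh {T : SimpleGraph V} {A B : Set V} {r s : ℕ} (hAB : A ⊆ B) (hrs : r ≤ s)
    {z : V} (hz : z ∈ nbh T A r) : z ∈ nbh T B s := by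
  obtain ⟨u, hu, w, hw⟩ := hz
  exact ⟨u, hAB hu, w, hw.trans hrs⟩

/-- walks of any length can be followed if short walks can be followed -/
private theorem m10_ind {T : SimpleGraph V} {G : SimpleGraph W} {p : W → V} {t : V → W}
    {Z : Set V} {l0 a b M : ℕ} (hM : M * a ≤ l0) (hl : 0 < l0)
    (h : ∀ (f g : V) (n : ℕ), f ∈ Z → n ≤ l0 → (∃ w : T.Walk f g, w.length ≤ n) →
      ∃ w : G.Walk (t f) (t g), w.length ≤ n + a ∧ ∀ z ∈ w.support, p z ∈ nbh T {f} (n + b)) :
    ∀ (n : ℕ) {x y : V} (w : T.Walk x y), w.length ≤ n → (∀ z ∈ w.support, z ∈ Z) →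
      ∃ g : G.Walk (t x) (t y), M * g.length ≤ (M + 1) * w.length + M * a ∧
        ∀ z ∈ g.support, p z ∈ nbh T {z' | z' ∈ w.support} (l0 + b) := by
  intro n
  induction n using Nat.strong_induction_on with
  | _ n ih =>
    intro x y w hw hZ
    by_cases hle : w.length ≤ l0
    · obtain ⟨g, hg1, hg2⟩ := h x y w.length (hZ x w.start_mem_support) hle ⟨w, le_rfl⟩
      refine ⟨g, ?_, ?_⟩
      · have h1 : M * g.length ≤ M * (w.length + a) := Nat.mul_le_mul_left M hg1
        have h2 : M * (w.length + a) = M * w.length + M * a := by ring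
        have h3 : (M + 1) * w.length = M * w.length + w.length := by ring
        omega
      · intro z hz
        refine m10_nbh ?_ (by omega) (hg2 z hz)
        intro f hf
        rw [Set.mem_singleton_iff] at hf
        rw [hf]
        exact w.start_mem_support
    · obtain ⟨z, w1, w2, e1, e2, e3, e4⟩ := m10_split l0 w (by omega)
      obtain ⟨g1, hg1, hg2⟩ := h x z w1.length (hZ x w.start_mem_support) (by omega)
        ⟨w1, le_rfl⟩
      obtain ⟨g2, hg3, hg4⟩ := ih w2.length (by omega) w2 le_rfl (fun a ha => hZ a (e4 a ha))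
      refine ⟨g1.append g2, ?_, ?_⟩
      · rw [SimpleGraph.Walk.length_append]
        have h1 : M * g1.length ≤ M * (w1.length + a) := Nat.mul_le_mul_left M hg1
        have h2 : M * (w1.length + a) = M * w1.length + M * a := by ring
        have h3 : (M + 1) * w.length = (M + 1) * w2.length + M * w1.length + w1.length := by
          rw [← e2]
          ring
        have h4 : M * (g1.length + g2.length) = M * g1.length + M * g2.length := by ring
        omega
      · intro c hc
        rw [SimpleGraph.Walk.mem_support_append_iff] at hc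
        rcases hc with hc | hc
        · refine m10_nbh ?_ (by omega) (hg2 c hc)
          intro f hf
          rw [Set.mem_singleton_iff] at hf
          rw [hf]
          exact w.start_mem_support
        · exact m10_nbh (fun a ha => e4 a ha) le_rfl (hg4 c hc)

end

/-- FIRE-M10: following walks, from the rows before. -/
theorem sfollow : SFollowOf := by
  intro hS hF hE K L M _ hM
  refine ⟨2 * (10 * L * M + 1 + 4 * L + 2), 10 * L * M + 1 + 4 * L, 10 * L + 8, ?_⟩
  intro H hP x y w hw u v hu hv
  obtain ⟨hE1, _⟩ := hE K H L hP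
  have key := m10_ind (T := TL K H) (G := G K H L) (p := bp)
    (t := fun f => Sum.inl (Sum.inl f))
    (Z := {z | z ∉ nbh (TL K H) (Zc K H) (2 * (10 * L * M + 1 + 4 * L + 2))})
    (l0 := 10 * L * M + 1) (a := 10 * L) (b := 4 * L) (M := M) (by
      have : M * (10 * L) = 10 * L * M := by ring
      omega) (by omega) (by
      intro f g n hf hn hwalk
      refine hS K H L hP f g n ?_ hwalk
      intro c
      have h := hF K H L hP f (10 * L * M + 1 + 4 * L + 2) hf c
      omega) w.length w le_rfl hw
  obtain ⟨g, hg1, hg2⟩ := key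
  obtain ⟨wu, hu1, hu2⟩ := hE1 u
  obtain ⟨wv, hv1, hv2⟩ := hE1 v
  subst hu
  subst hv
  refine ⟨(wu.reverse.append g).append wv, ?_, ?_⟩
  · rw [SimpleGraph.Walk.length_append, SimpleGraph.Walk.length_append,
      SimpleGraph.Walk.length_reverse]
    have h1 : M * wu.length ≤ M * 4 := Nat.mul_le_mul_left M hu1
    have h2 : M * wv.length ≤ M * 4 := Nat.mul_le_mul_left M hv1
    have h3 : M * (wu.length + g.length + wv.length) =
        M * wu.length + M * g.length + M * wv.length := by ring
    have h4 : M * (10 * L + 8) = M * (10 * L) + M * 8 := by ring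
    omega
  · intro z hz
    rw [SimpleGraph.Walk.mem_support_append_iff, SimpleGraph.Walk.mem_support_append_iff,
      SimpleGraph.Walk.support_reverse, List.mem_reverse] at hz
    rcases hz with (hz | hz) | hz
    · rw [hu2 z hz]
      exact ⟨bp u, w.start_mem_support, SimpleGraph.Walk.nil, by simp⟩
    · exact hg2 z hz
    · rw [hv2 z hz]
      exact ⟨bp v, w.end_mem_support, SimpleGraph.Walk.nil, by simp⟩

end Pool.Agent.H58.FG
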