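import Pool.Agent.H58.FG.MStm

/-!
# MP_4c8b8e_co, project FIRE: streets in the flat lattice
-/

set_option autoImplicit false

namespace Pool.Agent.H58.FG

open Pool.Agent.H58.FF (Pt nbs dst nrm)

/-- walks with `m` steps, at most `k` of them not on streets -/
inductive Rt (L : ℕ) (p : Pt) : Pt → ℕ → ℕ → Prop
  | nil : Rt L p p 0 0
  | str (q r : Pt) (m k : ℕ) : Rt L p q m k → r ∈ nbs q → Str L q r → Rt L p r (m + 1) k
  | non (q r : Pt) (m k : ℕ) : Rt L p q m k → r ∈ nbs q → Rt L p r (m + 1) (k + 1)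

theorem rt_append {L : ℕ} {p q r : Pt} {m k m' k' : ℕ} (h : Rt L p q m k)
    (h' : Rt L q r m' k') : Rt L p r (m + m') (k + k') := by
  induction h' with
  | nil => exact h
  | str q r m' k' _ h2 h3 ih => exact Rt.str _ _ _ _ ih h2 h3
  | non q r m' k' _ h2 ih => exact Rt.non _ _ _ _ ih h2

theorem rt_fun {L : ℕ} {p q : Pt} {m k : ℕ} (h : Rt L p q m k) :
    ∃ x : ℕ → Pt, x 0 = p ∧ x m = q ∧ (∀ i < m, x (i + 1) ∈ nbs (x i)) ∧
      (∃ T : Finset ℕ, T.card ≤ k ∧ ∀ i < m, i ∉ T → Str L (x i) (x (i + 1))) := by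
  induction h with
  | nil => exact ⟨fun _ => p, rfl, rfl, fun i hi => absurd hi (Nat.not_lt_zero i), ∅, by simp,
      fun i hi => absurd hi (Nat.not_lt_zero i)⟩
  | str q r m k _ h2 h3 ih =>
    obtain ⟨x, x0, xm, xn, T, hT, xs⟩ := ih
    refine ⟨fun i => if i ≤ m then x i else r, ?_, ?_, ?_, T, hT, ?_⟩
    · show (if 0 ≤ m then x 0 else r) = p
      rw [if_pos (Nat.zero_le m), x0]
    · show (if m + 1 ≤ m then x (m + 1) else r) = r
      rw [if_neg (by omega)]
    · intro i hi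
      show (if i + 1 ≤ m then x (i + 1) else r) ∈ nbs (if i ≤ m then x i else r)
      rw [if_pos (by omega : i ≤ m)]
      by_cases h4 : i + 1 ≤ m
      · rw [if_pos h4]
        exact xn i h4
      · have h5 : i = m := by omega
        rw [if_neg h4, h5, xm]
        exact h2
    · intro i hi hiT
      show Str L (if i ≤ m then x i else r) (if i + 1 ≤ m then x (i + 1) else r)
      rw [if_pos (by omega : i ≤ m)]
      by_cases h4 : i + 1 ≤ m
      · rw [if_pos h4]
        exact xs i h4 hiT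
      · have h5 : i = m := by omega
        rw [if_neg h4, h5, xm]
        exact h3
  | non q r m k _ h2 ih =>
    obtain ⟨x, x0, xm, xn, T, hT, xs⟩ := ih
    refine ⟨fun i => if i ≤ m then x i else r, ?_, ?_, ?_, insert m T, ?_, ?_⟩
    · show (if 0 ≤ m then x 0 else r) = p
      rw [if_pos (Nat.zero_le m), x0]
    · show (if m + 1 ≤ m then x (m + 1) else r) = r
      rw [if_neg (by omega)]
    · intro i hi
      show (if i + 1 ≤ m then x (i + 1) else r) ∈ nbs (if i ≤ m then x i else r)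
      rw [if_pos (by omega : i ≤ m)]
      by_cases h4 : i + 1 ≤ m
      · rw [if_pos h4]
        exact xn i h4
      · have h5 : i = m := by omega
        rw [if_neg h4, h5, xm]
        exact h2
    · exact (Finset.card_insert_le _ _).trans (Nat.succ_le_succ hT)
    · intro i hi hiT
      show Str L (if i ≤ m then x i else r) (if i + 1 ≤ m then x (i + 1) else r)
      rw [Finset.mem_insert, not_or] at hiT
      have h4 : i + 1 ≤ m := by omega
      rw [if_pos (by omega : i ≤ m), if_pos h4]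
      exact xs i h4 hiT.2

/-- segments off the streets -/
theorem rt_seg (L : ℕ) (p d : Pt) (hd : ∀ q : Pt, (q.1 + d.1, q.2 + d.2) ∈ nbs q) (n : ℕ) :
    Rt L p (p.1 + n * d.1, p.2 + n * d.2) n n := by
  induction n with
  | zero =>
    have h : ((p.1 + (0 : ℕ) * d.1, p.2 + (0 : ℕ) * d.2) : Pt) = p := by simp
    rw [h]
    exact Rt.nil
  | succ n ih =>
    have h := Rt.non _ _ _ _ ih (hd _)
    have e : ((p.1 + n * d.1 + d.1, p.2 + n * d.2 + d.2) : Pt) =
        (p.1 + (n + 1 : ℕ) * d.1, p.2 + (n + 1 : ℕ) * d.2) := by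
      push_cast
      ext
      · show p.1 + n * d.1 + d.1 = p.1 + (n + 1) * d.1
        ring
      · show p.2 + n * d.2 + d.2 = p.2 + (n + 1) * d.2
        ring
    rw [← e]
    exact h

/-- segments on the streets -/
theorem rt_segS (L : ℕ) (p d : Pt) (hd : ∀ q : Pt, (q.1 + d.1, q.2 + d.2) ∈ nbs q)
    (hs : ∀ n : ℤ, Str L (p.1 + n * d.1, p.2 + n * d.2)
      (p.1 + n * d.1 + d.1, p.2 + n * d.2 + d.2)) (n : ℕ) :
    Rt L p (p.1 + n * d.1, p.2 + n * d.2) n 0 := by
  induction n with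
  | zero =>
    have h : ((p.1 + (0 : ℕ) * d.1, p.2 + (0 : ℕ) * d.2) : Pt) = p := by simp
    rw [h]
    exact Rt.nil
  | succ n ih =>
    have h := Rt.str _ _ _ _ ih (hd _) (hs n)
    have e : ((p.1 + n * d.1 + d.1, p.2 + n * d.2 + d.2) : Pt) =
        (p.1 + (n + 1 : ℕ) * d.1, p.2 + (n + 1 : ℕ) * d.2) := by
      push_cast
      ext
      · show p.1 + n * d.1 + d.1 = p.1 + (n + 1) * d.1
        ring
      · show p.2 + n * d.2 + d.2 = p.2 + (n + 1) * d.2
        ring
    rw [← e]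
    exact h

theorem rt_eq {L : ℕ} {p q q' : Pt} {m m' k k' : ℕ} (h : Rt L p q m k) (h1 : q.1 = q'.1)
    (h2 : q.2 = q'.2) (h3 : m = m') (h4 : k = k') : Rt L p q' m' k' := by
  have e : q = q' := Prod.ext h1 h2
  rw [← e, ← h3, ← h4]
  exact h

theorem rt_d (d : Pt) (h : d ∈ ({(1, 0), (0, 1), (-1, 1), (-1, 0), (0, -1), (1, -1)} :
    Finset Pt)) (q : Pt) : (q.1 + d.1, q.2 + d.2) ∈ nbs q := by
  simp only [Finset.mem_insert, Finset.mem_singleton] at h
  simp only [nbs, Finset.mem_insert, Finset.mem_singleton]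
  rcases h with rfl | rfl | rfl | rfl | rfl | rfl <;> simp [sub_eq_add_neg]

/-- horizontal streets -/
theorem rt_h (L : ℕ) (x x' y : ℤ) (hy : (L : ℤ) ∣ y) :
    Rt L (x, y) (x', y) (x' - x).natAbs 0 := by
  have hs : ∀ d : ℤ, ∀ n : ℤ, Str L (x + n * d, y + n * 0) (x + n * d + d, y + n * 0 + 0) := by
    intro d n
    have e : y + n * 0 = y := by ring
    rw [e]
    exact Or.inl ⟨(add_zero y).symm, hy⟩
  rcases le_total x x' with h | h
  · refine rt_eq (rt_segS L (x, y) (1, 0) (rt_d _ (by simp)) (hs 1) (x' - x).natAbs) ?_ ?_ rfl rfl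
    · show x + ((x' - x).natAbs : ℤ) * 1 = x'
      omega
    · show y + ((x' - x).natAbs : ℤ) * 0 = y
      omega
  · refine rt_eq (rt_segS L (x, y) (-1, 0) (rt_d _ (by simp)) (hs (-1)) (x' - x).natAbs) ?_ ?_
      rfl rfl
    · show x + ((x' - x).natAbs : ℤ) * -1 = x'
      omega
    · show y + ((x' - x).natAbs : ℤ) * 0 = y
      omega

/-- vertical streets -/
theorem rt_v (L : ℕ) (x y y' : ℤ) (hx : (L : ℤ) ∣ x) :
    Rt L (x, y) (x, y') (y' - y).natAbs 0 := by
  have hs : ∀ d : ℤ, ∀ n : ℤ, Str L (x + n * 0, y + n * d) (x + n * 0 + 0, y + n * d + d) := by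
    intro d n
    have e : x + n * 0 = x := by ring
    rw [e]
    exact Or.inr (Or.inl ⟨(add_zero x).symm, hx⟩)
  rcases le_total y y' with h | h
  · refine rt_eq (rt_segS L (x, y) (0, 1) (rt_d _ (by simp)) (hs 1) (y' - y).natAbs) ?_ ?_ rfl rfl
    · show x + ((y' - y).natAbs : ℤ) * 0 = x
      omega
    · show y + ((y' - y).natAbs : ℤ) * 1 = y'
      omega
  · refine rt_eq (rt_segS L (x, y) (0, -1) (rt_d _ (by simp)) (hs (-1)) (y' - y).natAbs) ?_ ?_
      rfl rfl
    · show x + ((y' - y).natAbs : ℤ) * 0 = x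
      omega
    · show y + ((y' - y).natAbs : ℤ) * -1 = y'
      omega

/-- diagonal streets -/
theorem rt_diag (L : ℕ) (x y n : ℤ) (hx : (L : ℤ) ∣ x + y) :
    Rt L (x, y) (x + n, y - n) n.natAbs 0 := by
  have hs : ∀ d : ℤ, ∀ n : ℤ, Str L (x + n * d, y + n * -d) (x + n * d + d, y + n * -d + -d) := by
    intro d n
    have e : x + n * d + (y + n * -d) = x + y := by ring
    refine Or.inr (Or.inr ⟨?_, ?_⟩)
    · show x + n * d + (y + n * -d) = x + n * d + d + (y + n * -d + -d)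
      ring
    · show (L : ℤ) ∣ x + n * d + (y + n * -d)
      rw [e]
      exact hx
  rcases le_total 0 n with h | h
  · refine rt_eq (rt_segS L (x, y) (1, -1) (rt_d _ (by simp)) (hs 1) n.natAbs) ?_ ?_ rfl rfl
    · show x + (n.natAbs : ℤ) * 1 = x + n
      omega
    · show y + (n.natAbs : ℤ) * -1 = y - n
      omega
  · refine rt_eq (rt_segS L (x, y) (-1, 1) (rt_d _ (by simp)) (fun n => ?_) n.natAbs) ?_ ?_
      rfl rfl
    · have h2 := hs (-1) n
      rw [neg_neg] at h2
      exact h2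
    · show x + (n.natAbs : ℤ) * -1 = x + n
      omega
    · show y + (n.natAbs : ℤ) * 1 = y - n
      omega

theorem lat_dst (p q : Pt) (m : ℤ) : dst p q ≤ m ↔ (-m ≤ p.1 - q.1 ∧ p.1 - q.1 ≤ m) ∧
    (-m ≤ p.2 - q.2 ∧ p.2 - q.2 ≤ m) ∧
    (-m ≤ p.1 - q.1 + (p.2 - q.2) ∧ p.1 - q.1 + (p.2 - q.2) ≤ m) := by
  rw [dst, nrm, max_le_iff, max_le_iff, abs_le, abs_le, abs_le]
  rfl

/-- walks on the streets between crossings -/
theorem rt_main (L : ℕ) (x y x' y' m : ℤ) (hx : (L : ℤ) ∣ x) (hy : (L : ℤ) ∣ y)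
    (hx' : (L : ℤ) ∣ x') (hy' : (L : ℤ) ∣ y') (hm : dst (x', y') (x, y) ≤ m) :
    ∃ n : ℕ, (n : ℤ) ≤ m ∧ Rt L (x, y) (x', y') n 0 := by
  rw [lat_dst] at hm
  dsimp only at hm
  obtain ⟨⟨a1, a2⟩, ⟨b1, b2⟩, ⟨c1, c2⟩⟩ := hm
  have same : (((x' - x).natAbs + (y' - y).natAbs : ℕ) : ℤ) ≤ m →
      ∃ n : ℕ, (n : ℤ) ≤ m ∧ Rt L (x, y) (x', y') n 0 := fun h =>
    ⟨_, h, rt_append (rt_h L x x' y hy) (rt_v L x' y y' hx')⟩
  rcases le_total x x' with h1 | h1 <;> rcases le_total y y' with h2 | h2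
  · exact same (by omega)
  · rcases le_total (x' - x) (y - y') with h3 | h3
    · refine ⟨(x' - x).natAbs + (y' - (y - (x' - x))).natAbs, by omega, ?_⟩
      have e := rt_diag L x y (x' - x) (dvd_add hx hy)
      have e2 : x + (x' - x) = x' := by ring
      rw [e2] at e
      exact rt_append e (rt_v L x' _ y' hx')
    · refine ⟨(y - y').natAbs + (x' - (x + (y - y'))).natAbs, by omega, ?_⟩
      have e := rt_diag L x y (y - y') (dvd_add hx hy)
      have e2 : y - (y - y') = y' := by ring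
      rw [e2] at e
      exact rt_append e (rt_h L _ x' y' hy')
  · rcases le_total (x' - x) (y - y') with h3 | h3
    · refine ⟨(y - y').natAbs + (x' - (x + (y - y'))).natAbs, by omega, ?_⟩
      have e := rt_diag L x y (y - y') (dvd_add hx hy)
      have e2 : y - (y - y') = y' := by ring
      rw [e2] at e
      exact rt_append e (rt_h L _ x' y' hy')
    · refine ⟨(x' - x).natAbs + (y' - (y - (x' - x))).natAbs, by omega, ?_⟩
      have e := rt_diag L x y (x' - x) (dvd_add hx hy)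
      have e2 : x + (x' - x) = x' := by ring
      rw [e2] at e
      exact rt_append e (rt_v L x' _ y' hx')
  · exact same (by omega)

/-- to a crossing -/
theorem rt_off (L : ℕ) (p : Pt) (a b : ℕ) :
    Rt L p (p.1 - a, p.2 + b) (max a b) (max a b) := by
  rcases le_total a b with h | h
  · have h1 := rt_seg L p (-1, 1) (rt_d _ (by simp)) a
    have h2 := rt_seg L (p.1 + a * -1, p.2 + a * 1) (0, 1) (rt_d _ (by simp)) (b - a)
    refine rt_eq (rt_append h1 h2) ?_ ?_ (by omega) (by omega)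
    · show p.1 + a * -1 + ((b - a : ℕ) : ℤ) * 0 = p.1 - a
      omega
    · show p.2 + a * 1 + ((b - a : ℕ) : ℤ) * 1 = p.2 + b
      omega
  · have h1 := rt_seg L p (-1, 1) (rt_d _ (by simp)) b
    have h2 := rt_seg L (p.1 + b * -1, p.2 + b * 1) (-1, 0) (rt_d _ (by simp)) (a - b)
    refine rt_eq (rt_append h1 h2) ?_ ?_ (by omega) (by omega)
    · show p.1 + b * -1 + ((a - b : ℕ) : ℤ) * -1 = p.1 - a
      omega
    · show p.2 + b * 1 + ((a - b : ℕ) : ℤ) * 0 = p.2 + b
      omega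

/-- from a crossing -/
theorem rt_off' (L : ℕ) (p : Pt) (a b : ℕ) :
    Rt L p (p.1 + a, p.2 - b) (max a b) (max a b) := by
  rcases le_total a b with h | h
  · have h1 := rt_seg L p (1, -1) (rt_d _ (by simp)) a
    have h2 := rt_seg L (p.1 + a * 1, p.2 + a * -1) (0, -1) (rt_d _ (by simp)) (b - a)
    refine rt_eq (rt_append h1 h2) ?_ ?_ (by omega) (by omega)
    · show p.1 + a * 1 + ((b - a : ℕ) : ℤ) * 0 = p.1 + a
      omega
    · show p.2 + a * -1 + ((b - a : ℕ) : ℤ) * -1 = p.2 - b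
      omega
  · have h1 := rt_seg L p (1, -1) (rt_d _ (by simp)) b
    have h2 := rt_seg L (p.1 + b * 1, p.2 + b * -1) (1, 0) (rt_d _ (by simp)) (a - b)
    refine rt_eq (rt_append h1 h2) ?_ ?_ (by omega) (by omega)
    · show p.1 + b * 1 + ((a - b : ℕ) : ℤ) * 1 = p.1 + a
      omega
    · show p.2 + b * -1 + ((a - b : ℕ) : ℤ) * 0 = p.2 - b
      omega

theorem lat_near (w c p0 : Pt) (m : ℤ) (hc : c ∈ nbs w) (hw : dst w p0 ≤ m) :
    dst c p0 ≤ m + 1 := by
  rw [lat_dst] at hw ⊢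
  simp only [nbs, Finset.mem_insert, Finset.mem_singleton] at hc
  rcases hc with rfl | rfl | rfl | rfl | rfl | rfl <;> dsimp only <;> omega

theorem lat_self (p : Pt) : dst p p ≤ 0 := by
  rw [lat_dst]
  omega

open Classical in
/-- FIRE-M6 -/
theorem slat : SLat := by
  intro L hL p q
  have hL' : (0 : ℤ) < L := by exact_mod_cast hL
  -- the crossings
  have hp1 := Int.emod_nonneg p.1 hL'.ne'
  have hp1' := Int.emod_lt_of_pos p.1 hL'
  have hp2 := Int.emod_nonneg (-p.2) hL'.ne'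
  have hp2' := Int.emod_lt_of_pos (-p.2) hL'
  have hq1 := Int.emod_nonneg q.1 hL'.ne'
  have hq1' := Int.emod_lt_of_pos q.1 hL'
  have hq2 := Int.emod_nonneg (-q.2) hL'.ne'
  have hq2' := Int.emod_lt_of_pos (-q.2) hL'
  have ep1 := Int.dvd_sub_self_of_emod_eq (rfl : p.1 % (L : ℤ) = p.1 % L)
  have ep2 := Int.dvd_sub_self_of_emod_eq (rfl : -p.2 % (L : ℤ) = -p.2 % L)
  have eq1 := Int.dvd_sub_self_of_emod_eq (rfl : q.1 % (L : ℤ) = q.1 % L)
  have eq2 := Int.dvd_sub_self_of_emod_eq (rfl : -q.2 % (L : ℤ) = -q.2 % L)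
  set u := p.1 % (L : ℤ) with hu
  set v := -p.2 % (L : ℤ) with hv
  set u' := q.1 % (L : ℤ) with hu'
  set v' := -q.2 % (L : ℤ) with hv'
  have r1 := rt_off L p u.natAbs v.natAbs
  have r3 := rt_off' L (q.1 - u', q.2 + v') u'.natAbs v'.natAbs
  have hd : dst q p ≤ dst q p := le_rfl
  rw [lat_dst] at hd
  have hm : dst (q.1 - u', q.2 + v') (p.1 - u, p.2 + v) ≤ dst q p + 2 * (L - 1) := by
    rw [lat_dst]
    dsimp only
    omega
  obtain ⟨n, hn, r2⟩ := rt_main L (p.1 - u) (p.2 + v) (q.1 - u') (q.2 + v') _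
    (by
      obtain ⟨c, hc⟩ := ep1
      exact ⟨-c, by linarith⟩)
    (by
      obtain ⟨c, hc⟩ := ep2
      exact ⟨c, by linarith⟩)
    (by
      obtain ⟨c, hc⟩ := eq1
      exact ⟨-c, by linarith⟩)
    (by
      obtain ⟨c, hc⟩ := eq2
      exact ⟨c, by linarith⟩) hm
  have r1' : Rt L p (p.1 - u, p.2 + v) (max u.natAbs v.natAbs) (max u.natAbs v.natAbs) :=
    rt_eq r1 (by dsimp only; omega) (by dsimp only; omega) rfl rfl
  have r3' : Rt L (q.1 - u', q.2 + v') q (max u'.natAbs v'.natAbs) (max u'.natAbs v'.natAbs) :=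
    rt_eq r3 (by dsimp only; omega) (by dsimp only; omega) rfl rfl
  obtain ⟨x, x0, xm, xn, T, hT, xs⟩ := rt_fun (rt_append (rt_append r1' r2) r3')
  set m := max u.natAbs v.natAbs + n + max u'.natAbs v'.natAbs with hmd
  have hms : (m : ℤ) ≤ dst q p + 4 * (L - 1) := by
    omega
  refine ⟨m, x, x0, xm, xn, fun i hi => ?_, ?_⟩
  · have h1 : ∀ j ≤ m, dst (x j) p ≤ j := by
      intro j
      induction j with
      | zero =>
        intro _
        rw [x0]
        exact_mod_cast lat_self p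
      | succ j ih =>
        intro hj
        have h2 := lat_near _ _ _ _ (xn j (by omega)) (ih (by omega))
        push_cast
        exact h2
    have h2 := h1 i hi
    have h3 : (i : ℤ) ≤ m := by exact_mod_cast hi
    linarith
  · have h1 : ((Finset.range m).filter (fun i => ¬ Str L (x i) (x (i + 1)))).card ≤
        max u.natAbs v.natAbs + 0 + max u'.natAbs v'.natAbs := by
      refine (Finset.card_le_card ?_).trans hT
      intro i hi
      rw [Finset.mem_filter, Finset.mem_range] at hi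
      by_contra hc
      exact hi.2 (xs i hi.1 hc)
    have h2 : (((Finset.range m).filter (fun i => ¬ Str L (x i) (x (i + 1)))).card : ℤ) ≤
        2 * (L - 1) := by
      have h3 : (((Finset.range m).filter (fun i => ¬ Str L (x i) (x (i + 1)))).card : ℤ) ≤
        ((max u.natAbs v.natAbs + 0 + max u'.natAbs v'.natAbs : ℕ) : ℤ) := by exact_mod_cast h1
      refine h3.trans ?_
      omega
    linarith

end Pool.Agent.H58.FG
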