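import Pool.Agent.H13.FG.Defs
import Pool.Agent.H3.FF.Typ
import Pool.Agent.H3.FF.Fib
import Pool.Agent.FM.Defs

/-!
# MP_4c8b8e_co, project FIRE: metric block, definitions

The lattice `TL K H` as a simple graph, coarse vertices, fill structures, rings around the large
clusters, streets in charts.
-/

set_option autoImplicit false

namespace Pool.Agent.H58.FG

open Classical Pool.Agent.H3.FF CV TV Pool.Agent.FM

open Pool.Agent.H58.FF (Pt nbs dst nrm)

section

variable (K H : ℕ) [NeZero K]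

/-- the lattice as a graph -/
def TL : SimpleGraph (TV K H) where
  Adj := Ad
  symm := ⟨fun _ _ h => TV.Ad.symm h⟩
  loopless := ⟨fun f h => ad_irrefl f h⟩

/-- the coarse vertices -/
def Zc : Set (TV K H) := {f | ∃ c, f.1 c = H}

end

section

variable {K H L : ℕ} [NeZero K]

/-- far from the coarse vertices -/
def Far (R : ℕ) (f : TV K H) : Prop := ∀ c, f.1 c + 2 * R ≤ H

/-- the fill structure of a set of blocked points -/
def Fl (bl : Set (TV K H)) (m0 r : ℕ) : Fld (TV K H) := ⟨TL K H, bl, Zc K H, m0, r⟩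

/-- the points of the dust clusters that have a point at a distance between `r - b + 1` and
`r + b` from the large clusters and the coarse vertices -/
def rng (bl : Set (TV K H)) (m0 r b : ℕ) : Set (TV K H) :=
  {z | ∃ d, (Fl bl m0 r).dus d ∧ z ∈ d ∧ ∃ y ∈ d, y ∈ nbh (TL K H) (Fl bl m0 r).U (r + b) ∧
    y ∉ nbh (TL K H) (Fl bl m0 r).U (r - b)}

/-- the step from `p` to `q` is on a street (coordinates of a chart) -/
def Str (L : ℕ) (p q : Pt) : Prop :=
  (p.2 = q.2 ∧ (L : ℤ) ∣ p.2) ∨ (p.1 = q.1 ∧ (L : ℤ) ∣ p.1) ∨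
    (p.1 + p.2 = q.1 + q.2 ∧ (L : ℤ) ∣ p.1 + p.2)

/-- a chart that respects the streets -/
def ChS (L : ℕ) {p0 : Pt} {R : ℕ} (C : Chart K H p0 R) : Prop :=
  ∀ p q, dst p p0 ≤ R → dst q p0 ≤ R → q ∈ nbs p → Str L p q → Un L (C.φ p) (C.φ q)

end

end Pool.Agent.H58.FG
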