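import Pool.Agent.H58.FG.TStm

/-!
# MP_4c8b8e_co, project FIRE, row T24: few points outside `X` are not good
-/

set_option autoImplicit false

namespace Pool.Agent.H58.FG

open Classical Pool.Agent.H3.FF CV TV Pool.Agent.FM Pool.Agent.H13.FG

private theorem t24_walk {V : Type} {T : SimpleGraph V} {A c c' : Set V} (hc : Co T A c)
    (hc' : Co T A c') {x y : V} (w : T.Walk x y) (hw : ∀ z ∈ w.support, z ∈ c) (hx : x ∈ c') :
    y ∈ c' := by
  induction w with
  | nil => exact hx
  | cons h p ih =>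
    refine ih ?_ ?_
    · intro z hz
      refine hw z ?_
      rw [SimpleGraph.Walk.support_cons]
      exact List.mem_cons_of_mem _ hz
    · refine hc'.2.2 _ hx _ (hc.2.1 (hw _ ?_)) h
      rw [SimpleGraph.Walk.support_cons]
      exact List.mem_cons_of_mem _ p.start_mem_support

private theorem t24_sub {V : Type} {T : SimpleGraph V} {A c c' : Set V} (hc : Co T A c)
    (hc' : Co T A c') {x : V} (hx : x ∈ c) (hx' : x ∈ c') : c ⊆ c' := by
  intro y hy
  obtain ⟨w, hw⟩ := hc.1.2 x hx y hy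
  exact t24_walk hc hc' w hw hx'

/-- FIRE-T24: few points outside `X` are not good -/
theorem sngd (h : SFilA) : SNgd := by
  intro K H _ bl m0 r F0 hF
  set S : TV K H → Set (TV K H) := fun x =>
    {z | ∃ d, (Fl bl m0 r).dus d ∧ x ∈ d ∧ z ∈ (Fl bl m0 r).fil d} with hS
  have hcard : ∀ x, (S x).ncard ≤ F0 := by
    intro x
    by_cases hx : ∃ d, (Fl bl m0 r).dus d ∧ x ∈ d
    · obtain ⟨d, hd, hxd⟩ := hx
      refine le_trans (Set.ncard_le_ncard ?_ (Set.toFinite _)) (h (TV K H) _ F0 hF d hd).2.1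
      rintro z ⟨d', hd', hxd', hz⟩
      have e : d' = d := Set.Subset.antisymm (t24_sub hd'.1 hd.1 hxd' hxd)
        (t24_sub hd.1 hd'.1 hxd hxd')
      rw [← e]
      exact hz
    · have e : S x = ∅ := by
        rw [Set.eq_empty_iff_forall_notMem]
        rintro z ⟨d, hd, hxd, _⟩
        exact hx ⟨d, hd, hxd⟩
      rw [e, Set.ncard_empty]
      exact Nat.zero_le _
  have hsub : {z | z ∉ (Fl bl m0 r).X ∧ z ∉ (Fl bl m0 r).gd} ⊆
      ((bl.toFinset.biUnion fun x => (S x).toFinset : Finset (TV K H)) : Set (TV K H)) := by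
    rintro z ⟨h1, h2⟩
    have h3 : ∃ d, (Fl bl m0 r).dus d ∧ z ∈ (Fl bl m0 r).fil d := by
      by_contra h4
      push Not at h4
      exact h2 ⟨h1, h4⟩
    obtain ⟨d, hd, hz⟩ := h3
    obtain ⟨x, hx⟩ := hd.1.1.1
    rw [Finset.mem_coe, Finset.mem_biUnion]
    refine ⟨x, ?_, ?_⟩
    · rw [Set.mem_toFinset]
      exact hd.1.2.1 hx
    · rw [Set.mem_toFinset]
      exact ⟨d, hd, hx, hz⟩
  calc {z | z ∉ (Fl bl m0 r).X ∧ z ∉ (Fl bl m0 r).gd}.ncard
      ≤ (bl.toFinset.biUnion fun x => (S x).toFinset).card := by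
        rw [← Set.ncard_coe_finset]
        exact Set.ncard_le_ncard hsub (Finset.finite_toSet _)
    _ ≤ bl.toFinset.card * F0 := by
        refine Finset.card_biUnion_le_card_mul _ _ _ ?_
        intro x _
        rw [← Set.ncard_eq_toFinset_card']
        exact hcard x
    _ = F0 * bl.ncard := by
        rw [← Set.ncard_eq_toFinset_card', mul_comm]

end Pool.Agent.H58.FG
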