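import Pool.Agent.H58.FG.MStm
import Pool.Agent.H13.FG.Basic

/-!
# MP_4c8b8e_co, project FIRE: metric block, the cut of the neighbourhood of a connected set
-/

set_option autoImplicit false

open scoped BigOperators

namespace Pool.Agent.H58.FG

open Classical Pool.Agent.H3.FF CV TV Pool.Agent.FM Pool.Agent.H13.FG

section

variable {K H : ℕ} [NeZero K]

private theorem ngh_nr_of_walk {f g : TV K H} {r : ℕ} (w : (TL K H).Walk f g)
    (hw : w.length ≤ r) : Nr r f g := by
  refine ⟨fun i => w.getVert i, ?_, by simp, ?_⟩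
  · intro i _
    by_cases hi : i < w.length
    · exact Or.inr (w.adj_getVert_succ hi)
    · left
      show w.getVert i = w.getVert (i + 1)
      rw [w.getVert_of_length_le (by omega), w.getVert_of_length_le (by omega)]
  · show w.getVert r = g
    exact w.getVert_of_length_le hw

private theorem ngh_walk_of_nr {r : ℕ} : ∀ {f g : TV K H}, Nr r f g →
    ∃ w : (TL K H).Walk f g, w.length ≤ r := by
  induction r with
  | zero =>
      intro f g h
      have := nr_zero h
      subst this
      exact ⟨SimpleGraph.Walk.nil, by simp⟩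
  | succ r ih =>
      intro f g h
      obtain ⟨k, hk, he⟩ := nr_succ h
      obtain ⟨w, hw⟩ := ih hk
      rcases he with rfl | he
      · exact ⟨w, by omega⟩
      · have hadj : (TL K H).Adj k g := he
        exact ⟨w.concat hadj, by rw [SimpleGraph.Walk.length_concat]; omega⟩

/-- the neighbourhood as a finite set -/
private noncomputable def nghF (S : Finset (TV K H)) (r : ℕ) : Finset (TV K H) :=
  Finset.univ.filter (fun g => ∃ f ∈ S, Nr r f g)

private theorem ngh_mem (S : Finset (TV K H)) (r : ℕ) (g : TV K H) :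
    g ∈ nghF S r ↔ ∃ f ∈ S, Nr r f g := by
  simp [nghF]

private theorem ngh_insert (S : Finset (TV K H)) (r : ℕ) (f' : TV K H) :
    nghF (insert f' S) r = nghF S r ∪ Finset.univ.filter (fun g => Nr r f' g) := by
  ext g
  rw [Finset.mem_union, ngh_mem, ngh_mem, Finset.mem_filter]
  constructor
  · rintro ⟨f, hf, h⟩
    rw [Finset.mem_insert] at hf
    rcases hf with rfl | hf
    · exact Or.inr ⟨Finset.mem_univ _, h⟩
    · exact Or.inl ⟨f, hf, h⟩
  · rintro (⟨f, hf, h⟩ | ⟨_, h⟩)
    · exact ⟨f, Finset.mem_insert_of_mem hf, h⟩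
    · exact ⟨f', Finset.mem_insert_self _ _, h⟩

private theorem ngh_single (r : ℕ) (f : TV K H) :
    nghF {f} r = Finset.univ.filter (fun g => Nr r f g) := by
  ext g
  rw [ngh_mem, Finset.mem_filter]
  simp

private theorem ngh_cut_union (A B : Finset (TV K H)) : cut (A ∪ B) ≤ cut A + cut B := by
  unfold Pool.Agent.H13.FG.cut
  refine (Finset.card_le_card ?_).trans (Finset.card_union_le _ _)
  rintro ⟨f, g⟩ h
  simp only [Finset.mem_filter, Finset.mem_product, Finset.mem_union, Finset.mem_compl,
    not_or] at h ⊢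
  obtain ⟨⟨h1 | h1, h2, h3⟩, h4⟩ := h
  · exact Or.inl ⟨⟨h1, h2⟩, h4⟩
  · exact Or.inr ⟨⟨h1, h3⟩, h4⟩

private theorem ngh_cut_deg (B : Finset (TV K H)) (D : ℕ)
    (hD : ∀ z, ((TL K H).neighborSet z).ncard ≤ D) : cut B ≤ B.card * D := by
  unfold Pool.Agent.H13.FG.cut
  have h1 : (B ×ˢ Bᶜ).filter (fun p : TV K H × TV K H => Ad p.1 p.2) ⊆
      B.biUnion (fun f => ((Finset.univ : Finset (TV K H)).filter (fun g => Ad f g)).image
        (fun g => (f, g))) := by
    rintro ⟨f, g⟩ h
    simp only [Finset.mem_filter, Finset.mem_product] at h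
    rw [Finset.mem_biUnion]
    refine ⟨f, h.1.1, ?_⟩
    rw [Finset.mem_image]
    exact ⟨g, by simp [h.2], rfl⟩
  refine (Finset.card_le_card h1).trans ?_
  refine Finset.card_biUnion_le.trans ?_
  calc _ ≤ ∑ _f ∈ B, D := by
        refine Finset.sum_le_sum fun f _ => ?_
        refine Finset.card_image_le.trans ?_
        have h2 := hD f
        have h3 : ((TL K H).neighborSet f) =
            ((Finset.univ : Finset (TV K H)).filter (fun g => Ad f g) : Set (TV K H)) := by
          ext g
          simp only [SimpleGraph.mem_neighborSet, Finset.coe_filter, Finset.mem_univ, true_and,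
            Set.mem_ofPred_eq]
          rfl
        rw [h3, Set.ncard_coe_finset] at h2
        exact h2
    _ = B.card * D := by simp

private theorem ngh_cut_eq (d : Set (TV K H)) (r : ℕ) :
    FM.cut (TL K H) (nbh (TL K H) d r) (nbh (TL K H) d r)ᶜ =
      cut (nghF (Finset.univ.filter (fun f => f ∈ d)) r) := by
  have hmem : ∀ z, z ∈ nbh (TL K H) d r ↔
      z ∈ nghF (Finset.univ.filter (fun f => f ∈ d)) r := by
    intro z
    rw [ngh_mem]
    constructor
    · rintro ⟨u, hu, w, hw⟩
      exact ⟨u, by simpa using hu, ngh_nr_of_walk w hw⟩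
    · rintro ⟨u, hu, h⟩
      obtain ⟨w, hw⟩ := ngh_walk_of_nr h
      exact ⟨u, by simpa using hu, w, hw⟩
  unfold FM.cut Pool.Agent.H13.FG.cut
  rw [Nat.card_eq_fintype_card, Fintype.card_subtype]
  congr 1
  ext ⟨f, g⟩
  simp only [Finset.mem_filter, Finset.mem_univ, true_and, Finset.mem_product, Finset.mem_compl,
    Set.mem_compl_iff, hmem, and_assoc]
  rfl

private theorem ngh_far {r : ℕ} {f f' : TV K H} (h : Ad f f') (hf : Far (r + 4) f') :
    Far (r + 3) f := by
  intro c
  obtain ⟨c', d', h1, h2, h3⟩ := h.stp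
  have h4 := hf c
  by_cases e1 : c = c'
  · subst e1; omega
  · by_cases e2 : c = d'
    · subst e2; omega
    · have := h3 c e1 e2
      omega

end

theorem snghCut : SNghCutOf := by
  intro hSl hBC hB hDeg K r _
  obtain ⟨M, hM⟩ : ∃ M, M = (K + 6) * (K + 7) ^ r := ⟨_, rfl⟩
  refine ⟨M, ?_⟩
  intro H L hP d hd
  rw [ngh_cut_eq]
  have hdeg := (hDeg K H L hP).2.1
  have hball : ∀ f : TV K H, cut (Finset.univ.filter (fun g => Nr r f g)) ≤ M := by
    intro f
    refine (ngh_cut_deg _ _ hdeg).trans ?_
    rw [mul_comm, hM]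
    exact Nat.mul_le_mul_left _ (hB K H hP.hK f r)
  obtain ⟨⟨f0, hf0⟩, hcon⟩ := hd
  set D : Finset (TV K H) := Finset.univ.filter (fun f => f ∈ d) with hD
  have hcard : d.ncard = D.card := by
    rw [← Set.ncard_coe_finset]
    congr 1
    ext f
    simp [hD]
  have hcard' : {f | f ∈ d ∧ ¬ Far (r + 4) f}.ncard =
      (D.filter (fun f => ¬ Far (r + 4) f)).card := by
    rw [← Set.ncard_coe_finset]
    congr 1
    ext f
    simp [hD]
  rw [hcard, hcard']
  -- the good sets
  set Pr : Finset (TV K H) → Prop := fun S => f0 ∈ S ∧ S ⊆ D ∧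
    cut (nghF S r) ≤ 4 * S.card + 24 * r + 6 + M *
      (S.filter (fun f => ¬ Far (r + 4) f)).card with hPr
  have h0 : Pr {f0} := by
    refine ⟨by simp, by simpa [hD] using hf0, ?_⟩
    rw [ngh_single]
    by_cases hfar : Far (r + 4) f0
    · have := hBC K H L hP r f0 hfar
      omega
    · have h1 := hball f0
      have h2 : (({f0} : Finset (TV K H)).filter (fun f => ¬ Far (r + 4) f)).card = 1 := by
        rw [Finset.filter_singleton, if_pos hfar, Finset.card_singleton]
      rw [h2]
      omega
  obtain ⟨S, hS, hmax⟩ : ∃ S, Pr S ∧ ∀ S', Pr S' → S'.card ≤ S.card := by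
    have hne : ((Finset.univ : Finset (Finset (TV K H))).filter Pr).Nonempty :=
      ⟨{f0}, by simpa using h0⟩
    obtain ⟨S, hS, hm⟩ := Finset.exists_max_image _ Finset.card hne
    refine ⟨S, by simpa using hS, fun S' hS' => hm S' (by simpa using hS')⟩
  obtain ⟨hfS, hSD, hcut⟩ := hS
  have hSeq : S = D := by
    by_contra hne
    obtain ⟨b, hbD, hbS⟩ : ∃ b ∈ D, b ∉ S := by
      by_contra hcon'
      push Not at hcon'
      exact hne (Finset.Subset.antisymm hSD hcon')
    have hbd : b ∈ d := by simpa [hD] using hbD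
    obtain ⟨w, hw⟩ := hcon f0 hf0 b hbd
    -- a crossing edge
    have hcross : ∀ {a c : TV K H} (w : (TL K H).Walk a c), (∀ z ∈ w.support, z ∈ d) →
        a ∈ S → c ∉ S → ∃ f ∈ S, ∃ f', f' ∈ d ∧ f' ∉ S ∧ Ad f f' := by
      intro a c w
      induction w with
      | nil => intro _ h1 h2; exact absurd h1 h2
      | @cons a b c h w ih =>
          intro hs h1 h2
          have hbd' : b ∈ d := hs b (by simp [SimpleGraph.Walk.support_cons])
          by_cases hb : b ∈ S
          · refine ih (fun z hz => hs z ?_) hb h2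
            rw [SimpleGraph.Walk.support_cons, List.mem_cons]
            exact Or.inr hz
          · exact ⟨a, h1, b, hbd', hb, h⟩
    obtain ⟨f, hf, f', hf'd, hf'S, hadj⟩ := hcross w hw hfS hbS
    have hnew : Pr (insert f' S) := by
      refine ⟨Finset.mem_insert_of_mem hfS, ?_, ?_⟩
      · intro z hz
        rw [Finset.mem_insert] at hz
        rcases hz with rfl | hz
        · simpa [hD] using hf'd
        · exact hSD hz
      · rw [ngh_insert, Finset.card_insert_of_notMem hf'S, Finset.filter_insert]
        by_cases hfar : Far (r + 4) f'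
        · have h1 := hSl K H L hP r f f' (ngh_far hadj hfar) hadj (nghF S r)
            (fun g hg => (ngh_mem S r g).2 ⟨f, hf, hg⟩)
          rw [if_neg (by simpa using hfar)]
          omega
        · rw [if_pos hfar, Finset.card_insert_of_notMem (by simp [hf'S])]
          have h1 := ngh_cut_union (nghF S r) (Finset.univ.filter (fun g => Nr r f' g))
          have h2 := hball f'
          have h3 : M * ((S.filter (fun f => ¬ Far (r + 4) f)).card + 1) =
            M * (S.filter (fun f => ¬ Far (r + 4) f)).card + M := by ring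
          rw [h3]
          omega
    have h1 := hmax _ hnew
    rw [Finset.card_insert_of_notMem hf'S] at h1
    omega
  rw [hSeq] at hcut
  exact hcut

end Pool.Agent.H58.FG
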