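import Pool.Agent.H58.FG.MStm
import Pool.Agent.H3.FF.Cnt

/-!
# MP_4c8b8e_co, FIRE-M14: few points are near the coarse vertices
-/

set_option autoImplicit false

open scoped BigOperators

namespace Pool.Agent.H58.FG

open Classical Pool.Agent.H3.FF CV TV Pool.Agent.FM

/-- Row FIRE-M14. -/
theorem snotFar : SNotFar := by
  intro K R _
  refine ⟨24 * K * R ^ 2, ?_⟩
  intro H L g
  have hsub : {f : TV K H | ¬ Far R f} ⊆
      {f : TV K H | ∃ z : Bool × ZMod K × Fin 3, Sp z.1 z.2.1 f.1 ∧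
        f.1 (vx z z.2.2) ∈ Finset.range (2 * R) ∧
        f.1 (vx z (z.2.2 + 1)) ∈ Finset.range (2 * R)} := by
    intro f hf
    have hle : ∀ e, f.1 e < H + 1 := by
      intro e
      have h1 : f.1 e ≤ ∑ c, f.1 c := Finset.single_le_sum (fun _ _ => Nat.zero_le _)
        (Finset.mem_univ e)
      have h2 := f.2.1
      omega
    have h : ¬ ∀ u, f.1 u + 2 * R ≤ H := hf
    push Not at h
    obtain ⟨u, hu⟩ := h
    obtain ⟨b, i, hs⟩ := f.2.2
    obtain ⟨j, hj⟩ : ∃ j : Fin 3, ∀ j', j' ≠ j → f.1 (vx (b, i, j) j') < 2 * R := by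
      by_cases hub : fc b i u
      · obtain ⟨j, hj⟩ := vx_ex hub 0
        refine ⟨j, fun j' hj' => ?_⟩
        have h5 : f.1 (vx (b, i, j) j') + f.1 u ≤ H := by
          have hne : vx (b, i, j) j' ≠ u := by
            rw [← hj]
            exact vx_ne g (b, i, j) hj'
          obtain ⟨k, hk, h6, h7⟩ := fc_third g.hK (vx_fc (b, i, j) j') hub hne
          have := sum_H g f hs (vx_fc (b, i, j) j') hub hk hne h6 h7
          omega
        omega
      · refine ⟨0, fun j' _ => ?_⟩
        have h5 := hs u hub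
        have h6 := hle (vx (b, i, 0) j')
        omega
    have e1 : ∀ j : Fin 3, j + 1 ≠ j := by decide
    have e2 : ∀ j : Fin 3, j + 1 + 1 ≠ j := by decide
    exact ⟨(b, i, j + 1), hs, Finset.mem_range.2 (hj _ (e1 j)), Finset.mem_range.2 (hj _ (e2 j))⟩
  refine (Set.ncard_le_ncard hsub (Set.toFinite _)).trans ((card_code g _ _).trans ?_)
  rw [Finset.card_range]
  exact le_of_eq (by ring)

end Pool.Agent.H58.FG
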