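import Pool.Agent.H58.FG.MStm

/-!
# MP_4c8b8e_co, project FIRE: metric block, row M18, the number of components of the large clusters
-/

set_option autoImplicit false

namespace Pool.Agent.H58.FG

open Classical Pool.Agent.H3.FF CV TV Pool.Agent.FM Pool.Agent.H13.FG

/-- numbering of a finite set -/
private theorem num_enum {α : Type} [Finite α] (A : Set α) {n : ℕ} (h : A.ncard ≤ n) :
    ∃ g : α → ℕ, (∀ a ∈ A, g a < n) ∧ Set.InjOn g A := by
  have e := Finite.equivFin A
  refine ⟨fun a => if h : a ∈ A then (e ⟨a, h⟩).val else 0, fun a ha => ?_, ?_⟩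
  · simp only [ha, dif_pos]
    have h1 := (e ⟨a, ha⟩).isLt
    exact h1.trans_le ((Nat.card_coe_set_eq A).le.trans h)
  · intro a ha b hb hab
    simp only [ha, hb, dif_pos] at hab
    have h1 := e.injective (Fin.ext hab)
    exact congrArg Subtype.val h1

theorem snum (h : SDeg) : SNum := by
  intro K H L _ hP bl m0 r
  obtain ⟨-, -, hZ, -⟩ := h K H L hP
  obtain ⟨g1, h1, h2⟩ := num_enum {d | (Fl bl m0 r).big d} le_rfl
  obtain ⟨g2, h3, h4⟩ := num_enum (Zc K H) hZ
  have hK := hP.hK
  obtain ⟨F, hF, hF1, hF2⟩ : ∃ F : TV K H → ℕ,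
      (∀ x, F x < {d | (Fl bl m0 r).big d}.ncard + K + 2) ∧
      (∀ x, (∃ d, (Fl bl m0 r).big d ∧ x ∈ d) → ∃ d, (Fl bl m0 r).big d ∧ x ∈ d ∧ F x = g1 d) ∧
      ∀ x, (¬ ∃ d, (Fl bl m0 r).big d ∧ x ∈ d) → x ∈ Zc K H →
        F x = {d | (Fl bl m0 r).big d}.ncard + g2 x := by
    refine ⟨fun x => if hx : ∃ d, (Fl bl m0 r).big d ∧ x ∈ d then g1 hx.choose else
      if x ∈ Zc K H then {d | (Fl bl m0 r).big d}.ncard + g2 x else 0, fun x => ?_, fun x hx => ?_,
      fun x hx hz => ?_⟩
    · by_cases hx : ∃ d, (Fl bl m0 r).big d ∧ x ∈ d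
      · simp only [hx, dif_pos]
        have := h1 _ hx.choose_spec.1
        omega
      · simp only [hx, dif_neg, not_false_eq_true]
        by_cases hz : x ∈ Zc K H
        · rw [if_pos hz]
          have := h3 x hz
          omega
        · rw [if_neg hz]
          omega
    · refine ⟨hx.choose, hx.choose_spec.1, hx.choose_spec.2, ?_⟩
      simp only [hx, dif_pos]
    · simp only [hx, dif_neg, not_false_eq_true, if_pos hz]
  refine ⟨fun x => ⟨F x, hF x⟩, fun x y hx hy hxy => ?_⟩
  have hxy' : F x = F y := congrArg Fin.val hxy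
  by_cases bx : ∃ d, (Fl bl m0 r).big d ∧ x ∈ d
  · obtain ⟨d, d1, d2, d3⟩ := hF1 x bx
    by_cases by' : ∃ d, (Fl bl m0 r).big d ∧ y ∈ d
    · obtain ⟨d', e1, e2, e3⟩ := hF1 y by'
      rw [d3, e3] at hxy'
      have hd : d = d' := h2 d1 e1 hxy'
      subst hd
      obtain ⟨w, hw⟩ := d1.1.1.2 x d2 y e2
      exact ⟨w, fun z hz => Or.inr ⟨d, d1, hw z hz⟩⟩
    · exfalso
      rcases hy with hy | hy
      · have e1 := hF2 y by' hy
        have e2 := h1 d d1
        omega
      · exact by' hy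
  · have hx' : x ∈ Zc K H := by
      rcases hx with hx | hx
      · exact hx
      · exact absurd hx bx
    have e1 := hF2 x bx hx'
    by_cases by' : ∃ d, (Fl bl m0 r).big d ∧ y ∈ d
    · exfalso
      obtain ⟨d', d1, -, e3⟩ := hF1 y by'
      have e2 := h1 d' d1
      omega
    · have hy' : y ∈ Zc K H := by
        rcases hy with hy | hy
        · exact hy
        · exact absurd hy by'
      have e2 := hF2 y by' hy'
      have e3 : x = y := h4 hx' hy' (by omega)
      subst e3
      refine ⟨SimpleGraph.Walk.nil, fun z hz => ?_⟩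
      rw [SimpleGraph.Walk.support_nil, List.mem_singleton] at hz
      rw [hz]
      exact hx

end Pool.Agent.H58.FG
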