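import Pool.Agent.H58.FG.MStm

/-!
# MP_4c8b8e_co, project FIRE: choice of the size of the large clusters (FIRE-M17)
-/

set_option autoImplicit false

namespace Pool.Agent.H58.FG

open Classical Pool.Agent.H3.FF Pool.Agent.FM

private lemma pig_walk {V : Type} {T : SimpleGraph V} {A c : Set V}
    (hc : ∀ a ∈ c, ∀ b ∈ A, T.Adj a b → b ∈ c) : ∀ {x y : V} (w : T.Walk x y), x ∈ c →
    (∀ z ∈ w.support, z ∈ A) → y ∈ c := by
  intro x y w
  induction w with
  | nil => exact fun hx _ => hx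
  | cons h w ih =>
    intro hx hw
    refine ih (hc _ hx _ ?_ h) fun z hz => hw z ?_
    · exact hw _ (by
        rw [SimpleGraph.Walk.support_cons]
        exact List.mem_cons_of_mem _ w.start_mem_support)
    · rw [SimpleGraph.Walk.support_cons]
      exact List.mem_cons_of_mem _ hz

private lemma pig_eq {V : Type} {T : SimpleGraph V} {A c c' : Set V} (h : Co T A c)
    (h' : Co T A c') {z : V} (hz : z ∈ c) (hz' : z ∈ c') : c = c' := by
  have key : ∀ c c' : Set V, Co T A c → Co T A c' → z ∈ c → z ∈ c' → c ⊆ c' := by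
    intro c c' h h' hz hz' x hx
    obtain ⟨w, hw⟩ := h.1.2 z hz x hx
    exact pig_walk h'.2.2 w hz' fun y hy => h.2.1 (hw y hy)
  exact (key c c' h h' hz hz').antisymm (key c' c h' h hz' hz)

private lemma pig_ncard {V : Type} [Fintype V] (d : Set V) :
    d.ncard = ∑ z : V, if z ∈ d then 1 else 0 := by
  rw [Set.ncard_eq_toFinset_card', Finset.card_eq_sum_ones, ← Finset.sum_filter]
  refine Finset.sum_congr ?_ fun _ _ => rfl
  ext z
  simp

private lemma pig_total {V : Type} [Fintype V] (T : SimpleGraph V) (bl : Set V)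
    (C : Finset (Set V)) (hC : ∀ d ∈ C, Co T bl d) : ∑ d ∈ C, d.ncard ≤ bl.ncard := by
  have h1 : ∑ d ∈ C, d.ncard = ∑ z : V, ∑ d ∈ C, if z ∈ d then 1 else 0 := by
    rw [Finset.sum_comm]
    exact Finset.sum_congr rfl fun d _ => pig_ncard d
  rw [h1, pig_ncard bl]
  refine Finset.sum_le_sum fun z _ => ?_
  rw [← Finset.sum_filter, ← Finset.card_eq_sum_ones]
  split_ifs with hz
  · rw [Finset.card_le_one]
    intro a ha b hb
    rw [Finset.mem_filter] at ha hb
    exact pig_eq (hC a ha.1) (hC b hb.1) ha.2 hb.2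
  · rw [Nat.le_zero, Finset.card_eq_zero, Finset.filter_eq_empty_iff]
    intro d hd hzd
    exact hz ((hC d hd).2.1 hzd)

private lemma pig_main {V : Type} [Fintype V] (T : SimpleGraph V) (bl : Set V) (N Q m : ℕ)
    (hN : 0 < N) (hQ : 0 < Q) : ∃ i < N,
    N * Q * (m * Q ^ i) * {d | Co T bl d ∧ m * Q ^ i < d.ncard}.ncard ≤ (N + Q) * bl.ncard := by
  set C : Finset (Set V) := (Set.toFinite {d | Co T bl d}).toFinset with hC
  have hCm : ∀ d, d ∈ C ↔ Co T bl d := fun d => by
    rw [hC, Set.Finite.mem_toFinset]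
    rfl
  let mid : ℕ → Finset (Set V) := fun i =>
    C.filter fun d => m * Q ^ i < d.ncard ∧ d.ncard ≤ m * Q ^ (i + 1)
  let lar : ℕ → Finset (Set V) := fun i => C.filter fun d => m * Q ^ (i + 1) < d.ncard
  have hmass : ∑ i ∈ Finset.range N, ∑ d ∈ mid i, d.ncard ≤ bl.ncard := by
    refine le_trans ?_ (pig_total T bl C fun d hd => (hCm d).1 hd)
    simp only [mid, Finset.sum_filter]
    rw [Finset.sum_comm]
    refine Finset.sum_le_sum fun d _ => ?_
    rw [← Finset.sum_filter, Finset.sum_const, smul_eq_mul]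
    have hone : ((Finset.range N).filter fun i => m * Q ^ i < d.ncard ∧
        d.ncard ≤ m * Q ^ (i + 1)).card ≤ 1 := by
      rw [Finset.card_le_one]
      intro a ha b hb
      rw [Finset.mem_filter] at ha hb
      by_contra hne
      rcases Nat.lt_or_gt_of_ne hne with h | h
      · have h1 : m * Q ^ (a + 1) ≤ m * Q ^ b := Nat.mul_le_mul_left _ (Nat.pow_le_pow_right hQ h)
        omega
      · have h1 : m * Q ^ (b + 1) ≤ m * Q ^ a := Nat.mul_le_mul_left _ (Nat.pow_le_pow_right hQ h)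
        omega
    calc _ ≤ 1 * d.ncard := Nat.mul_le_mul_right _ hone
      _ = d.ncard := one_mul _
  obtain ⟨i, hi, hNi⟩ : ∃ i ∈ Finset.range N, N * ∑ d ∈ mid i, d.ncard ≤ bl.ncard := by
    by_contra hcon
    push Not at hcon
    have h1 : ∑ i ∈ Finset.range N, bl.ncard < ∑ i ∈ Finset.range N, N * ∑ d ∈ mid i, d.ncard :=
      Finset.sum_lt_sum_of_nonempty ⟨0, Finset.mem_range.2 hN⟩ hcon
    rw [← Finset.mul_sum, Finset.sum_const, Finset.card_range, smul_eq_mul] at h1
    exact absurd (Nat.mul_le_mul_left N hmass) (not_le.2 h1)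
  refine ⟨i, Finset.mem_range.1 hi, ?_⟩
  have hbig : {d | Co T bl d ∧ m * Q ^ i < d.ncard}.ncard ≤ (mid i).card + (lar i).card := by
    refine le_trans ?_ (Finset.card_union_le _ _)
    rw [← Set.ncard_coe_finset]
    refine Set.ncard_le_ncard ?_ (Finset.finite_toSet _)
    rintro d ⟨h1, h2⟩
    rw [Finset.mem_coe, Finset.mem_union, Finset.mem_filter, Finset.mem_filter]
    by_cases h3 : d.ncard ≤ m * Q ^ (i + 1)
    · exact Or.inl ⟨(hCm d).2 h1, h2, h3⟩
    · exact Or.inr ⟨(hCm d).2 h1, not_le.1 h3⟩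
  have hmid : m * Q ^ i * (mid i).card ≤ ∑ d ∈ mid i, d.ncard := by
    rw [mul_comm, ← smul_eq_mul, ← Finset.sum_const]
    exact Finset.sum_le_sum fun d hd => (Finset.mem_filter.1 hd).2.1.le
  have hlar : Q * (m * Q ^ i) * (lar i).card ≤ bl.ncard := by
    have h1 : m * Q ^ (i + 1) * (lar i).card ≤ ∑ d ∈ lar i, d.ncard := by
      rw [mul_comm, ← smul_eq_mul, ← Finset.sum_const]
      exact Finset.sum_le_sum fun d hd => (Finset.mem_filter.1 hd).2.le
    have h2 : ∑ d ∈ lar i, d.ncard ≤ bl.ncard :=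
      pig_total T bl (lar i) fun d hd => (hCm d).1 (Finset.mem_filter.1 hd).1
    have h3 : Q * (m * Q ^ i) = m * Q ^ (i + 1) := by ring
    rw [h3]
    exact h1.trans h2
  calc N * Q * (m * Q ^ i) * {d | Co T bl d ∧ m * Q ^ i < d.ncard}.ncard
      ≤ N * Q * (m * Q ^ i) * ((mid i).card + (lar i).card) := Nat.mul_le_mul_left _ hbig
    _ = Q * (N * (m * Q ^ i * (mid i).card)) + N * (Q * (m * Q ^ i) * (lar i).card) := by ring
    _ ≤ Q * bl.ncard + N * bl.ncard :=
      Nat.add_le_add (Nat.mul_le_mul_left _ ((Nat.mul_le_mul_left _ hmid).trans hNi))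
        (Nat.mul_le_mul_left _ hlar)
    _ = (N + Q) * bl.ncard := by ring

/-- FIRE-M17: choice of the size of the large clusters -/
theorem spig : SPig := by
  intro K H L _ _ bl N Q m hN hQ _
  have : Fintype (TV K H) := Fintype.ofFinite _
  obtain ⟨i, hi, h⟩ := pig_main (TL K H) bl N Q m hN hQ
  exact ⟨i, hi, fun r => h⟩

end Pool.Agent.H58.FG
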