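import Pool.Agent.H58.FG.MStm

/-!
# MP_4c8b8e_co, project FIRE: metric block, M23, the dust near the border of `X`
-/

set_option autoImplicit false

namespace Pool.Agent.H58.FG

open Classical Pool.Agent.H3.FF CV TV Pool.Agent.FM

theorem rg_trans {V : Type} {T : SimpleGraph V} {U : Set V} {n m N : ℕ} {a y : V}
    (h : a ∈ nbh T U n) (w : T.Walk a y) (hw : w.length ≤ m) (hN : n + m ≤ N) :
    y ∈ nbh T U N := by
  obtain ⟨u, hu, w1, h1⟩ := h
  refine ⟨u, hu, w1.append w, ?_⟩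
  rw [SimpleGraph.Walk.length_append]
  omega

theorem rg_path {V : Type} [Finite V] {T : SimpleGraph V} {d : Set V} {a b : V} (w : T.Walk a b)
    (hw : ∀ z ∈ w.support, z ∈ d) : ∃ w' : T.Walk a b, w'.length + 1 ≤ d.ncard := by
  refine ⟨w.bypass, ?_⟩
  have h1 : w.bypass.support.Nodup := w.bypass_isPath.support_nodup
  have h2 : ∀ z ∈ w.bypass.support, z ∈ d := fun z hz => hw z (w.support_bypass_subset_support hz)
  have h3 : (w.bypass.support.toFinset : Set V) ⊆ d := by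
    intro z hz
    rw [Finset.mem_coe, List.mem_toFinset] at hz
    exact h2 z hz
  have h4 := Set.ncard_le_ncard h3 (Set.toFinite d)
  rw [Set.ncard_coe_finset, List.toFinset_card_of_nodup h1,
    SimpleGraph.Walk.length_support] at h4
  exact h4

/-- FIRE-M23: the dust near the border of `X` is in the ring -/
theorem sring (h : SFilD) : SRing := by
  intro K H L _ _ bl m0 r F0 D hOk hr
  obtain ⟨h1, h2, h3⟩ := h (TV K H) (Fl bl m0 r) F0 hOk
  change ∀ d, (Fl bl m0 r).att d → (d ∩ nbh (TL K H) (Fl bl m0 r).U (r + 1)).Nonempty at h1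
  change ∀ z ∈ (Fl bl m0 r).X, ∀ x, x ∉ (Fl bl m0 r).X → (TL K H).Adj z x →
    z ∈ nbh (TL K H) (Fl bl m0 r).U (r + 1 + m0) at h2
  change ∀ z ∈ (Fl bl m0 r).X, ∀ x, x ∉ (Fl bl m0 r).X → (TL K H).Adj z x →
    ∀ r', r' < r → z ∉ nbh (TL K H) (Fl bl m0 r).U r' at h3
  constructor
  · rintro z ⟨d, hd, hz, y, hy, u, hu, w0, hw0⟩
    obtain ⟨w, hw⟩ : ∃ w : (TL K H).Walk u y, w.length ≤ D := ⟨w0, hw0⟩
    refine ⟨d, hd, hz, y, hy, ?_⟩
    rcases hu with ⟨hu, a, ha, hua⟩ | ⟨hu, a, ha, hua⟩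
    · have e1 := h2 a ha u hu hua.symm
      refine ⟨rg_trans e1 (SimpleGraph.Walk.cons hua.symm w) (m := D + 1) ?_ (by omega), ?_⟩
      · rw [SimpleGraph.Walk.length_cons]
        omega
      · intro e2
        refine h3 a ha u hu hua.symm (r - (m0 + D + 3) + (D + 1)) (by omega) ?_
        refine rg_trans e2 (SimpleGraph.Walk.cons hua.symm w).reverse (m := D + 1) ?_ le_rfl
        rw [SimpleGraph.Walk.length_reverse, SimpleGraph.Walk.length_cons]
        omega
    · have e1 := h2 u hu a ha hua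
      refine ⟨rg_trans e1 w (m := D) hw (by omega), ?_⟩
      intro e2
      refine h3 u hu a ha hua (r - (m0 + D + 3) + D) (by omega) ?_
      refine rg_trans e2 w.reverse (m := D) ?_ le_rfl
      rw [SimpleGraph.Walk.length_reverse]
      exact hw
  · rintro z ⟨⟨d, hd, hz⟩, hzn⟩
    obtain ⟨y, hy, hyn⟩ := h1 d hd
    obtain ⟨w, hw⟩ : ∃ w : (TL K H).Walk y z, ∀ z ∈ w.support, z ∈ d := hd.1.1.1.2 y hy z hz
    obtain ⟨w', hw'⟩ := rg_path w hw
    have hc : d.ncard ≤ m0 := hd.1.2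
    refine ⟨d, hd.1, hz, z, hz, ?_, ?_⟩
    · exact rg_trans hyn w' (m := m0) (by omega) (by omega)
    · rintro ⟨v, hv, w1, hw1⟩
      exact hzn ⟨v, hv, w1, by omega⟩

end Pool.Agent.H58.FG
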