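import Pool.Agent.H58.FG.MStm

/-!
# MP_4c8b8e_co, project FIRE: averaging the ring over the radius (FIRE-M16)
-/

set_option autoImplicit false

namespace Pool.Agent.H58.FG

open Classical Pool.Agent.H3.FF CV TV Pool.Agent.FM Pool.Agent.H13.FG

open Pool.Agent.H58.FF (Pt nbs dst nrm)

namespace RA

variable {V : Type} {T : SimpleGraph V}

theorem co_mem {B d : Set V} (hd : Co T B d) {a b : V} (w : T.Walk a b) (ha : a ∈ d)
    (hw : ∀ z ∈ w.support, z ∈ B) : b ∈ d := by
  induction w with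
  | nil => exact ha
  | cons h w ih =>
    apply ih
    · refine hd.2.2 _ ha _ (hw _ ?_) h
      simp
    · intro z hz
      exact hw z (by simp [hz])

theorem co_sub {B d d' : Set V} (hd : Co T B d) (hd' : Co T B d') {z : V} (hz : z ∈ d)
    (hz' : z ∈ d') : d' ⊆ d := by
  intro y hy
  obtain ⟨w, hw⟩ := hd'.1.2 z hz' y hy
  exact co_mem hd w hz (fun x hx => hd'.2.1 (hw x hx))

theorem co_uniq {B d d' : Set V} (hd : Co T B d) (hd' : Co T B d') {z : V} (hz : z ∈ d)
    (hz' : z ∈ d') : d' = d :=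
  Set.Subset.antisymm (co_sub hd hd' hz hz') (co_sub hd' hd hz' hz)

theorem walk_len {d : Set V} [Finite V] {a b : V} (w : T.Walk a b)
    (hw : ∀ z ∈ w.support, z ∈ d) : ∃ w' : T.Walk a b, w'.length + 1 ≤ d.ncard := by
  refine ⟨w.bypass, ?_⟩
  have h1 : w.bypass.support.Nodup := (w.bypass_isPath).support_nodup
  have h2 : w.bypass.support.toFinset.card = w.bypass.length + 1 := by
    rw [List.toFinset_card_of_nodup h1, SimpleGraph.Walk.length_support]
  have h3 : (↑(w.bypass.support.toFinset) : Set V) ⊆ d := by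
    intro z hz
    simp only [List.coe_toFinset, Set.mem_ofPred_eq] at hz
    exact hw z (w.support_bypass_subset_support hz)
  have h4 := Set.ncard_le_ncard h3 (Set.toFinite d)
  rw [Set.ncard_coe_finset, h2] at h4
  exact h4

end RA

theorem srngAvg (h : SDeg) : SRngAvg := by
  intro K H L _ g bl m0 b R1 R2
  obtain ⟨hpc, -, -, hZ⟩ := h K H L g
  set U : Set (TV K H) := (Fl bl m0 0).U with hU
  have hUr : ∀ r, (Fl bl m0 r).U = U := fun r => rfl
  obtain ⟨u0, hu0⟩ := hZ
  have hu0' : u0 ∈ U := Or.inl hu0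
  have hex : ∀ y, ∃ n, y ∈ nbh (TL K H) U n := by
    intro y
    obtain ⟨w⟩ := hpc u0 y
    exact ⟨w.length, u0, hu0', w, le_rfl⟩
  let δ : TV K H → ℕ := fun y => Nat.find (hex y)
  have hδ1 : ∀ y, y ∈ nbh (TL K H) U (δ y) := fun y => Nat.find_spec (hex y)
  have hδ2 : ∀ y n, y ∈ nbh (TL K H) U n → δ y ≤ n := fun y n hn => Nat.find_min' (hex y) hn
  have hδ3 : ∀ y n, δ y ≤ n → y ∈ nbh (TL K H) U n := by
    intro y n hn
    obtain ⟨u, hu, w, hw⟩ := hδ1 y
    exact ⟨u, hu, w, hw.trans hn⟩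
  have hδ4 : ∀ y y' (w : (TL K H).Walk y y'), δ y' ≤ δ y + w.length := by
    intro y y' w
    apply hδ2
    obtain ⟨u, hu, v, hv⟩ := hδ1 y
    refine ⟨u, hu, v.append w, ?_⟩
    rw [SimpleGraph.Walk.length_append]
    omega
  -- the count for one point
  have key : ∀ z, ((Finset.Ico R1 R2).filter (fun r => z ∈ rng bl m0 r b)).card ≤ m0 + 2 * b := by
    intro z
    rcases ((Finset.Ico R1 R2).filter (fun r => z ∈ rng bl m0 r b)).eq_empty_or_nonempty with
      he | ⟨r0, hr0⟩
    · rw [he]; simp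
    obtain ⟨-, hr0⟩ := Finset.mem_filter.1 hr0
    obtain ⟨d, hd, hzd, -⟩ := hr0
    have hfin : d.Finite := Set.toFinite d
    obtain ⟨y1, hy1, hmin⟩ := Set.exists_min_image d δ hfin ⟨z, hzd⟩
    obtain ⟨y2, hy2, hmax⟩ := Set.exists_max_image d δ hfin ⟨z, hzd⟩
    obtain ⟨w, hw⟩ := hd.1.1.2 y1 hy1 y2 hy2
    obtain ⟨w', hw'⟩ := RA.walk_len w hw
    have h2 : d.ncard ≤ m0 := hd.2
    have h1 : δ y2 + 1 ≤ δ y1 + m0 := by
      have h3 : δ y2 ≤ δ y1 + w'.length := hδ4 y1 y2 w'
      have h4 : w'.length + 1 ≤ m0 := hw'.trans h2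
      exact (Nat.add_le_add_right h3 1).trans (by rw [add_assoc]; exact Nat.add_le_add_left h4 _)
    have hsub : ((Finset.Ico R1 R2).filter (fun r => z ∈ rng bl m0 r b)) ⊆
        Finset.Ico (δ y1 - b) (δ y2 + b) := by
      intro r hr
      obtain ⟨-, hr⟩ := Finset.mem_filter.1 hr
      obtain ⟨d', hd', hzd', y, hy, hyin, hyout⟩ := hr
      have hdd : d' = d := RA.co_uniq hd.1 hd'.1 hzd hzd'
      subst hdd
      have h3 : δ y ≤ r + b := hδ2 y _ hyin
      have h4 : ¬ δ y ≤ r - b := fun hh => hyout (hδ3 y _ hh)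
      have h5 := hmin y hy
      have h6 := hmax y hy
      rw [Finset.mem_Ico]
      omega
    refine (Finset.card_le_card hsub).trans ?_
    rw [Nat.card_Ico]
    omega
  -- double counting
  have hblfin : bl.Finite := Set.toFinite bl
  have hrng : ∀ r, (rng bl m0 r b).ncard =
      (hblfin.toFinset.filter (fun z => z ∈ rng bl m0 r b)).card := by
    intro r
    rw [← Set.ncard_coe_finset]
    congr 1
    ext z
    simp only [Finset.coe_filter, Set.Finite.mem_toFinset, Set.mem_ofPred_eq]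
    constructor
    · intro hz
      refine ⟨?_, hz⟩
      obtain ⟨d, hd, hzd, -⟩ := hz
      exact hd.1.2.1 hzd
    · exact fun hz => hz.2
  calc ∑ r ∈ Finset.Ico R1 R2, (rng bl m0 r b).ncard
      = ∑ r ∈ Finset.Ico R1 R2, (hblfin.toFinset.filter (fun z => z ∈ rng bl m0 r b)).card :=
        Finset.sum_congr rfl (fun r _ => hrng r)
    _ = ∑ z ∈ hblfin.toFinset, ((Finset.Ico R1 R2).filter (fun r => z ∈ rng bl m0 r b)).card := by
        simp only [Finset.card_filter]
        exact Finset.sum_comm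
    _ ≤ ∑ z ∈ hblfin.toFinset, (m0 + 2 * b) := Finset.sum_le_sum (fun z _ => key z)
    _ = (m0 + 2 * b) * bl.ncard := by
        rw [Finset.sum_const, smul_eq_mul, mul_comm, Set.ncard_eq_toFinset_card bl hblfin]

end Pool.Agent.H58.FG
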