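import Pool.Agent.H58.FG.MStm

/-!
# MP_4c8b8e_co, project FIRE, FIRE-M19: choice of the scale
-/

set_option autoImplicit false

namespace Pool.Agent.H58.FG

open Classical Pool.Agent.H3.FF CV TV Pool.Agent.FM Pool.Agent.H13.FG

open scoped BigOperators

/-- some summand is at most the average -/
private theorem sc_avg (g : ℕ → ℕ) (R W T : ℕ) (hW : 0 < W)
    (h : ∑ r ∈ Finset.Ico R (R + W), g r ≤ T) : ∃ r, R ≤ r ∧ r < R + W ∧ W * g r ≤ T := by
  have hne : (Finset.Ico R (R + W)).Nonempty := by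
    rw [Finset.nonempty_Ico]
    omega
  obtain ⟨r, hr, hmin⟩ := (Finset.Ico R (R + W)).exists_min_image g hne
  rw [Finset.mem_Ico] at hr
  refine ⟨r, hr.1, hr.2, ?_⟩
  have h5 := Finset.card_nsmul_le_sum (Finset.Ico R (R + W)) g (g r) (fun q hq => hmin q hq)
  rw [Nat.card_Ico, smul_eq_mul] at h5
  have h6 : R + W - R = W := by omega
  rw [h6] at h5
  exact h5.trans h

theorem sscale : SScaleOf := by
  intro hU hR hP hN K _ e A D Ar he
  choose Cr hCr using fun r => hU K r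
  obtain ⟨c1, hc1⟩ : ∃ c1, c1 = 2 * (Ar + 1) + 5 * e * A + 1 := ⟨_, rfl⟩
  obtain ⟨m, hm⟩ : ∃ m, m = e + D + 3 := ⟨_, rfl⟩
  obtain ⟨Q, hQ⟩ : ∃ Q, Q = 60 * c1 * e := ⟨_, rfl⟩
  have hc1pos : 1 ≤ c1 := by omega
  have hQ2 : 2 ≤ Q := by
    rw [hQ]
    nlinarith [Nat.mul_le_mul hc1pos he]
  refine ⟨c1 * m * Q ^ Q, e * (∑ r ∈ Finset.range (c1 * m * Q ^ Q + 1), Cr r) + e * (K + 2), ?_⟩
  intro H L hpar bl
  obtain ⟨i, hi, hbig⟩ := hP K H L hpar bl Q Q m (by omega) (by omega) (by omega)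
  obtain ⟨m0, hm0⟩ : ∃ m0, m0 = m * Q ^ i := ⟨_, rfl⟩
  rw [← hm0] at hbig
  have hQi : 1 ≤ Q ^ i := Nat.one_le_pow _ _ (by omega)
  have hmm0 : m ≤ m0 := by
    rw [hm0]
    exact Nat.le_mul_of_pos_right m hQi
  have hm0Q : m0 ≤ m * Q ^ Q := by
    rw [hm0]
    exact Nat.mul_le_mul_left m (Nat.pow_le_pow_right (by omega) hi.le)
  obtain ⟨b, hb⟩ : ∃ b, b = m0 + D + 3 := ⟨_, rfl⟩
  have hb2 : b ≤ 2 * m0 := by omega
  have hsum := hR K H L hpar bl m0 b ((Ar + 1) * b) ((Ar + 1) * b + (5 * e * A * m0 + 1))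
  obtain ⟨r, hr1, hr2, hr3⟩ := sc_avg (fun r => (rng bl m0 r b).ncard) ((Ar + 1) * b)
    (5 * e * A * m0 + 1) _ (by omega) hsum
  have hr3' : (5 * e * A * m0 + 1) * (rng bl m0 r b).ncard ≤ (m0 + 2 * b) * bl.ncard := hr3
  have hrc : r ≤ c1 * m0 := by
    have h1 : (Ar + 1) * b ≤ (Ar + 1) * (2 * m0) := Nat.mul_le_mul_left _ hb2
    have h2 : c1 * m0 = (Ar + 1) * (2 * m0) + 5 * e * A * m0 + m0 := by
      rw [hc1]; ring
    omega
  have hrRm : r ≤ c1 * m * Q ^ Q := by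
    calc r ≤ c1 * m0 := hrc
      _ ≤ c1 * (m * Q ^ Q) := Nat.mul_le_mul_left _ hm0Q
      _ = c1 * m * Q ^ Q := by ring
  have hbr : Ar * b ≤ r ∧ b ≤ r := by
    have h1 : (Ar + 1) * b = Ar * b + b := by ring
    omega
  have hrng : e * (A * (rng bl m0 r b).ncard) ≤ bl.ncard := by
    have hpos : 0 < 5 * m0 := by omega
    have h1 : 5 * m0 * (e * (A * (rng bl m0 r b).ncard)) ≤ 5 * m0 * bl.ncard := by
      calc 5 * m0 * (e * (A * (rng bl m0 r b).ncard))
          = (5 * e * A * m0) * (rng bl m0 r b).ncard := by ring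
        _ ≤ (5 * e * A * m0 + 1) * (rng bl m0 r b).ncard :=
            Nat.mul_le_mul_right _ (Nat.le_succ _)
        _ ≤ (m0 + 2 * b) * bl.ncard := hr3'
        _ ≤ 5 * m0 * bl.ncard := Nat.mul_le_mul_right _ (by omega)
    exact Nat.le_of_mul_le_mul_left h1 hpos
  obtain ⟨B, hB⟩ : ∃ B, B = {d | (Fl bl m0 r).big d}.ncard := ⟨_, rfl⟩
  have hbig' : Q * m0 * B ≤ 2 * bl.ncard := by
    have h1 := hbig r
    rw [← hB] at h1
    have h2 : Q * (Q * m0 * B) ≤ Q * (2 * bl.ncard) := by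
      calc Q * (Q * m0 * B) = Q * Q * m0 * B := by ring
        _ ≤ (Q + Q) * bl.ncard := h1
        _ = Q * (2 * bl.ncard) := by ring
    exact Nat.le_of_mul_le_mul_left h2 (by omega)
  have hbig2 : 30 * c1 * e * m0 * B ≤ bl.ncard := by
    have h1 : 2 * (30 * c1 * e * m0 * B) ≤ 2 * bl.ncard := by
      calc 2 * (30 * c1 * e * m0 * B) = Q * m0 * B := by rw [hQ]; ring
        _ ≤ 2 * bl.ncard := hbig'
    omega
  have hm01 : 1 ≤ m0 := by omega
  have heB : e * B ≤ bl.ncard := by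
    refine le_trans ?_ hbig2
    calc e * B = 1 * e * 1 * B := by ring
      _ ≤ (30 * c1) * e * m0 * B := by
          apply Nat.mul_le_mul_right
          exact Nat.mul_le_mul (Nat.mul_le_mul_right e (by omega)) hm01
  have hcutB : e * ((24 * r + 6) * B) ≤ bl.ncard := by
    refine le_trans ?_ hbig2
    have h1 : 24 * r + 6 ≤ 30 * c1 * m0 := by
      have h2 : 1 ≤ c1 * m0 := Nat.mul_pos hc1pos hm01
      have h3 : 30 * c1 * m0 = 30 * (c1 * m0) := by ring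
      omega
    calc e * ((24 * r + 6) * B) ≤ e * ((30 * c1 * m0) * B) :=
          Nat.mul_le_mul_left _ (Nat.mul_le_mul_right _ h1)
      _ = 30 * c1 * e * m0 * B := by ring
  have hCrs : Cr r ≤ ∑ r ∈ Finset.range (c1 * m * Q ^ Q + 1), Cr r :=
    Finset.single_le_sum (f := Cr) (fun _ _ => Nat.zero_le _)
      (Finset.mem_range.2 (by omega))
  have hcut := hCr r H L hpar bl m0
  rw [← hB] at hcut
  refine ⟨m0, r, B + K + 2, ?_, ?_, hrRm, by omega, ?_, ?_, ?_⟩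
  · rw [← hb]
    exact hbr.1
  · rw [← hb]
    exact hbr.2
  · rw [hB]
    exact hN K H L hpar bl m0 r
  · calc e * (B + K + 2) = e * B + e * (K + 2) := by ring
      _ ≤ bl.ncard + (e * (∑ r ∈ Finset.range (c1 * m * Q ^ Q + 1), Cr r) + e * (K + 2)) := by
          have := Nat.zero_le (e * (∑ r ∈ Finset.range (c1 * m * Q ^ Q + 1), Cr r))
          omega
  · rw [← hb]
    have h1 := Nat.mul_le_mul_left e hcut
    have h2 : e * (4 * bl.ncard + (24 * r + 6) * B + Cr r)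
        = 4 * (e * bl.ncard) + e * ((24 * r + 6) * B) + e * Cr r := by ring
    have h3 := Nat.mul_le_mul_left e hCrs
    rw [h2] at h1
    rw [Nat.mul_add]
    have h4 : 4 * (e + 1) * bl.ncard = 4 * (e * bl.ncard) + 4 * bl.ncard := by ring
    rw [h4]
    have h5 := Nat.zero_le (e * (K + 2))
    omega

end Pool.Agent.H58.FG
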