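import Pool.Agent.H58.FG.MStm

/-!
# MP_4c8b8e_co, project FIRE: metric block, short walks are followed along streets (FIRE-M9,
helper21)
-/

set_option autoImplicit false

namespace Pool.Agent.H58.FG

open Classical Pool.Agent.H3.FF CV TV Pool.Agent.FM Pool.Agent.H13.FG

open Pool.Agent.H58.FF (Pt nbs dst nrm)

section

variable {K H L : ℕ} [NeZero K]

/-- lifting of walks -/
theorem m9_lift {p0 : Pt} {R : ℕ} (C : Chart K H p0 R) {a b : TV K H} (w : (TL K H).Walk a b) :
    ∀ (p : Pt) (m : ℕ), C.φ p = a → dst p p0 ≤ m → m + w.length ≤ R →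
      ∃ q, dst q p0 ≤ (m : ℤ) + w.length ∧ C.φ q = b := by
  induction w with
  | nil =>
    intro p m hp hd _
    exact ⟨p, by simpa using hd, hp⟩
  | @cons a c b h w ih =>
    intro p m hp hd hR
    rw [SimpleGraph.Walk.length_cons] at hR ⊢
    obtain ⟨q, hq, hqc⟩ := C.lift p (by omega) c (by rw [hp]; exact h)
    have h1 := Pool.Agent.H58.FF.ar_near p q p0 m hq hd
    obtain ⟨r, hr, hrb⟩ := ih q (m + 1) hqc (by push_cast; exact h1) (by omega)
    refine ⟨r, ?_, hrb⟩
    push_cast at hr ⊢
    omega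

/-- points of a chart are joined to the centre -/
theorem m9_join {p0 : Pt} {R : ℕ} (C : Chart K H p0 R) (d : ℕ) :
    d ≤ R → ∀ p, dst p p0 ≤ d → ∃ w : (TL K H).Walk (C.φ p0) (C.φ p), w.length ≤ d := by
  induction d with
  | zero =>
    intro _ p hp
    have h : p = p0 := by
      rw [Pool.Agent.H58.FF.ar_dst] at hp
      apply Prod.ext <;> push_cast at hp <;> omega
    subst h
    exact ⟨SimpleGraph.Walk.nil, le_rfl⟩
  | succ d ih =>
    intro hd p hp
    by_cases h0 : p = p0
    · subst h0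
      exact ⟨SimpleGraph.Walk.nil, Nat.zero_le _⟩
    · obtain ⟨q, hq, hq1⟩ := dst_pred (by push_cast at hp; exact hp) h0
      obtain ⟨w, hw⟩ := ih (by omega) q hq1
      have ha : (TL K H).Adj (C.φ q) (C.φ p) := C.adj q p (by omega) (by omega) hq
      exact ⟨w.concat ha, by rw [SimpleGraph.Walk.length_concat]; omega⟩

theorem sshort : SShort := by
  intro hLat hChart hEdge K H L _ g f f' n hfar hw
  obtain ⟨w, hwn⟩ := hw
  have hL : 1 ≤ L := Nat.pos_of_dvd_of_pos g.lh g.pos
  obtain ⟨p0, C, hC, hS⟩ := hChart K H L g f (n + 4 * L + 2) hfar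
  have hself : dst p0 p0 ≤ 0 := by
    rw [Pool.Agent.H58.FF.ar_dst]
    simp
  obtain ⟨q, hq, hqf⟩ := m9_lift C w p0 0 hC (by simpa using hself) (by omega)
  have hqn : dst q p0 ≤ n := by
    push_cast at hq
    omega
  obtain ⟨m, x, hx0, hxm, hxs, hxd, hxc⟩ := hLat L hL p0 q
  have hxd' : ∀ i ≤ m, dst (x i) p0 ≤ (n : ℤ) + 4 * L := fun i hi => by
    have := hxd i hi
    omega
  have hedge := (hEdge K H L g).2
  have hwalk : ∀ j, j ≤ m → ∃ u : (G K H L).Walk (Sum.inl (Sum.inl f))
      (Sum.inl (Sum.inl (C.φ (x j)))),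
      u.length ≤ j + 3 * ((Finset.range j).filter (fun i => ¬ Str L (x i) (x (i + 1)))).card ∧
      ∀ z ∈ u.support, ∃ i ≤ j, bp z = C.φ (x i) := by
    intro j
    induction j with
    | zero =>
      intro _
      rw [hx0, hC]
      refine ⟨SimpleGraph.Walk.nil, by simp, ?_⟩
      intro z hz
      rw [SimpleGraph.Walk.support_nil, List.mem_singleton] at hz
      subst hz
      exact ⟨0, le_rfl, by rw [hx0, hC]; rfl⟩
    | succ j ih =>
      intro hj
      obtain ⟨u, hu1, hu2⟩ := ih (by omega)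
      have hd1 := hxd' j (by omega)
      have hd2 := hxd' (j + 1) hj
      have hmem := hxs j (by omega)
      have hadj : Ad (C.φ (x j)) (C.φ (x (j + 1))) :=
        C.adj (x j) (x (j + 1)) (by push_cast; omega) (by push_cast; omega) hmem
      obtain ⟨v, hv1, hv2, hv3⟩ := hedge _ _ hadj
      refine ⟨u.append v, ?_, ?_⟩
      · rw [SimpleGraph.Walk.length_append, Finset.range_add_one, Finset.filter_insert]
        by_cases hst : Str L (x j) (x (j + 1))
        · have h1 := hv2 (hS (x j) (x (j + 1)) (by push_cast; omega) (by push_cast; omega)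
            hmem hst)
          rw [if_neg (fun h => h hst)]
          omega
        · rw [if_pos hst, Finset.card_insert_of_notMem (by simp)]
          omega
      · intro z hz
        rw [SimpleGraph.Walk.mem_support_append_iff] at hz
        rcases hz with hz | hz
        · obtain ⟨i, hi, h1⟩ := hu2 z hz
          exact ⟨i, by omega, h1⟩
        · rcases hv3 z hz with h1 | h1
          · exact ⟨j, by omega, h1⟩
          · exact ⟨j + 1, le_rfl, h1⟩
  have hlast := hwalk m le_rfl
  rw [hxm, hqf] at hlast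
  obtain ⟨u, hu1, hu2⟩ := hlast
  refine ⟨u, ?_, ?_⟩
  · have h1 : (m : ℤ) + 3 * ((Finset.range m).filter
        (fun i => ¬ Str L (x i) (x (i + 1)))).card ≤ (n : ℤ) + 10 * L := by
      omega
    have h2 : m + 3 * ((Finset.range m).filter
        (fun i => ¬ Str L (x i) (x (i + 1)))).card ≤ n + 10 * L := by
      exact_mod_cast h1
    exact hu1.trans h2
  · intro z hz
    obtain ⟨i, hi, h1⟩ := hu2 z hz
    obtain ⟨v, hv⟩ := m9_join C (n + 4 * L) (by omega) (x i) (by push_cast; exact hxd' i hi)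
    rw [h1]
    have h2 : ∃ w : (TL K H).Walk f (C.φ (x i)), w.length ≤ n + 4 * L := by
      rw [← hC]
      exact ⟨v, hv⟩
    obtain ⟨v', hv'⟩ := h2
    exact ⟨f, rfl, v', hv'⟩

end

end Pool.Agent.H58.FG
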