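import Pool.Agent.H58.FG.MStm
import Pool.Agent.H13.FG.Basic

/-!
# MP_4c8b8e_co, project FIRE: metric block, sliding a ball to a neighbour
-/

set_option autoImplicit false

namespace Pool.Agent.H58.FG

open Classical Pool.Agent.H3.FF CV TV Pool.Agent.H13.FG

open Pool.Agent.H58.FF (Pt nbs dst nrm ar_dst)

section

variable {K H : ℕ} [NeZero K]

/-- a flat map of the ball of radius `R` around the origin -/
private structure M11 (ψ : Pt → TV K H) (R : ℤ) : Prop where
  inj : ∀ p q, dst p 0 ≤ R → dst q 0 ≤ R → ψ p = ψ q → p = q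
  adj : ∀ p q, dst p 0 ≤ R → dst q 0 ≤ R → q ∈ nbs p → Ad (ψ p) (ψ q)
  lift : ∀ p, dst p 0 < R → ∀ g, Ad (ψ p) g → ∃ q ∈ nbs p, ψ q = g

/-- rotation by sixty degrees -/
private def m11rot (p : Pt) : Pt := (-p.2, p.1 + p.2)

private theorem m11_rot_dst (p : Pt) (m : ℤ) : dst (m11rot p) 0 ≤ m ↔ dst p 0 ≤ m := by
  rw [ar_dst, ar_dst]
  simp only [m11rot, Prod.fst_zero, Prod.snd_zero]
  omega

private theorem m11_nbs (p q : Pt) : q ∈ nbs p ↔ (q.1 = p.1 + 1 ∧ q.2 = p.2) ∨
    (q.1 = p.1 ∧ q.2 = p.2 + 1) ∨ (q.1 = p.1 - 1 ∧ q.2 = p.2 + 1) ∨ (q.1 = p.1 - 1 ∧ q.2 = p.2) ∨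
    (q.1 = p.1 ∧ q.2 = p.2 - 1) ∨ (q.1 = p.1 + 1 ∧ q.2 = p.2 - 1) := by
  obtain ⟨a, b⟩ := q
  simp only [nbs, Finset.mem_insert, Finset.mem_singleton, Prod.mk.injEq]

private theorem m11_rot_nbs (p q : Pt) : m11rot q ∈ nbs (m11rot p) ↔ q ∈ nbs p := by
  rw [m11_nbs, m11_nbs]
  simp only [m11rot]
  omega

private theorem m11_rot {ψ : Pt → TV K H} {R : ℤ} (h : M11 ψ R) :
    M11 (fun p => ψ (m11rot p)) R where
  inj := by
    intro p q hp hq he
    have h1 := h.inj _ _ ((m11_rot_dst p R).2 hp) ((m11_rot_dst q R).2 hq) he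
    have h2 := congrArg Prod.fst h1
    have h3 := congrArg Prod.snd h1
    simp only [m11rot] at h2 h3
    exact Prod.ext (by omega) (by omega)
  adj := by
    intro p q hp hq hn
    exact h.adj _ _ ((m11_rot_dst p R).2 hp) ((m11_rot_dst q R).2 hq) ((m11_rot_nbs p q).2 hn)
  lift := by
    intro p hp g hg
    have hp' : dst (m11rot p) 0 < R := by
      by_contra hc
      have h1 : ¬ dst (m11rot p) 0 ≤ R - 1 := by omega
      exact h1 ((m11_rot_dst p (R - 1)).2 (by omega))
    obtain ⟨q, hq, hqg⟩ := h.lift _ hp' g hg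
    have e : q = m11rot (q.1 + q.2, -q.1) := by
      simp only [m11rot]
      exact Prod.ext (by simp) (by simp)
    refine ⟨(q.1 + q.2, -q.1), ?_, ?_⟩
    · rw [← m11_rot_nbs, ← e]
      exact hq
    · rw [← e]
      exact hqg

/-- inserting a point -/
private theorem m11_ins {ψ : Pt → TV K H} {R : ℤ} (h : M11 ψ R) {p : Pt} (hp : dst p 0 < R)
    (A : Finset (TV K H)) (Q : Finset Pt) (hQ : Q ⊆ nbs p) (hA : ∀ q ∈ Q, ψ q ∈ A) :
    cut (insert (ψ p) A) ≤ cut A + (6 - 2 * Q.card) := by
  by_cases hx : ψ p ∈ A
  · rw [Finset.insert_eq_of_mem hx]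
    exact Nat.le_add_right _ _
  · have hpR : dst p 0 ≤ R := hp.le
    have hqR : ∀ q ∈ nbs p, dst q 0 ≤ R := fun q hq => by
      have h1 := Pool.Agent.H58.FF.ar_near p q 0 (dst p 0) hq le_rfl
      omega
    set x := ψ p with hxd
    have hinj : Set.InjOn ψ (nbs p : Finset Pt) := by
      intro a ha b hb hab
      exact h.inj a b (hqR a ha) (hqR b hb) hab
    have hcard : (nbs p).card = 6 := Pool.Agent.H58.FF.card_nbs p
    -- the sets of edges
    set E1 : Finset (TV K H × TV K H) := Q.image (fun q => (ψ q, x)) with hE1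
    set E2 : Finset (TV K H × TV K H) := ((nbs p) \ Q).image (fun q => (x, ψ q)) with hE2
    have c1 : E1.card = Q.card := by
      refine Finset.card_image_of_injOn ?_
      intro a ha b hb hab
      exact hinj (hQ ha) (hQ hb) (congrArg Prod.fst hab)
    have c2 : E2.card ≤ 6 - Q.card := by
      refine Finset.card_image_le.trans ?_
      rw [Finset.card_sdiff_of_subset hQ, hcard]
    have s1 : E1 ⊆ (A ×ˢ Aᶜ).filter (fun p => Ad p.1 p.2) := by
      intro e he
      obtain ⟨q, hq, rfl⟩ := Finset.mem_image.1 he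
      refine Finset.mem_filter.2 ⟨Finset.mem_product.2 ⟨hA q hq, Finset.mem_compl.2 hx⟩, ?_⟩
      exact ad_symm (h.adj p q hpR (hqR q (hQ hq)) (hQ hq))
    have s2 : ((insert x A) ×ˢ (insert x A)ᶜ).filter (fun p => Ad p.1 p.2) ⊆
        ((A ×ˢ Aᶜ).filter (fun p => Ad p.1 p.2) \ E1) ∪ E2 := by
      rintro ⟨a, b⟩ he
      obtain ⟨h1, h2⟩ := Finset.mem_filter.1 he
      obtain ⟨h3, h4⟩ := Finset.mem_product.1 h1
      have h3' : a = x ∨ a ∈ A := Finset.mem_insert.1 h3
      have h4' : b ∉ insert x A := Finset.mem_compl.1 h4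
      rw [Finset.mem_insert, not_or] at h4'
      obtain ⟨h5, h6⟩ := h4'
      change Ad a b at h2
      rcases h3' with h7 | h7
      · refine Finset.mem_union_right _ ?_
        rw [h7] at h2
        obtain ⟨q, hq, hqb⟩ := h.lift p hp b h2
        refine Finset.mem_image.2 ⟨q, Finset.mem_sdiff.2 ⟨hq, fun hc => ?_⟩, ?_⟩
        · exact h6 (hqb ▸ hA q hc)
        · rw [hqb, h7]
      · refine Finset.mem_union_left _ (Finset.mem_sdiff.2 ⟨Finset.mem_filter.2
          ⟨Finset.mem_product.2 ⟨h7, Finset.mem_compl.2 h6⟩, h2⟩, fun hc => ?_⟩)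
        obtain ⟨q, -, hq⟩ := Finset.mem_image.1 hc
        exact h5 (congrArg Prod.snd hq).symm
    have c3 := Finset.card_le_card s2
    have c4 := Finset.card_union_le
      ((A ×ˢ Aᶜ).filter (fun p => Ad p.1 p.2) \ E1) E2
    have c5 := Finset.card_sdiff_of_subset s1
    have c6 := Finset.card_le_card s1
    have c7 : Q.card ≤ 6 := hcard ▸ Finset.card_le_card hQ
    unfold Pool.Agent.H13.FG.cut
    omega

/-- points at small distance -/
private theorem m11_near {ψ : Pt → TV K H} {R : ℤ} (h : M11 ψ R) (c : Pt) : ∀ (d : ℕ) (p : Pt),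
    dst p c ≤ d → dst c 0 + d ≤ R → Nr d (ψ c) (ψ p) := by
  intro d
  induction d with
  | zero =>
    intro p hp _
    have : p = c := by
      rw [ar_dst] at hp
      push_cast at hp
      exact Prod.ext (by omega) (by omega)
    rw [this]
    exact nr_refl 0 _
  | succ d ih =>
    intro p hp hR
    by_cases h0 : p = c
    · rw [h0]
      exact nr_refl _ _
    · obtain ⟨q, hq, hq1⟩ := dst_pred (by push_cast at hp; exact hp) h0
      have h1 := ih q hq1 (by push_cast at hR; omega)
      have tri : ∀ (x : Pt) (m : ℤ), dst x c ≤ m → dst x 0 ≤ dst c 0 + m := by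
        intro x m hx
        have h2 := (ar_dst c 0 (dst c 0)).1 le_rfl
        rw [ar_dst] at hx ⊢
        simp only [Prod.fst_zero, Prod.snd_zero] at h2 ⊢
        omega
      have hq2 := tri q d hq1
      have hp2 := tri p _ hp
      push_cast at hR hp2
      have h3 := h.adj q p (by omega) (by omega) hq
      exact nr_trans h1 (nr_one (Or.inr h3))

/-- balls are images of flat balls -/
private theorem m11_lift {ψ : Pt → TV K H} {R : ℤ} (h : M11 ψ R) (c : Pt) : ∀ (d : ℕ)
    (g : TV K H), dst c 0 + d ≤ R → Nr d (ψ c) g → ∃ p, dst p c ≤ d ∧ ψ p = g := by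
  intro d
  induction d with
  | zero =>
    intro g _ hg
    refine ⟨c, ?_, nr_zero hg⟩
    rw [ar_dst]
    push_cast
    omega
  | succ d ih =>
    intro g hR hg
    obtain ⟨k, hk, hkg⟩ := nr_succ hg
    push_cast at hR
    obtain ⟨p, hp, hpk⟩ := ih k (by omega) hk
    rcases hkg with hkg | hkg
    · exact ⟨p, by push_cast; omega, by rw [hpk, hkg]⟩
    · have h2 := (ar_dst c 0 (dst c 0)).1 le_rfl
      have hp0 : dst p 0 ≤ dst c 0 + d := by
        have h3 := (ar_dst p c d).1 hp
        rw [ar_dst]
        simp only [Prod.fst_zero, Prod.snd_zero] at h2 ⊢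
        omega
      rw [← hpk] at hkg
      obtain ⟨q, hq, hqg⟩ := h.lift p (by omega) g hkg
      refine ⟨q, ?_, hqg⟩
      have h4 := Pool.Agent.H58.FF.ar_near p q c d hq hp
      push_cast
      exact h4

/-- the strip -/
private def m11s (r i : ℕ) : Pt :=
  if i ≤ r then ((r : ℤ) + 1, (i : ℤ) - r) else (2 * (r : ℤ) + 1 - i, (i : ℤ) - r)

private theorem m11_strip {r : ℕ} {p : Pt} (h1 : dst p (1, 0) ≤ r) (h2 : ¬ dst p 0 ≤ r) :
    ∃ i < 2 * r + 1, p = m11s r i := by
  rw [ar_dst] at h1 h2
  simp only [Prod.fst_zero, Prod.snd_zero] at h1 h2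
  refine ⟨(p.2 + r).toNat, by omega, ?_⟩
  unfold m11s
  split_ifs with h
  · exact Prod.ext (by dsimp only; omega) (by dsimp only; omega)
  · exact Prod.ext (by dsimp only; omega) (by dsimp only; omega)

private theorem m11_s_near {r i : ℕ} (h : i < 2 * r + 1) :
    dst (m11s r i) (1, 0) ≤ r ∧ dst (m11s r i) 0 ≤ r + 1 := by
  rw [ar_dst, ar_dst]
  unfold m11s
  simp only [Prod.fst_zero, Prod.snd_zero]
  split_ifs with h1
  · dsimp only
    omega
  · dsimp only
    omega

/-- the sets obtained by adding the first points of the strip -/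
private noncomputable def m11B (ψ : Pt → TV K H) (A : Finset (TV K H)) (r i : ℕ) :
    Finset (TV K H) := A ∪ (Finset.range i).image (fun k => ψ (m11s r k))

private theorem m11_B_succ (ψ : Pt → TV K H) (A : Finset (TV K H)) (r i : ℕ) :
    m11B ψ A r (i + 1) = insert (ψ (m11s r i)) (m11B ψ A r i) := by
  unfold m11B
  rw [Finset.range_add_one, Finset.image_insert, Finset.union_insert]

private theorem m11_bound {ψ : Pt → TV K H} {r : ℕ} (h : M11 ψ ((r : ℤ) + 3))
    (A : Finset (TV K H)) (hA : ∀ p, dst p 0 ≤ r → ψ p ∈ A) :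
    ∀ i ≤ 2 * r + 1, cut (m11B ψ A r i) ≤ cut A + (if i = 0 then 0 else if i ≤ r then 2 else 4)
    := by
  intro i
  induction i with
  | zero =>
    intro _
    simp [m11B]
  | succ i ih =>
    intro hi
    have h1 := ih (by omega)
    rw [m11_B_succ]
    have hAB : ∀ p, dst p 0 ≤ r → ψ p ∈ m11B ψ A r i := fun p hp =>
      Finset.mem_union_left _ (hA p hp)
    have hprev : 0 < i → ψ (m11s r (i - 1)) ∈ m11B ψ A r i := fun h0 =>
      Finset.mem_union_right _ (Finset.mem_image.2 ⟨i - 1, Finset.mem_range.2 (by omega), rfl⟩)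
    have hnear := (m11_s_near (r := r) (i := i) (by omega)).2
    have hR : dst (m11s r i) 0 < (r : ℤ) + 3 := by omega
    by_cases i0 : i = 0
    · subst i0
      by_cases r0 : r = 0
      · subst r0
        have h2 := m11_ins h hR (m11B ψ A 0 0) {(0, 0)} (by
          intro q hq
          rw [Finset.mem_singleton] at hq
          rw [m11_nbs, hq]
          simp [m11s]) (by
          intro q hq
          rw [Finset.mem_singleton] at hq
          rw [hq]
          exact hAB _ (by rw [ar_dst]; simp))
        simp only [Finset.card_singleton] at h2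
        simp only [if_true] at h1
        simp only [Nat.add_one_ne_zero, if_false]
        split_ifs <;> omega
      · have h2 := m11_ins h hR (m11B ψ A r 0) {((r : ℤ), -(r : ℤ)), ((r : ℤ), -(r : ℤ) + 1)} (by
          intro q hq
          rw [Finset.mem_insert, Finset.mem_singleton] at hq
          rw [m11_nbs]
          unfold m11s
          simp only [Nat.zero_le, if_true]
          rcases hq with hq | hq <;> rw [hq] <;> dsimp only <;> push_cast <;> omega) (by
          intro q hq
          rw [Finset.mem_insert, Finset.mem_singleton] at hq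
          refine hAB _ ?_
          rw [ar_dst]
          simp only [Prod.fst_zero, Prod.snd_zero]
          rcases hq with hq | hq <;> rw [hq] <;> dsimp only <;> omega)
        have h3 : ({((r : ℤ), -(r : ℤ)), ((r : ℤ), -(r : ℤ) + 1)} : Finset Pt).card = 2 := by
          rw [Finset.card_pair]
          intro hc
          have := congrArg Prod.snd hc
          dsimp only at this
          omega
        rw [h3] at h2
        simp only [if_true] at h1
        have h4 : ¬ (0 + 1 = 0) := by omega
        have h5 : 0 + 1 ≤ r := by omega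
        rw [if_neg h4, if_pos h5]
        omega
    · have hprev' := hprev (by omega)
      by_cases c1 : i < r
      · -- three neighbours on the vertical side
        have hs : m11s r i = ((r : ℤ) + 1, (i : ℤ) - r) := if_pos (by omega)
        have hs' : m11s r (i - 1) = ((r : ℤ) + 1, (i : ℤ) - r - 1) := by
          rw [m11s, if_pos (by omega)]
          refine Prod.ext rfl ?_
          dsimp only
          omega
        rw [hs'] at hprev'
        rw [hs] at hR ⊢
        have h2 := m11_ins h hR (m11B ψ A r i) {((r : ℤ), (i : ℤ) - r), ((r : ℤ), (i : ℤ) - r + 1),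
            ((r : ℤ) + 1, (i : ℤ) - r - 1)} (by
          intro q hq
          simp only [Finset.mem_insert, Finset.mem_singleton] at hq
          rw [m11_nbs]
          rcases hq with hq | hq | hq <;> rw [hq] <;> dsimp only <;> omega) (by
          intro q hq
          simp only [Finset.mem_insert, Finset.mem_singleton] at hq
          rcases hq with hq | hq | hq
          · rw [hq]
            refine hAB _ ?_
            rw [ar_dst]
            simp only [Prod.fst_zero, Prod.snd_zero]
            omega
          · rw [hq]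
            refine hAB _ ?_
            rw [ar_dst]
            simp only [Prod.fst_zero, Prod.snd_zero]
            omega
          · rw [hq]
            exact hprev')
        have h3 : ({((r : ℤ), (i : ℤ) - r), ((r : ℤ), (i : ℤ) - r + 1),
            ((r : ℤ) + 1, (i : ℤ) - r - 1)} : Finset Pt).card = 3 := by
          rw [Finset.card_eq_three]
          refine ⟨_, _, _, ?_, ?_, ?_, rfl⟩ <;> intro hc <;>
            rw [Prod.mk.injEq] at hc <;> omega
        rw [h3] at h2
        rw [if_neg i0, if_pos (by omega : i ≤ r)] at h1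
        rw [if_neg (by omega : ¬ i + 1 = 0), if_pos (by omega : i + 1 ≤ r)]
        omega
      · by_cases c2 : i = r
        · -- the corner
          have hs : m11s r i = ((r : ℤ) + 1, 0) := by
            rw [m11s, if_pos (by omega)]
            exact Prod.ext rfl (by dsimp only; omega)
          have hs' : m11s r (i - 1) = ((r : ℤ) + 1, -1) := by
            rw [m11s, if_pos (by omega)]
            exact Prod.ext rfl (by dsimp only; omega)
          rw [hs'] at hprev'
          rw [hs] at hR ⊢
          have h2 := m11_ins h hR (m11B ψ A r i) {((r : ℤ), (0 : ℤ)), ((r : ℤ) + 1, (-1 : ℤ))} (by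
            intro q hq
            simp only [Finset.mem_insert, Finset.mem_singleton] at hq
            rw [m11_nbs]
            rcases hq with hq | hq <;> rw [hq] <;> dsimp only <;> omega) (by
            intro q hq
            simp only [Finset.mem_insert, Finset.mem_singleton] at hq
            rcases hq with hq | hq
            · rw [hq]
              refine hAB _ ?_
              rw [ar_dst]
              simp only [Prod.fst_zero, Prod.snd_zero]
              omega
            · rw [hq]
              exact hprev')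
          have h3 : ({((r : ℤ), (0 : ℤ)), ((r : ℤ) + 1, (-1 : ℤ))} : Finset Pt).card = 2 := by
            rw [Finset.card_pair]
            intro hc
            have := congrArg Prod.snd hc
            dsimp only at this
            omega
          rw [h3] at h2
          rw [if_neg i0, if_pos (by omega : i ≤ r)] at h1
          rw [if_neg (by omega : ¬ i + 1 = 0), if_neg (by omega : ¬ i + 1 ≤ r)]
          omega
        · -- three neighbours on the oblique side
          have hs : m11s r i = (2 * (r : ℤ) + 1 - i, (i : ℤ) - r) := if_neg (by omega)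
          have hs' : m11s r (i - 1) = (2 * (r : ℤ) + 2 - i, (i : ℤ) - r - 1) := by
            unfold m11s
            split_ifs with h5
            · exact Prod.ext (by dsimp only; omega) (by dsimp only; omega)
            · exact Prod.ext (by dsimp only; omega) (by dsimp only; omega)
          rw [hs'] at hprev'
          rw [hs] at hR ⊢
          have h2 := m11_ins h hR (m11B ψ A r i) {(2 * (r : ℤ) - i, (i : ℤ) - r),
              (2 * (r : ℤ) + 1 - i, (i : ℤ) - r - 1),
              (2 * (r : ℤ) + 2 - i, (i : ℤ) - r - 1)} (by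
            intro q hq
            simp only [Finset.mem_insert, Finset.mem_singleton] at hq
            rw [m11_nbs]
            rcases hq with hq | hq | hq <;> rw [hq] <;> dsimp only <;> omega) (by
            intro q hq
            simp only [Finset.mem_insert, Finset.mem_singleton] at hq
            rcases hq with hq | hq | hq
            · rw [hq]
              refine hAB _ ?_
              rw [ar_dst]
              simp only [Prod.fst_zero, Prod.snd_zero]
              omega
            · rw [hq]
              refine hAB _ ?_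
              rw [ar_dst]
              simp only [Prod.fst_zero, Prod.snd_zero]
              omega
            · rw [hq]
              exact hprev')
          have h3 : ({(2 * (r : ℤ) - i, (i : ℤ) - r), (2 * (r : ℤ) + 1 - i, (i : ℤ) - r - 1),
              (2 * (r : ℤ) + 2 - i, (i : ℤ) - r - 1)} : Finset Pt).card = 3 := by
            rw [Finset.card_eq_three]
            refine ⟨_, _, _, ?_, ?_, ?_, rfl⟩ <;> intro hc <;>
              rw [Prod.mk.injEq] at hc <;> omega
          rw [h3] at h2
          rw [if_neg i0, if_neg (by omega : ¬ i ≤ r)] at h1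
          rw [if_neg (by omega : ¬ i + 1 = 0), if_neg (by omega : ¬ i + 1 ≤ r)]
          omega

private theorem m11_core {ψ : Pt → TV K H} {r : ℕ} (h : M11 ψ ((r : ℤ) + 3))
    (A : Finset (TV K H)) (hA : ∀ g, Nr r (ψ 0) g → g ∈ A) :
    cut (A ∪ Finset.univ.filter (fun g => Nr r (ψ (1, 0)) g)) ≤ cut A + 4 := by
  have h00 : dst (0 : Pt) 0 ≤ 0 := by
    rw [ar_dst]
    simp
  have h10 : dst ((1, 0) : Pt) 0 ≤ 1 := by
    rw [ar_dst]
    simp
  have hA' : ∀ p, dst p 0 ≤ r → ψ p ∈ A := fun p hp =>
    hA _ (m11_near h 0 r p hp (by omega))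
  have hset : A ∪ Finset.univ.filter (fun g => Nr r (ψ (1, 0)) g) = m11B ψ A r (2 * r + 1) := by
    ext g
    unfold m11B
    rw [Finset.mem_union, Finset.mem_union, Finset.mem_filter, Finset.mem_image]
    constructor
    · rintro (hg | ⟨-, hg⟩)
      · exact Or.inl hg
      · obtain ⟨p, hp, rfl⟩ := m11_lift h (1, 0) r g (by omega) hg
        by_cases hp0 : dst p 0 ≤ r
        · exact Or.inl (hA' p hp0)
        · obtain ⟨i, hi, rfl⟩ := m11_strip hp hp0
          exact Or.inr ⟨i, Finset.mem_range.2 hi, rfl⟩
    · rintro (hg | ⟨i, hi, rfl⟩)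
      · exact Or.inl hg
      · exact Or.inr ⟨Finset.mem_univ _, m11_near h (1, 0) r _
          (m11_s_near (Finset.mem_range.1 hi)).1 (by omega)⟩
  rw [hset]
  have h2 := m11_bound h A hA' (2 * r + 1) le_rfl
  rw [if_neg (by omega : ¬ 2 * r + 1 = 0), if_neg (by omega : ¬ 2 * r + 1 ≤ r)] at h2
  exact h2

end

/-- sliding a ball to a neighbour costs at most four edges -/
theorem sslide : SSlide := by
  intro K H L _ g r f f' hf had A hA
  obtain ⟨p0, C, hC⟩ := chart_ex g f (r + 3) hf
  have hd : ∀ p : Pt, ∀ m : ℤ, dst (p0 + p) p0 ≤ m ↔ dst p 0 ≤ m := by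
    intro p m
    rw [ar_dst, ar_dst]
    simp only [Prod.fst_add, Prod.snd_add, Prod.fst_zero, Prod.snd_zero]
    omega
  have hn : ∀ p q : Pt, p0 + q ∈ nbs (p0 + p) ↔ q ∈ nbs p := by
    intro p q
    rw [m11_nbs, m11_nbs]
    simp only [Prod.fst_add, Prod.snd_add]
    omega
  have h0 : M11 (fun p => C.φ (p0 + p)) ((r : ℤ) + 3) := by
    refine ⟨?_, ?_, ?_⟩
    · intro p q hp hq he
      have h1 := C.inj (p0 + p) (p0 + q) (by push_cast; exact (hd p _).2 hp)
        (by push_cast; exact (hd q _).2 hq) he
      exact add_left_cancel h1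
    · intro p q hp hq hpq
      exact C.adj (p0 + p) (p0 + q) (by push_cast; exact (hd p _).2 hp)
        (by push_cast; exact (hd q _).2 hq) ((hn p q).2 hpq)
    · intro p hp g' hg'
      have hp' : dst (p0 + p) p0 < ((r + 3 : ℕ) : ℤ) := by
        have h1 := (hd p (dst p 0)).2 le_rfl
        push_cast
        omega
      obtain ⟨q, hq, hqg⟩ := C.lift (p0 + p) hp' g' hg'
      refine ⟨q - p0, ?_, ?_⟩
      · rw [← hn]
        simpa using hq
      · show C.φ (p0 + (q - p0)) = g'
        rw [add_sub_cancel]
        exact hqg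
  have hz : C.φ (p0 + 0) = f := by
    rw [add_zero]
    exact hC
  have hne : ∃ q ∈ nbs (0 : Pt), C.φ (p0 + q) = f' := by
    have h00 : dst (0 : Pt) 0 < (r : ℤ) + 3 := by
      have : dst (0 : Pt) 0 ≤ 0 := by
        rw [ar_dst]
        simp
      omega
    have := h0.lift 0 h00 f' (by
      show Ad (C.φ (p0 + 0)) f'
      rw [hz]
      exact had)
    exact this
  obtain ⟨q, hq, hqf⟩ := hne
  -- rotate
  have hfin : ∀ ψ : Pt → TV K H, M11 ψ ((r : ℤ) + 3) → ψ 0 = f → ψ (1, 0) = f' →
      cut (A ∪ Finset.univ.filter (fun g => Nr r f' g)) ≤ cut A + 4 := by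
    intro ψ h1 h2 h3
    have h4 := m11_core h1 A (by rw [h2]; exact hA)
    rw [h3] at h4
    exact h4
  have hr0 : ∀ k : ℕ, m11rot^[k] (0 : Pt) = 0 := by
    intro k
    induction k with
    | zero => rfl
    | succ k ih =>
      rw [Function.iterate_succ_apply', ih]
      rfl
  have hrk : ∀ k : ℕ, M11 (fun p => C.φ (p0 + m11rot^[k] p)) ((r : ℤ) + 3) := by
    intro k
    induction k with
    | zero => exact h0
    | succ k ih => exact m11_rot ih
  have hq6 : ∃ k : ℕ, m11rot^[k] ((1, 0) : Pt) = q := by
    rw [m11_nbs] at hq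
    simp only [Prod.fst_zero, Prod.snd_zero] at hq
    rcases hq with hq | hq | hq | hq | hq | hq
    · exact ⟨0, Prod.ext (by simpa using hq.1.symm) (by simpa using hq.2.symm)⟩
    · exact ⟨1, Prod.ext (by simp [m11rot]; omega) (by simp [m11rot]; omega)⟩
    · exact ⟨2, Prod.ext (by simp [m11rot]; omega) (by simp [m11rot]; omega)⟩
    · exact ⟨3, Prod.ext (by simp [m11rot]; omega) (by simp [m11rot]; omega)⟩
    · exact ⟨4, Prod.ext (by simp [m11rot]; omega) (by simp [m11rot]; omega)⟩
    · exact ⟨5, Prod.ext (by simp [m11rot]; omega) (by simp [m11rot]; omega)⟩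
  obtain ⟨k, hk⟩ := hq6
  refine hfin _ (hrk k) ?_ ?_
  · show C.φ (p0 + m11rot^[k] 0) = f
    rw [hr0 k]
    exact hz
  · show C.φ (p0 + m11rot^[k] (1, 0)) = f'
    rw [hk]
    exact hqf

end Pool.Agent.H58.FG
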