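import Pool.Agent.H58.FG.MStm
import Pool.Agent.FM.Br

/-!
# MP_4c8b8e_co, project FIRE: assembly of the output of the topological block, statements
-/

set_option autoImplicit false

namespace Pool.Agent.H58.FG

open Classical Pool.Agent.H3.FF CV TV Pool.Agent.FM Pool.Agent.H13.FG

/-- FIRE-T21: the family of the unreached chambers -/
def SChm : Prop := ∀ (K H : ℕ) [NeZero K] (X C : Set (TV K H)), (∀ z ∈ C, z ∉ X) →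
  (∀ z ∈ C, ∀ y, y ∉ X → Ad z y → y ∈ C) → ∃ B : Finset (Finset (TV K H)), Apart B ∧
    (∀ f, f ∈ un B ↔ f ∉ X ∧ f ∉ C) ∧ cut (un B) = FM.cut (TL K H) X (X ∪ C)ᶜ ∧
    (∀ S ∈ B, ∀ f ∈ S, ∀ g ∈ S, FM.Jn (TL K H) Cᶜ f g) ∧
    ∀ S ∈ B, ∀ f ∈ S, ∀ g, g ∉ S → Ad f g → g ∈ X

/-- FIRE-T22: the first entry of a walk into a set -/
def SEnt : Prop := ∀ (K H : ℕ) [NeZero K] (S : Finset (TV K H)) (w : ℕ → TV K H) (n : ℕ),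
  Wk w n → w 0 ∉ S → w n ∈ S → ∃ (y : TV K H) (ρ : (TL K H).Walk (w 0) y), y ∈ S ∧
    ρ.length ≤ n ∧ (∀ z ∈ ρ.support, z ∈ trace w n) ∧ ∃ x, x ∉ S ∧ Ad x y

/-- FIRE-T23: dust near a set -/
def SDst : Prop := ∀ (K H : ℕ) [NeZero K] (bl : Set (TV K H)) (m0 r D : ℕ)
  (A : Set (TV K H)) (Z : Finset (TV K H)), (∀ z ∈ bl, z ∈ Z) →
    (FM.dst (Fl bl m0 r) D A).ncard ≤ m0 * dust Z D A

/-- FIRE-T24: few points outside `X` are not good -/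
def SNgd : Prop := ∀ (K H : ℕ) [NeZero K] (bl : Set (TV K H)) (m0 r F0 : ℕ),
  (Fl bl m0 r).Ok F0 → {z | z ∉ (Fl bl m0 r).X ∧ z ∉ (Fl bl m0 r).gd}.ncard ≤ F0 * bl.ncard

/-- FIRE-T25: the numbers -/
def SArith : Prop := ∀ (e C3 : ℝ), 0 < e → 0 < C3 →
  ∀ en M Δ C0 C J H P b cX cN rg dbd dr q A t1 lam l nw cU : ℕ, 0 < M → 0 < en →
    16 * C3 ≤ e * en → 40 * C3 ≤ e * M → (P : ℝ) ≤ C3 * H → b ≤ P →
    en * (cN + A * rg) ≤ 4 * (en + 1) * b + C → cX ≤ cN + Δ * rg → en * q ≤ b + C →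
    dbd ≤ rg → Δ + 4 * (6 * Δ + 12) ≤ A → cU ≤ cX → l ≤ nw →
    4 * ((nw : ℝ) + t1 + lam + e * H) ≤ cU → ((6 * Δ + 12) * dr : ℝ) ≤ e / 4 * H →
    (5 * C + 100 + 10 * J + (C0 + 1) * (2 * J + 3) : ℝ) ≤ e / 4 * H →
    ∃ n g : ℕ, 4 * (l + 3) + (cX - cU) + 4 * (q + 2 * J + 2) ≤ 4 * n ∧
      (M + 1) * n + M * (C0 + 1) * (2 * J + 3) ≤ M * g ∧
      t1 + g + (6 * Δ + 12) * (dbd + dr) + J + 2 + lam ≤ P

end Pool.Agent.H58.FG
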