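import Pool.Agent.H58.FG.TStm
import Pool.Agent.FM.PDefs

/-!
# MP_4c8b8e_co, project FIRE: the output of the topological block
-/

set_option autoImplicit false

namespace Pool.Agent.H58.FG

open Classical Pool.Agent.H3.FF CV TV Pool.Agent.FM Pool.Agent.H13.FG

section core

variable {K H L : ℕ} [NeZero K]

theorem dust_le {Z : Finset (TV K H)} {r : ℕ} {A B : Set (TV K H)} (h : A ⊆ B) :
    dust Z r A ≤ dust Z r B := by
  unfold dust
  refine Finset.card_le_card fun z hz => ?_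
  rw [Finset.mem_filter] at hz ⊢
  obtain ⟨f, hf, h1⟩ := hz.2
  exact ⟨hz.1, f, h hf, h1⟩

/-- the output of the step for one set of guards -/
theorem top_core (g : Par K H L) (hC : SFilC) (hNgd : SNgd) (hChm : SChm) (hEnt : SEnt)
    (hDst : SDst) (hAr : SArith) (hR : SRing) (hE : SFilE)
    (hdeg : ∀ z, ((TL K H).neighborSet z).ncard ≤ K + 6)
    (P : Set (GV K H L)) (v0 : GV K H L) (t1 m0 r F0 M D C0 q R0 m J : ℕ)
    (hSA : StA (Fl (bp '' P) m0 r) (G K H L) bp P v0 t1 F0 M D C0 (K + 6) q R0)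
    (C : Set (TV K H)) (Ls : Set (GV K H L))
    (hSR : StR (Fl (bp '' P) m0 r) (G K H L) bp P v0 t1 M D C0 (K + 6) q m J C Ls)
    (e C3 k : ℝ) (he : 0 < e) (hC3 : 0 < C3) (en Cs A : ℕ) (hen : 0 < en)
    (h16 : 16 * C3 ≤ e * en) (h40 : 40 * C3 ≤ e * M) (hPC : (P.ncard : ℝ) ≤ C3 * H)
    (hsc : en * (FM.cut (TL K H) (nbh (TL K H) (Fl (bp '' P) m0 r).U r)
      (nbh (TL K H) (Fl (bp '' P) m0 r).U r)ᶜ + A * (rng (bp '' P) m0 r (m0 + D + 3)).ncard) ≤
        4 * (en + 1) * (bp '' P).ncard + Cs)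
    (hq : en * q ≤ (bp '' P).ncard + Cs)
    (hA : (K + 6) + 4 * (6 * (K + 6) + 12) ≤ A) (hr : m0 + D + 3 ≤ r)
    (hk : (6 * ((K + 6 : ℕ) : ℝ) + 12) * (m0 * (k * H)) ≤ e / 4 * H)
    (hconst : (5 * Cs + 100 + 10 * J + (C0 + 1) * (2 * J + 3) : ℝ) ≤ e / 4 * H) :
    ∃ (B : Finset (Finset (TV K H))) (Q Z : Finset (TV K H)),
      Apart B ∧ (∀ f ∈ Q, f ∉ un B) ∧ (∀ f ∈ Q, tv f ∈ bu (G K H L) v0 P t1) ∧
      {f : TV K H | tv f ∈ bu (G K H L) v0 P t1}.ncard ≤
        Q.card + ((Fl (bp '' P) m0 r).X.ncard + F0 * (bp '' P).ncard) ∧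
      Z.card ≤ P.ncard ∧
      sig (G K H L) v0 tv P ≤
        (un B).card + ((Fl (bp '' P) m0 r).X.ncard + F0 * (bp '' P).ncard) ∧
      ∀ (lam : ℕ) (N : Finset (Finset (TV K H))), N ⊆ B → N.Nonempty →
        (∀ S ∈ N, NearTo Q Z D k e t1 lam (un B) S) →
          t1 + lam ≤ P.ncard ∧ (un N).card ≤
            sig (G K H L) v0 tv (tch (G K H L) v0 P (P.ncard - lam) ∪ Ls) +
              F0 * (bp '' P).ncard := by
  have fGV : Finite (GV K H L) := inferInstance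
  set bl : Set (TV K H) := bp '' P with hbl
  set F : Fld (TV K H) := Fl bl m0 r with hF
  have hFT : F.T = TL K H := rfl
  obtain ⟨B, hAp, hun, hcut, hJn, hadj⟩ := hChm K H F.X C hSR.CX
    (fun z hz y hy h => hSR.Ccl z hz y hy h)
  obtain ⟨c1, c2, c3⟩ := hC (TV K H) F F0 hSA.fok
  have hbad := hNgd K H bl m0 r F0 hSA.fok
  have hv0 : v0 ∉ P := hSA.v0P
  have hBu : ∀ n, bu (G K H L) v0 P n = Bu (G K H L) P {v0} n := bu_eq hv0
  have hTch : ∀ n, tch (G K H L) v0 P n = Tch (G K H L) P {v0} n := tch_eq hv0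
  have hblP : bl.ncard ≤ P.ncard := Set.ncard_image_le (Set.toFinite _)
  have hv0B : v0 ∈ Bu (G K H L) P {v0} t1 := by
    rw [← hBu]
    have : ∀ n, v0 ∈ bu (G K H L) v0 P n := by
      intro n
      induction n with
      | zero => rfl
      | succ n ih => exact Or.inl ih
    exact this t1
  refine ⟨B, Finset.univ.filter (fun f => f ∈ F.gd ∧ tv f ∈ bu (G K H L) v0 P t1),
    Finset.univ.filter (fun f => f ∈ bl), hAp, ?_, ?_, ?_, ?_, ?_, ?_⟩
  · intro f hf
    rw [Finset.mem_filter] at hf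
    rw [hun]
    intro h
    refine h.2 (hSR.BC (tv f) ?_ hf.2.1)
    rw [← hBu]
    exact hf.2.2
  · intro f hf
    rw [Finset.mem_filter] at hf
    exact hf.2.2
  · -- burnt points
    have h1 : {f : TV K H | tv f ∈ bu (G K H L) v0 P t1} ⊆
        ((Finset.univ.filter (fun f => f ∈ F.gd ∧ tv f ∈ bu (G K H L) v0 P t1) :
          Finset (TV K H)) : Set (TV K H)) ∪ (F.X ∪ {z | z ∉ F.X ∧ z ∉ F.gd}) := by
      intro f hf
      by_cases h2 : f ∈ F.gd
      · left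
        rw [Finset.mem_coe, Finset.mem_filter]
        exact ⟨Finset.mem_univ _, h2, hf⟩
      · right
        by_cases h3 : f ∈ F.X
        · exact Or.inl h3
        · exact Or.inr ⟨h3, h2⟩
    refine (Set.ncard_le_ncard h1 (Set.toFinite _)).trans ?_
    refine (Set.ncard_union_le _ _).trans ?_
    rw [Set.ncard_coe_finset]
    refine Nat.add_le_add_left ?_ _
    exact (Set.ncard_union_le _ _).trans (Nat.add_le_add_left hbad _)
  · -- dust
    rw [← Set.ncard_coe_finset]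
    refine le_trans (Set.ncard_le_ncard ?_ (Set.toFinite _)) hblP
    intro f hf
    rw [Finset.mem_coe, Finset.mem_filter] at hf
    exact hf.2
  · -- unburnt points
    have h1 : {x : TV K H | ∀ t, tv x ∉ bu (G K H L) v0 P t} ⊆
        ((un B : Finset (TV K H)) : Set (TV K H)) ∪ (F.X ∪ {z | z ∉ F.X ∧ z ∉ F.gd}) := by
      intro f hf
      by_cases h3 : f ∈ F.X
      · exact Or.inr (Or.inl h3)
      by_cases h2 : f ∈ F.gd
      · left
        rw [Finset.mem_coe, hun]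
        refine ⟨h3, fun h4 => ?_⟩
        obtain ⟨n, s, hs, w, hw, hz⟩ := hSR.rch (tv f) h2 h4
        refine hf n ?_
        rw [hBu]
        refine ⟨?_, s, hs, w, hw, hz⟩
        intro h5
        exact c1 f h2 ⟨tv f, h5, rfl⟩
      · exact Or.inr (Or.inr ⟨h3, h2⟩)
    refine (Set.ncard_le_ncard h1 (Set.toFinite _)).trans ?_
    refine (Set.ncard_union_le _ _).trans ?_
    rw [Set.ncard_coe_finset]
    refine Nat.add_le_add_left ?_ _
    exact (Set.ncard_union_le _ _).trans (Nat.add_le_add_left hbad _)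
  · -- separation
    intro lam N hN hNe hnear
    have key : ∀ S ∈ N, t1 + lam ≤ P.ncard ∧ ∀ f ∈ S, f ∈ F.gd →
        ∀ t, tv f ∉ bu (G K H L) v0 (tch (G K H L) v0 P (P.ncard - lam) ∪ Ls) t := by
      intro S hS
      obtain ⟨nw, ⟨w, hw, hw0, hwn, hdust⟩, hineq⟩ := hnear S hS
      have hS' : S ∈ B := hN hS
      rw [Finset.mem_filter] at hw0
      have hw0B : tv (w 0) ∈ Bu (G K H L) P {v0} t1 := by
        rw [← hBu]
        exact hw0.2.2
      have hw0C : w 0 ∈ C := hSR.BC (tv (w 0)) hw0B hw0.2.1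
      have hSun : ∀ f ∈ S, f ∈ un B := fun f hf => by
        unfold un
        rw [Finset.mem_biUnion]
        exact ⟨S, hS', hf⟩
      have hw0S : w 0 ∉ S := fun h => ((hun _).1 (hSun _ h)).2 hw0C
      obtain ⟨y, ρ, hy, hρ, hρt, x, hx, hxy⟩ := hEnt K H S w nw hw hw0S hwn
      have hyu := (hun y).1 (hSun y hy)
      have hxX : x ∈ F.X := hadj S hS' y hy x hx hxy.symm
      have hygd : y ∈ F.gd := c2 y x hyu.1 hxX hxy.symm
      -- the numbers
      have hRing := hR K H L g bl m0 r F0 D hSA.fok hr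
      have hfin : ∀ s : Set (TV K H), s.Finite := fun s => Set.toFinite s
      have hcX : FM.cut F.T F.X (F.X)ᶜ ≤ FM.cut F.T (nbh F.T F.U F.r) (nbh F.T F.U F.r)ᶜ +
          (K + 6) * (rng bl m0 r (m0 + D + 3)).ncard := by
        refine (hE (TV K H) F F0 (K + 6) hSA.fok hdeg).trans ?_
        refine Nat.add_le_add_left (Nat.mul_le_mul_left _ ?_) _
        exact Set.ncard_le_ncard hRing.2 (hfin _)
      have hdbd : (FM.dst F D (bdX F.T F.X)).ncard ≤ (rng bl m0 r (m0 + D + 3)).ncard :=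
        Set.ncard_le_ncard hRing.1 (hfin _)
      have hcU : FM.cut F.T F.X (F.X ∪ C)ᶜ ≤ FM.cut F.T F.X (F.X)ᶜ := by
        unfold FM.cut
        refine Nat.card_le_card_of_injective
          (fun p => ⟨p.1, p.2.1, fun h => p.2.2.1 (Or.inl h), p.2.2.2⟩) ?_
        intro p p' h
        apply Subtype.ext
        have h1 := congrArg Subtype.val h
        exact h1
      have hdr : (FM.dst F D {z | z ∈ ρ.support}).ncard ≤ m0 *
          dust (Finset.univ.filter (fun f => f ∈ bl)) D (trace w nw) := by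
        refine (hDst K H bl m0 r D {z | z ∈ ρ.support}
          (Finset.univ.filter (fun f => f ∈ bl)) ?_).trans ?_
        · intro z hz
          rw [Finset.mem_filter]
          exact ⟨Finset.mem_univ _, hz⟩
        · exact Nat.mul_le_mul_left _ (dust_le hρt)
      have hineq' : 4 * ((nw : ℝ) + t1 + lam + e * H) ≤
          ((FM.cut F.T F.X (F.X ∪ C)ᶜ : ℕ) : ℝ) := by
        rw [hcut] at hineq
        exact_mod_cast hineq
      have hdr' : ((6 * ((K + 6 : ℕ) : ℝ) + 12) *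
          ((FM.dst F D {z | z ∈ ρ.support}).ncard : ℝ)) ≤ e / 4 * H := by
        have h1 : ((FM.dst F D {z | z ∈ ρ.support}).ncard : ℝ) ≤ m0 * (k * H) := by
          have h2 : ((FM.dst F D {z | z ∈ ρ.support}).ncard : ℝ) ≤ m0 *
              (dust (Finset.univ.filter (fun f => f ∈ bl)) D (trace w nw) : ℝ) := by
            exact_mod_cast hdr
          refine h2.trans (mul_le_mul_of_nonneg_left hdust (Nat.cast_nonneg _))
        refine le_trans (mul_le_mul_of_nonneg_left h1 ?_) hk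
        positivity
      obtain ⟨n, gg, a1, a2, a3⟩ := hAr e C3 he hC3 en M (K + 6) C0 Cs J H P.ncard bl.ncard
        (FM.cut F.T F.X (F.X)ᶜ) (FM.cut F.T (nbh F.T F.U F.r) (nbh F.T F.U F.r)ᶜ)
        (rng bl m0 r (m0 + D + 3)).ncard (FM.dst F D (bdX F.T F.X)).ncard
        (FM.dst F D {z | z ∈ ρ.support}).ncard q A t1 lam ρ.length nw
        (FM.cut F.T F.X (F.X ∪ C)ᶜ) hSA.M_pos hen h16 h40 hPC hblP hsc hcX hq hdbd hA hcU hρ
        hineq' (by exact_mod_cast hdr') hconst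
      refine ⟨by omega, ?_⟩
      intro f hf hfg t ht
      have hv0' : v0 ∉ tch (G K H L) v0 P (P.ncard - lam) ∪ Ls := by
        rintro (h | h)
        · exact hv0 h.1
        · exact hSR.LB v0 h hv0B
      obtain ⟨ww, hww⟩ := bu_walk hv0' ht
      refine hSR.sep (tv y) hygd hyu.2 (tv (w 0)) hw0B hw0.2.1 ρ n gg (P.ncard - lam) a1 a2
        (Nat.le_sub_of_add_le a3) (tv f) hfg ?_ v0 hv0B ⟨ww, ?_⟩
      · exact hJn S hS' y hy f hf
      · intro z hz
        rw [← hTch]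
        exact hww z hz
    obtain ⟨S0, hS0⟩ := hNe
    refine ⟨(key S0 hS0).1, ?_⟩
    have h1 : ((un N : Finset (TV K H)) : Set (TV K H)) ⊆
        {x : TV K H | ∀ t, tv x ∉ bu (G K H L) v0
          (tch (G K H L) v0 P (P.ncard - lam) ∪ Ls) t} ∪ {z | z ∉ F.X ∧ z ∉ F.gd} := by
      intro f hf
      rw [Finset.mem_coe] at hf
      unfold un at hf
      rw [Finset.mem_biUnion] at hf
      obtain ⟨S, hS, hfS⟩ := hf
      by_cases h2 : f ∈ F.gd
      · left
        exact (key S hS).2 f hfS h2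
      · right
        refine ⟨?_, h2⟩
        have : f ∈ un B := by
          unfold un
          rw [Finset.mem_biUnion]
          exact ⟨S, hN hS, hfS⟩
        exact ((hun f).1 this).1
    have h2 := Set.ncard_le_ncard h1 (Set.toFinite _)
    rw [Set.ncard_coe_finset] at h2
    refine h2.trans ((Set.ncard_union_le _ _).trans ?_)
    exact Nat.add_le_add_left hbad _

end core

/-- the output of the topological block -/
theorem sstepTopOf (hST : FM.SStepT) (hC : SFilC) (hE : SFilE) (hF : SFollow) (hS : SScale)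
    (hO : SFOk) (hX : SXCard) (hR : SRing) (hDeg : SDeg) (hov : SOv) (hfib : SFib)
    (htri : STri) (hone : ∀ (K H L : ℕ) [NeZero K], Par K H L → Hone (TL K H))
    (hNgd : SNgd) (hChm : SChm) (hEnt : SEnt) (hDst : SDst) (hAr : SArith) : SStepTop := by
  intro K _ h4 e C3 he hC3
  -- precision
  obtain ⟨en, hen⟩ := exists_nat_gt (16 * C3 / e)
  obtain ⟨M, hM⟩ := exists_nat_gt (40 * C3 / e)
  have hen0 : 0 < en := by
    have : (0 : ℝ) < en := lt_trans (by positivity) hen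
    exact_mod_cast this
  have hM0 : 0 < M := by
    have : (0 : ℝ) < M := lt_trans (by positivity) hM
    exact_mod_cast this
  have h16 : 16 * C3 ≤ e * en := by
    rw [div_lt_iff₀ he] at hen
    linarith
  have h40 : 40 * C3 ≤ e * M := by
    rw [div_lt_iff₀ he] at hM
    linarith
  refine ⟨1, fun L hL h3 => ?_⟩
  obtain ⟨R0, D, C0, hFol⟩ := hF K L M hM0
  obtain ⟨Cm, hCm1, hOk⟩ := hO K h4
  obtain ⟨Rm, Cs, hSc⟩ := hS K en ((K + 6) + 4 * (6 * (K + 6) + 12)) D (Cm + R0 + 1) hen0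
  -- bounds that do not depend on `H`
  obtain ⟨CX, hCX⟩ : ∃ CX : ℕ, ∀ m0 ≤ Rm, ∀ H, Par K H L → ∀ (bl : Set (TV K H)) (r : ℕ),
      r ≤ Rm → (Fl bl m0 r).Ok (Cm * (m0 + 1) ^ 2) → (Fl bl m0 r).X.ncard ≤ CX * (bl.ncard + 1) := by
    choose cx hcx using fun m0 : ℕ => hX K Rm (Cm * (m0 + 1) ^ 2)
    refine ⟨∑ m0 ∈ Finset.range (Rm + 1), cx m0, ?_⟩
    intro m0 hm0 H g bl r hr hok
    refine (hcx m0 H L g bl m0 r hr hok).trans (Nat.mul_le_mul_right _ ?_)
    exact Finset.single_le_sum (f := cx) (fun _ _ => Nat.zero_le _)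
      (Finset.mem_range.2 (by omega))
  obtain ⟨Hok, hHok⟩ : ∃ Hok : ℕ, ∀ m0 ≤ Rm, ∀ r ≤ Rm, Cm * (m0 + 1) ≤ r → ∀ H, Hok ≤ H →
      Par K H L → ∀ bl : Set (TV K H), (Fl bl m0 r).Ok (Cm * (m0 + 1) ^ 2) := by
    have h1 : ∀ m0 r : ℕ, ∃ H0 : ℕ, Cm * (m0 + 1) ≤ r → ∀ H, H0 ≤ H → Par K H L →
        ∀ bl : Set (TV K H), (Fl bl m0 r).Ok (Cm * (m0 + 1) ^ 2) := by
      intro m0 r
      by_cases h : Cm * (m0 + 1) ≤ r
      · obtain ⟨H0, h2⟩ := hOk m0 r h
        exact ⟨H0, fun _ H hH g bl => h2 H L hH g bl⟩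
      · exact ⟨0, fun h' => absurd h' h⟩
    choose h0 hh0 using h1
    refine ⟨∑ m0 ∈ Finset.range (Rm + 1), ∑ r ∈ Finset.range (Rm + 1), h0 m0 r, ?_⟩
    intro m0 hm0 r hr hmr H hH g bl
    refine hh0 m0 r hmr H (le_trans ?_ hH) g bl
    refine le_trans ?_ (Finset.single_le_sum (f := fun m0 => ∑ r ∈ Finset.range (Rm + 1), h0 m0 r)
      (fun _ _ => Nat.zero_le _) (Finset.mem_range.2 (by omega : m0 < Rm + 1)))
    exact Finset.single_le_sum (f := h0 m0) (fun _ _ => Nat.zero_le _)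
      (Finset.mem_range.2 (by omega))
  set F0m : ℕ := Cm * (Rm + 1) ^ 2 with hF0m
  set k : ℝ := e / (4 * (6 * ((K + 6 : ℕ) : ℝ) + 12) * (Rm + 1)) with hk
  have hkpos : 0 < k := by positivity
  set C4 : ℝ := (CX + F0m) * (C3 + 1) + 1 with hC4
  have hC4pos : 0 < C4 := by positivity
  refine ⟨D, k, C4, hkpos, hC4pos, fun e1 he1 => ?_⟩
  obtain ⟨Jm, hJm⟩ := exists_nat_gt (13 * CX * (C3 + 1) / e1)
  obtain ⟨H1, hH1⟩ := exists_nat_gt
    (((5 * Cs + 100 + 10 * Jm + (C0 + 1) * (2 * Jm + 3) : ℕ) : ℝ) * 4 / e)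
  refine ⟨Hok + H1 + F0m + 1, ?_⟩
  intro H hH hLH v0 P t1 hv0 hPC ht1 hburn
  have g : Par K H L := by
    refine ⟨?_, ?_, h3, hLH, by omega⟩
    · exact Nat.le_of_dvd (Nat.pos_of_ne_zero (NeZero.ne K)) h4
    · exact (by norm_num : 2 ∣ 4).trans h4
  have hHpos : (1 : ℝ) ≤ H := by
    have : 1 ≤ H := by omega
    exact_mod_cast this
  have fGV : Finite (GV K H L) := inferInstance
  obtain ⟨m0, r, q, hr1, hr2, hr3, hm0, hnum, hq, hsc⟩ := hSc H L g (bp '' P)
  have hm0R : m0 ≤ Rm := by omega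
  have hCmr : Cm * (m0 + 1) ≤ r := by
    refine le_trans ?_ hr1
    exact Nat.mul_le_mul (by omega) (by omega)
  have hR0r : R0 < r := by
    have : R0 + 1 ≤ (Cm + R0 + 1) * (m0 + D + 3) := by nlinarith
    omega
  have hfok := hHok m0 hm0R r hr3 hCmr H (by omega) g (bp '' P)
  have hblP : (bp '' P).ncard ≤ P.ncard := Set.ncard_image_le (Set.toFinite _)
  have hF0le : Cm * (m0 + 1) ^ 2 ≤ F0m := by
    rw [hF0m]
    exact Nat.mul_le_mul_left _ (Nat.pow_le_pow_left (by omega) 2)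
  obtain ⟨d1, d2, d3, d4⟩ := hDeg K H L g
  have hSA : StA (Fl (bp '' P) m0 r) (G K H L) bp P v0 t1 (Cm * (m0 + 1) ^ 2) M D C0 (K + 6) q
      R0 := by
    refine
      { fok := hfok
        tri := htri K H L g
        hone := hone K H L g
        ov := hov K H L g
        fib := hfib K H L g
        bl := rfl
        v0P := hv0
        Bbig := ?_
        Zne := d4
        M_pos := hM0
        fol := hFol H g
        deg := d2
        R0r := hR0r
        Dr := by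
          show D < r
          omega
        num := hnum }
    intro S hS
    by_contra hcon
    push Not at hcon
    have h1 : {f : TV K H | tv f ∈ bu (G K H L) v0 P t1} ⊆ S := by
      intro f hf
      exact hcon (tv f) (by rw [← bu_eq hv0]; exact hf)
    have h2 := Set.ncard_le_ncard h1 (Set.toFinite _)
    omega
  -- the last layer
  obtain ⟨J, C, Ls, hSR⟩ := hST (TV K H) (GV K H L) (Fl (bp '' P) m0 r) (G K H L) bp P v0 t1
    (Cm * (m0 + 1) ^ 2) M D C0 (K + 6) q R0 hSA ⌊e1 * H⌋₊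
  have hXc := hCX m0 hm0R H g (bp '' P) r hr3 hfok
  have hblR : ((bp '' P).ncard : ℝ) ≤ C3 * H := le_trans (by exact_mod_cast hblP) hPC
  have hbl1 : ((bp '' P).ncard : ℝ) + 1 ≤ (C3 + 1) * H := by nlinarith
  have hXR : ((Fl (bp '' P) m0 r).X.ncard : ℝ) ≤ CX * ((C3 + 1) * H) := by
    have h1 : ((Fl (bp '' P) m0 r).X.ncard : ℝ) ≤ CX * ((bp '' P).ncard + 1) := by
      exact_mod_cast hXc
    exact h1.trans (mul_le_mul_of_nonneg_left hbl1 (Nat.cast_nonneg _))
  have hJ : J ≤ Jm := by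
    have h1 : (J : ℝ) * (⌊e1 * H⌋₊ + 1) ≤ 13 * (Fl (bp '' P) m0 r).X.ncard := by
      exact_mod_cast hSR.J_le
    have h2 : e1 * H < ⌊e1 * H⌋₊ + 1 := Nat.lt_floor_add_one _
    have h3' : (J : ℝ) * (e1 * H) ≤ 13 * (CX * ((C3 + 1) * H)) :=
      le_trans (mul_le_mul_of_nonneg_left h2.le (Nat.cast_nonneg _)) (by linarith)
    have h4' : (J : ℝ) * e1 ≤ 13 * CX * (C3 + 1) := by
      have h5 : ((J : ℝ) * e1) * H ≤ (13 * CX * (C3 + 1)) * H := by nlinarith
      exact le_of_mul_le_mul_right h5 (by linarith)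
    have h6 : (J : ℝ) ≤ 13 * CX * (C3 + 1) / e1 := by
      rw [le_div_iff₀ he1]
      exact h4'
    have h7 : (J : ℝ) < Jm := lt_of_le_of_lt h6 hJm
    exact_mod_cast h7.le
  have hconst : (5 * Cs + 100 + 10 * J + (C0 + 1) * (2 * J + 3) : ℝ) ≤ e / 4 * H := by
    have h1 : ((5 * Cs + 100 + 10 * J + (C0 + 1) * (2 * J + 3) : ℕ) : ℝ) ≤
        ((5 * Cs + 100 + 10 * Jm + (C0 + 1) * (2 * Jm + 3) : ℕ) : ℝ) := by
      have : 5 * Cs + 100 + 10 * J + (C0 + 1) * (2 * J + 3) ≤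
          5 * Cs + 100 + 10 * Jm + (C0 + 1) * (2 * Jm + 3) := by
        have h2 := Nat.mul_le_mul_left (C0 + 1) (show 2 * J + 3 ≤ 2 * Jm + 3 by omega)
        omega
      exact_mod_cast this
    have h2 : (H1 : ℝ) ≤ H := by
      have : H1 ≤ H := by omega
      exact_mod_cast this
    have h3' := lt_of_lt_of_le hH1 h2
    rw [div_lt_iff₀ he] at h3'
    push_cast at h1 h3' ⊢
    linarith
  have hkk : (6 * ((K + 6 : ℕ) : ℝ) + 12) * (m0 * (k * H)) ≤ e / 4 * H := by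
    have h1 : (m0 : ℝ) ≤ Rm + 1 := by
      have : m0 ≤ Rm + 1 := by omega
      exact_mod_cast this
    have h2 : (6 * ((K + 6 : ℕ) : ℝ) + 12) * ((Rm + 1) * (k * H)) = e / 4 * H := by
      rw [hk]
      field_simp
    rw [← h2]
    refine mul_le_mul_of_nonneg_left ?_ (by positivity)
    exact mul_le_mul_of_nonneg_right h1 (by positivity)
  obtain ⟨B, Q, Z, b1, b2, b3, b4, b5, b6, b7⟩ := top_core g hC hNgd hChm hEnt hDst hAr hR hE d2
    P v0 t1 m0 r (Cm * (m0 + 1) ^ 2) M D C0 q R0 ⌊e1 * H⌋₊ J hSA C Ls hSR e C3 k he hC3 en Cs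
    ((K + 6) + 4 * (6 * (K + 6) + 12)) hen0 h16 h40 hPC hsc hq le_rfl hr2 hkk hconst
  have hF0R : ((Cm * (m0 + 1) ^ 2 * (bp '' P).ncard : ℕ) : ℝ) ≤ F0m * ((C3 + 1) * H) := by
    have h1 : ((Cm * (m0 + 1) ^ 2 * (bp '' P).ncard : ℕ) : ℝ) ≤
        ((F0m * ((bp '' P).ncard + 1) : ℕ) : ℝ) := by
      have := Nat.mul_le_mul hF0le (Nat.le_succ (bp '' P).ncard)
      exact_mod_cast this
    refine h1.trans ?_
    push_cast
    exact mul_le_mul_of_nonneg_left hbl1 (Nat.cast_nonneg _)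
  have hW : (((Fl (bp '' P) m0 r).X.ncard + Cm * (m0 + 1) ^ 2 * (bp '' P).ncard : ℕ) : ℝ) ≤
      C4 * H := by
    rw [Nat.cast_add, hC4]
    nlinarith
  have hW' : ((Cm * (m0 + 1) ^ 2 * (bp '' P).ncard : ℕ) : ℝ) ≤ C4 * H := by
    refine le_trans ?_ hW
    exact_mod_cast Nat.le_add_left _ _
  refine ⟨B, Q, Z, Ls, b1, b2, b3, ?_, ?_, ?_, ?_, ?_, ?_⟩
  · have h1 : ({f : TV K H | tv f ∈ bu (G K H L) v0 P t1}.ncard : ℝ) ≤ Q.card +
        (((Fl (bp '' P) m0 r).X.ncard + Cm * (m0 + 1) ^ 2 * (bp '' P).ncard : ℕ) : ℝ) := by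
      exact_mod_cast b4
    linarith
  · exact le_trans (by exact_mod_cast b5) hPC
  · have h1 : (sig (G K H L) v0 tv P : ℝ) ≤ (un B).card +
        (((Fl (bp '' P) m0 r).X.ncard + Cm * (m0 + 1) ^ 2 * (bp '' P).ncard : ℕ) : ℝ) := by
      exact_mod_cast b6
    linarith
  · rw [Set.disjoint_left]
    intro u hu hu'
    refine hSR.LB u hu ?_
    rw [← bu_eq hv0]
    exact hu'
  · have h1 : (Ls.ncard : ℝ) ≤ ⌊e1 * H⌋₊ := by exact_mod_cast hSR.L_card
    exact h1.trans (Nat.floor_le (by positivity))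
  · intro lam N hN hNe hnear
    obtain ⟨h1, h2⟩ := b7 lam N hN hNe hnear
    refine ⟨h1, ?_⟩
    have h3' : ((un N).card : ℝ) ≤
        sig (G K H L) v0 tv (tch (G K H L) v0 P (P.ncard - lam) ∪ Ls) +
          ((Cm * (m0 + 1) ^ 2 * (bp '' P).ncard : ℕ) : ℝ) := by
      exact_mod_cast h2
    linarith

end Pool.Agent.H58.FG
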