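import Pool.Agent.H58.FG.MStm
import Pool.Agent.FM.F1

/-!
# MP_4c8b8e_co, project FIRE: metric block, FIRE-M15

The cut of the neighbourhood of the large clusters and the coarse vertices.
-/

set_option autoImplicit false

namespace Pool.Agent.H58.FG

open Classical Pool.Agent.H3.FF CV TV Pool.Agent.FM Pool.Agent.H13.FG

/-- the cut as a cardinality of a set -/
private theorem uc_cut {V : Type} (T : SimpleGraph V) (A B : Set V) :
    FM.cut T A B = {e : V × V | e.1 ∈ A ∧ e.2 ∈ B ∧ T.Adj e.1 e.2}.ncard := rfl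

private theorem uc_union {V : Type} [Finite V] (T : SimpleGraph V) (A B : Set V) :
    FM.cut T (A ∪ B) (A ∪ B)ᶜ ≤ FM.cut T A Aᶜ + FM.cut T B Bᶜ := by
  rw [uc_cut, uc_cut, uc_cut]
  refine le_trans (Set.ncard_le_ncard ?_ (Set.toFinite _)) (Set.ncard_union_le _ _)
  rintro ⟨a, b⟩ ⟨h1, h2, h3⟩
  simp only [Set.mem_compl_iff, Set.mem_union, not_or] at h2
  rcases h1 with h1 | h1
  · exact Or.inl ⟨h1, h2.1, h3⟩
  · exact Or.inr ⟨h1, h2.2, h3⟩

private theorem uc_fam {V : Type} [Finite V] (T : SimpleGraph V) (A : Set V)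
    (N : Set V → Set V) (𝓑 : Finset (Set V)) :
    FM.cut T (A ∪ ⋃ d ∈ 𝓑, N d) (A ∪ ⋃ d ∈ 𝓑, N d)ᶜ ≤
      FM.cut T A Aᶜ + ∑ d ∈ 𝓑, FM.cut T (N d) (N d)ᶜ := by
  induction 𝓑 using Finset.induction_on with
  | empty => simp
  | insert d s hd ih =>
    rw [Finset.sum_insert hd]
    have h : (A ∪ ⋃ e ∈ insert d s, N e) = (A ∪ ⋃ e ∈ s, N e) ∪ N d := by
      ext x
      simp only [Finset.mem_insert, Set.mem_union, Set.mem_iUnion, exists_prop]
      constructor
      · rintro (h | ⟨e, rfl | he, hx⟩)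
        · exact Or.inl (Or.inl h)
        · exact Or.inr hx
        · exact Or.inl (Or.inr ⟨e, he, hx⟩)
      · rintro ((h | ⟨e, he, hx⟩) | hx)
        · exact Or.inl h
        · exact Or.inr ⟨e, Or.inr he, hx⟩
        · exact Or.inr ⟨d, Or.inl rfl, hx⟩
    rw [h]
    have := uc_union T (A ∪ ⋃ e ∈ s, N e) (N d)
    omega

/-- pairwise disjoint families -/
private theorem uc_sum {V : Type} [Finite V] (𝓑 : Finset (Set V)) (f : Set V → Set V)
    (S : Set V) (hS : ∀ d ∈ 𝓑, f d ⊆ S)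
    (hd : ∀ d ∈ 𝓑, ∀ d' ∈ 𝓑, ∀ x, x ∈ f d → x ∈ f d' → d = d') :
    ∑ d ∈ 𝓑, (f d).ncard ≤ S.ncard := by
  have : Fintype V := Fintype.ofFinite V
  have h1 : ∀ d, (f d).ncard = (f d).toFinset.card := fun d => Set.ncard_eq_toFinset_card' _
  rw [Finset.sum_congr rfl fun d _ => h1 d, ← Finset.card_biUnion, Set.ncard_eq_toFinset_card' S]
  · apply Finset.card_le_card
    intro x hx
    rw [Finset.mem_biUnion] at hx
    obtain ⟨d, hd1, hx⟩ := hx
    rw [Set.mem_toFinset] at hx ⊢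
    exact hS d hd1 hx
  · intro d hd1 d' hd2 hne
    show Disjoint (f d).toFinset (f d').toFinset
    rw [Finset.disjoint_left]
    intro x hx hx'
    rw [Set.mem_toFinset] at hx hx'
    exact hne (hd d hd1 d' hd2 x hx hx')

/-- a walk gives a walk with pauses -/
private theorem uc_nr {K H : ℕ} [NeZero K] {u z : TV K H} {r : ℕ} (w : (TL K H).Walk u z)
    (hw : w.length ≤ r) : Nr r u z := by
  refine ⟨fun i => w.getVert i, ?_, ?_, ?_⟩
  · intro i _
    by_cases h : i < w.length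
    · exact Or.inr (w.adj_getVert_succ h)
    · left
      show w.getVert i = w.getVert (i + 1)
      rw [w.getVert_of_length_le (by omega), w.getVert_of_length_le (by omega)]
  · exact w.getVert_zero
  · exact w.getVert_of_length_le hw

private theorem uc_deg {V : Type} [Finite V] (T : SimpleGraph V) (A : Set V) (m : ℕ)
    (hm : ∀ z, (T.neighborSet z).ncard ≤ m) : FM.cut T A Aᶜ ≤ m * A.ncard := by
  have : Fintype V := Fintype.ofFinite V
  rw [uc_cut]
  have h1 : {e : V × V | e.1 ∈ A ∧ e.2 ∈ Aᶜ ∧ T.Adj e.1 e.2} ⊆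
      ↑(A.toFinset.biUnion fun a => (T.neighborSet a).toFinset.image fun b => (a, b)) := by
    rintro ⟨a, b⟩ ⟨ha, _, hab⟩
    simp only [Finset.coe_biUnion, Set.mem_iUnion, Finset.mem_coe, Set.mem_toFinset,
      Finset.mem_image, exists_prop]
    exact ⟨a, ha, b, hab, rfl⟩
  refine le_trans (Set.ncard_le_ncard h1 (Set.toFinite _)) ?_
  rw [Set.ncard_coe_finset]
  refine le_trans Finset.card_biUnion_le ?_
  calc ∑ a ∈ A.toFinset, ((T.neighborSet a).toFinset.image fun b => (a, b)).card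
      ≤ ∑ _a ∈ A.toFinset, m := by
        apply Finset.sum_le_sum
        intro a _
        refine le_trans Finset.card_image_le ?_
        rw [← Set.ncard_eq_toFinset_card']
        exact hm a
    _ = m * A.ncard := by
        rw [Finset.sum_const, smul_eq_mul, Set.ncard_eq_toFinset_card', mul_comm]

private theorem uc_ball (h3 : SBall) {K H : ℕ} [NeZero K] (hK : 4 ≤ K) (Z : Set (TV K H))
    (r : ℕ) : (nbh (TL K H) Z r).ncard ≤ Z.ncard * (K + 7) ^ r := by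
  have h1 : nbh (TL K H) Z r ⊆
      ↑(Z.toFinset.biUnion fun z => Finset.univ.filter fun f => Nr r z f) := by
    rintro x ⟨u, hu, w, hw⟩
    simp only [Finset.coe_biUnion, Set.mem_iUnion, Finset.mem_coe, Set.mem_toFinset,
      Finset.mem_filter, Finset.mem_univ, true_and, exists_prop]
    exact ⟨u, hu, uc_nr w hw⟩
  refine le_trans (Set.ncard_le_ncard h1 (Set.toFinite _)) ?_
  rw [Set.ncard_coe_finset]
  refine le_trans Finset.card_biUnion_le ?_
  calc ∑ z ∈ Z.toFinset, (Finset.univ.filter fun f => Nr r z f).card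
      ≤ ∑ _z ∈ Z.toFinset, (K + 7) ^ r := Finset.sum_le_sum fun z _ => h3 K H hK z r
    _ = Z.ncard * (K + 7) ^ r := by
        rw [Finset.sum_const, smul_eq_mul, Set.ncard_eq_toFinset_card']

/-- FIRE-M15 -/
theorem suCut (h1 : SNghCut) (h2 : SNotFar) (h3 : SBall) (h4 : SDeg) : SUCut := by
  intro K r _
  obtain ⟨C1, hC1⟩ := h1 K r
  obtain ⟨C2, hC2⟩ := h2 K (r + 4)
  refine ⟨C1 * C2 + (K + 6) * ((K + 2) * (K + 7) ^ r), ?_⟩
  intro H L hP bl m0
  obtain ⟨_, hdeg, hZ, _⟩ := h4 K H L hP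
  set T := TL K H with hT
  set F := Fl bl m0 r with hF
  have hfin : Set.Finite {d : Set (TV K H) | F.big d} := Set.toFinite _
  set 𝓑 : Finset (Set (TV K H)) := hfin.toFinset with hB
  have memB : ∀ d, d ∈ 𝓑 ↔ F.big d := fun d => by
    rw [hB, Set.Finite.mem_toFinset]
    rfl
  have hN : nbh T F.U r = nbh T (Zc K H) r ∪ ⋃ d ∈ 𝓑, nbh T d r := by
    ext x
    simp only [Set.mem_union, Set.mem_iUnion, exists_prop]
    constructor
    · rintro ⟨u, hu | ⟨d, hd, hu⟩, w, hw⟩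
      · exact Or.inl ⟨u, hu, w, hw⟩
      · exact Or.inr ⟨d, (memB d).2 hd, u, hu, w, hw⟩
    · rintro (⟨u, hu, w, hw⟩ | ⟨d, hd, u, hu, w, hw⟩)
      · exact ⟨u, Or.inl hu, w, hw⟩
      · exact ⟨u, Or.inr ⟨d, (memB d).1 hd, hu⟩, w, hw⟩
  rw [hN]
  refine le_trans (uc_fam T (nbh T (Zc K H) r) (fun d => nbh T d r) 𝓑) ?_
  -- the coarse vertices
  have hA : FM.cut T (nbh T (Zc K H) r) (nbh T (Zc K H) r)ᶜ ≤
      (K + 6) * ((K + 2) * (K + 7) ^ r) := by
    refine le_trans (uc_deg T _ (K + 6) hdeg) ?_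
    apply Nat.mul_le_mul_left
    exact le_trans (uc_ball h3 hP.hK (Zc K H) r) (Nat.mul_le_mul_right _ hZ)
  -- the large clusters
  have hsum : ∑ d ∈ 𝓑, FM.cut T (nbh T d r) (nbh T d r)ᶜ ≤
      ∑ d ∈ 𝓑, (4 * d.ncard + (24 * r + 6) + C1 * {f | f ∈ d ∧ ¬ Far (r + 4) f}.ncard) := by
    apply Finset.sum_le_sum
    intro d hd
    have := hC1 H L hP d ((memB d).1 hd).1.1
    exact le_trans this (by omega)
  have hdis : ∀ d ∈ 𝓑, ∀ d' ∈ 𝓑, ∀ x : TV K H, x ∈ d → x ∈ d' → d = d' := by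
    intro d hd d' hd' x hx hx'
    exact f1_eq ((memB d).1 hd).1 ((memB d').1 hd').1 hx hx'
  have hs1 : ∑ d ∈ 𝓑, d.ncard ≤ bl.ncard :=
    uc_sum 𝓑 (fun d => d) bl (fun d hd => ((memB d).1 hd).1.2.1) hdis
  have hs2 : ∑ d ∈ 𝓑, {f | f ∈ d ∧ ¬ Far (r + 4) f}.ncard ≤ C2 := by
    refine le_trans (uc_sum 𝓑 (fun d => {f | f ∈ d ∧ ¬ Far (r + 4) f})
      {f : TV K H | ¬ Far (r + 4) f} (fun d _ x hx => hx.2) ?_) (hC2 H L hP)
    intro d hd d' hd' x hx hx'
    exact hdis d hd d' hd' x hx.1 hx'.1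
  have hcard : {d | F.big d}.ncard = 𝓑.card := by
    rw [Set.ncard_eq_toFinset_card _ hfin]
  rw [Finset.sum_add_distrib, Finset.sum_add_distrib, ← Finset.mul_sum, ← Finset.mul_sum,
    Finset.sum_const, smul_eq_mul] at hsum
  rw [hcard]
  have e1 : C1 * ∑ d ∈ 𝓑, {f | f ∈ d ∧ ¬ Far (r + 4) f}.ncard ≤ C1 * C2 :=
    Nat.mul_le_mul_left _ hs2
  have e2 : 𝓑.card * (24 * r + 6) = (24 * r + 6) * 𝓑.card := mul_comm _ _
  omega

end Pool.Agent.H58.FG
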