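import Pool.Agent.H58.FG.MStm
import Pool.Agent.FM.F1

/-!
# MP_4c8b8e_co, FIRE-M22: the size of `X`
-/

set_option autoImplicit false

namespace Pool.Agent.H58.FG

open Classical Pool.Agent.H3.FF CV TV Pool.Agent.FM Pool.Agent.H13.FG

/-- the size of a union of sets of bounded size -/
theorem xc_union {ι V : Type} [Finite ι] [Finite V] (U : Set ι) (f : ι → Set V) (M : ℕ)
    (h : ∀ u ∈ U, (f u).ncard ≤ M) : {z | ∃ u ∈ U, z ∈ f u}.ncard ≤ U.ncard * M := by
  have := Fintype.ofFinite ι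
  have := Fintype.ofFinite V
  have e : {z | ∃ u ∈ U, z ∈ f u} =
      ((U.toFinset.biUnion fun u => (f u).toFinset : Finset V) : Set V) := by
    ext z
    simp
  rw [e, Set.ncard_coe_finset, Set.ncard_eq_toFinset_card' U]
  refine Finset.card_biUnion_le_card_mul _ _ _ fun u hu => ?_
  rw [← Set.ncard_eq_toFinset_card' (f u)]
  exact h u (by simpa using hu)

theorem xc_ball {K H L : ℕ} [NeZero K] (h2 : SBall) (g : Par K H L) (u : TV K H) (r : ℕ) :
    (nbh (TL K H) {u} r).ncard ≤ (K + 7) ^ r := by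
  refine le_trans ?_ (h2 K H g.hK u r)
  rw [← Set.ncard_coe_finset]
  refine Set.ncard_le_ncard ?_ (Set.toFinite _)
  rintro z ⟨u', hu', w, hw⟩
  rw [Set.mem_singleton_iff] at hu'
  subst hu'
  simp only [Finset.coe_filter, Finset.mem_univ, true_and, Set.mem_ofPred_eq]
  refine ⟨fun i => w.getVert i, ?_, w.getVert_zero, w.getVert_of_length_le hw⟩
  intro i _
  by_cases h : i < w.length
  · exact Or.inr (w.adj_getVert_succ h)
  · left
    show w.getVert i = w.getVert (i + 1)
    rw [w.getVert_of_length_le (by omega), w.getVert_of_length_le (by omega)]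

theorem sxCard (h1 : SFilA) (h2 : SBall) (h3 : SDeg) : SXCard := by
  intro K _ Rm F0
  refine ⟨(K + 2) * (K + 7) ^ Rm + F0, ?_⟩
  intro H L g bl m0 r hr hok
  have hU : (Fl bl m0 r).U.ncard ≤ bl.ncard + (K + 2) := by
    have e : (Fl bl m0 r).U ⊆ bl ∪ Zc K H := by
      rintro z (hz | ⟨d, hd, hz⟩)
      · exact Or.inr hz
      · exact Or.inl (hd.1.2.1 hz)
    refine (Set.ncard_le_ncard e (Set.toFinite _)).trans ((Set.ncard_union_le _ _).trans ?_)
    exact Nat.add_le_add_left (h3 K H L g).2.2.1 _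
  have hN : (nbh (TL K H) (Fl bl m0 r).U r).ncard ≤ (bl.ncard + (K + 2)) * (K + 7) ^ Rm := by
    have e : nbh (TL K H) (Fl bl m0 r).U r =
        {z | ∃ u ∈ (Fl bl m0 r).U, z ∈ nbh (TL K H) {u} r} := by
      ext z
      constructor
      · rintro ⟨u, hu, w, hw⟩
        exact ⟨u, hu, u, rfl, w, hw⟩
      · rintro ⟨u, hu, u', hu', w, hw⟩
        rw [Set.mem_singleton_iff] at hu'
        subst hu'
        exact ⟨u', hu, w, hw⟩
    rw [e]
    refine (xc_union _ _ ((K + 7) ^ r) fun u _ => xc_ball h2 g u r).trans ?_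
    exact Nat.mul_le_mul hU (Nat.pow_le_pow_right (by omega) hr)
  have hA : {d | (Fl bl m0 r).att d}.ncard ≤ bl.ncard := by
    rcases Set.eq_empty_or_nonempty {d | (Fl bl m0 r).att d} with h0 | ⟨d0, hd0⟩
    · rw [h0, Set.ncard_empty]
      exact Nat.zero_le _
    · obtain ⟨z0, _⟩ := hd0.1.1.1.1
      have hne : ∀ d, ∃ z, (Fl bl m0 r).att d → z ∈ d := by
        intro d
        by_cases hd : (Fl bl m0 r).att d
        · obtain ⟨z, hz⟩ := hd.1.1.1.1
          exact ⟨z, fun _ => hz⟩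
        · exact ⟨z0, fun h => absurd h hd⟩
      choose f hf using hne
      refine Set.ncard_le_ncard_of_injOn f ?_ ?_ (Set.toFinite _)
      · intro d hd
        exact hd.1.1.2.1 (hf d hd)
      · intro d hd d' hd' e
        refine f1_eq hd.1.1 hd'.1.1 (hf d hd) ?_
        rw [e]
        exact hf d' hd'
  have hF : {z | ∃ d, (Fl bl m0 r).att d ∧ z ∈ (Fl bl m0 r).fil d}.ncard ≤ bl.ncard * F0 := by
    refine (xc_union {d | (Fl bl m0 r).att d} (fun d => (Fl bl m0 r).fil d) F0 ?_).trans ?_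
    · intro d hd
      exact (h1 _ (Fl bl m0 r) F0 hok d hd.1).2.1
    · exact Nat.mul_le_mul_right _ hA
  have hX : (Fl bl m0 r).X.ncard ≤
      (bl.ncard + (K + 2)) * (K + 7) ^ Rm + bl.ncard * F0 :=
    (Set.ncard_union_le _ _).trans (Nat.add_le_add hN hF)
  refine hX.trans ?_
  have e1 : bl.ncard + (K + 2) ≤ (K + 2) * (bl.ncard + 1) := by nlinarith [Nat.zero_le bl.ncard]
  have e2 := Nat.mul_le_mul_right ((K + 7) ^ Rm) e1
  nlinarith [Nat.zero_le F0]

end Pool.Agent.H58.FG
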