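import Pool.Agent.H58.FG.Top
import Pool.Agent.H58.FG.Deg
import Pool.Agent.H58.FG.Edge
import Pool.Agent.H58.FG.Lat
import Pool.Agent.H58.FG.Chart
import Pool.Agent.H58.FG.FarZ
import Pool.Agent.H58.FG.Short
import Pool.Agent.H58.FG.Follow
import Pool.Agent.H58.FG.Slide
import Pool.Agent.H58.FG.BallCut
import Pool.Agent.H58.FG.NghCut
import Pool.Agent.H58.FG.NotFar
import Pool.Agent.H58.FG.UCut
import Pool.Agent.H58.FG.RngAvg
import Pool.Agent.H58.FG.Pig
import Pool.Agent.H58.FG.Num
import Pool.Agent.H58.FG.Scale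
import Pool.Agent.H58.FG.BallLow
import Pool.Agent.H58.FG.FOk
import Pool.Agent.H58.FG.XCard
import Pool.Agent.H58.FG.Ring
import Pool.Agent.H58.FG.Chm
import Pool.Agent.H58.FG.Ent
import Pool.Agent.H58.FG.Dst
import Pool.Agent.H58.FG.Ngd
import Pool.Agent.H58.FG.Arith
import Pool.Agent.FM.TAll
import Pool.Agent.H13.FG.Geo
import Pool.Agent.H3.FF.M123

/-!
# MP_4c8b8e_co, project FIRE: the output of the topological block without hypotheses
-/

set_option autoImplicit false

namespace Pool.Agent.H58.FG

open Pool.Agent.FM Pool.Agent.H13.FG Pool.Agent.H3.FF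

theorem topFollow : SFollow := sfollow (sshort slat schart sedge) sfarZ sedge

theorem topNgh : SNghCut := snghCut sslide (sballCut sslide) (sball ssq) sdeg

theorem topU : SUCut := suCut topNgh snotFar (sball ssq) sdeg

theorem topScale : SScale := sscale topU (srngAvg sdeg) spig (snum sdeg)

theorem topOk : SFOk := sfOk siso0' sdeg (sballLow ssq)

/-- the output of the topological block -/
theorem sstepTop : SStepTop :=
  sstepTopOf tall_step (sfilc sfila (sfilb sfila)) (sfile sfila) topFollow topScale topOk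
    (sxCard sfila (sball ssq) sdeg) (sring (sfild sfila)) sdeg Pool.Agent.H3.FF.sov
    Pool.Agent.H3.FF.sfib Pool.Agent.H3.FF.stri
    (fun K H _ _ g => hone ssq g.hK g.pos (TL K H) (fun _ _ => Iff.rfl))
    (sngd sfila) schm sent sdst sarith

end Pool.Agent.H58.FG
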